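import Mathlib

/-!
# Seshadri constants on projective surfaces, in classical (Weil / Zariski style) language

Everything is over an algebraically closed field `k`.

* `ProjVar k ι` : projective varieties `X ⊆ ℙ(k^ι)`, given by their function field and the
  homogeneous coordinates of their generic point.  The homogeneous ideal of `X` is
  `{F | F(gen) = 0}`; every integral closed subscheme of a projective space arises in this way.
* `ProjVar.Point` : closed points; `ProjVar.Regular`, `ProjVar.Vanishes`, `ProjVar.MaxPow` : the
  local ring of a closed point, the ideals of subvarieties, the powers of its maximal ideal;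
  `ProjVar.SmoothSurface`.
* `ProjVar.Curve` : irreducible reduced curves `C ⊆ X`, `ProjVar.Curve.multiplicity` : the
  multiplicity of `C` at a closed point of `X`.
* `Place k κ` : the places (normalised discrete valuations trivial on `k`) of a field `κ/k`.
* `ProjVar.IsMorphism φ` : `φ = (φ_0 : ... : φ_n)` is a morphism `X → ℙⁿ`;
  `ProjVar.pullDeg φ C` : the degree of `φ^* 𝒪(1)` on the curve `C`.
* `ProjVar.LineBundle` : line bundles `⨂ φ_s^* 𝒪(1)^{e_s}`; `LineBundle.Iso`,
  `LineBundle.IsVeryAmple`, `LineBundle.IsAmple`, `LineBundle.inter` (the number `L · C`).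
* `LineBundle.seshadri`, `seshadriAt`, `globalSeshadri` : the Seshadri constants `ε(L, a)`,
  `ε(X, a)` and `ε(X)`, as infima in `[-∞, ∞]`.
-/

open MvPolynomial

namespace Seshadri

/-- A projective variety over `k` in the projective space with homogeneous coordinates indexed by
`ι`: `K` is its function field and `gen` the vector of homogeneous coordinates of its generic
point. The homogeneous ideal of the variety is generated by the homogeneous `F` with
`F(gen) = 0`. -/
structure ProjVar (k : Type) [Field k] (ι : Type) where
  /-- the function field -/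
  K : Type
  [field : Field K]
  [algebra : Algebra k K]
  /-- homogeneous coordinates of the generic point -/
  gen : ι → K
  gen_ne_zero : gen ≠ 0
  /-- every element of `K` is a quotient of homogeneous forms of the same degree -/
  gen_span : ∀ u : K, ∃ (d : ℕ) (F G : MvPolynomial ι k), F.IsHomogeneous d ∧
    G.IsHomogeneous d ∧ aeval gen G ≠ 0 ∧ u * aeval gen G = aeval gen F

attribute [instance] ProjVar.field ProjVar.algebra

/-- `w` is a specialisation of `v`: every homogeneous equation over `k` satisfied by `v` is
satisfied by `w`. (If `v` is the generic point of a projective variety, `w ≠ 0` is a point of this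
variety with values in the field `B`.) -/
def IsSpec (k : Type) [Field k] {ι A B : Type} [Field A] [Field B] [Algebra k A] [Algebra k B]
    (v : ι → A) (w : ι → B) : Prop :=
  ∀ (d : ℕ) (F : MvPolynomial ι k), F.IsHomogeneous d → aeval v F = 0 → aeval w F = 0

namespace ProjVar

variable {k : Type} [Field k] {ι : Type} (X : ProjVar k ι)

/-- Closed points of `X` (with a chosen vector of homogeneous coordinates). -/
structure Point where
  coord : ι → k
  ne_zero : coord ≠ 0
  mem : IsSpec k X.gen coord

/-- The rational function `u` on `X` is defined at the point with homogeneous coordinates `v`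
(coordinates in some field `A ⊇ k`) and has the value `t ∈ A` there. -/
def Value {A : Type} [Field A] [Algebra k A] (v : ι → A) (u : X.K) (t : A) : Prop :=
  ∃ (d : ℕ) (F G : MvPolynomial ι k), F.IsHomogeneous d ∧ G.IsHomogeneous d ∧ aeval v G ≠ 0 ∧
    u * aeval X.gen G = aeval X.gen F ∧ t * aeval v G = aeval v F

/-- The rational function `u` is regular at the closed point `a`. -/
def Regular (a : X.Point) (u : X.K) : Prop := ∃ t : k, X.Value a.coord u t

/-- The rational function `u` is regular and non-zero at the closed point `a`. -/
def UnitAt (a : X.Point) (u : X.K) : Prop := ∃ t : k, t ≠ 0 ∧ X.Value a.coord u t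

/-- The rational function `u` is of the form `F(gen)/G(gen)` with `F, G` homogeneous of the same
degree, `G(a) ≠ 0` and `F(w) = 0`, where `w` is a vector of homogeneous coordinates in some field
`A ⊇ k`. -/
def Vanishes (a : X.Point) {A : Type} [Field A] [Algebra k A] (w : ι → A) (u : X.K) : Prop :=
  ∃ (d : ℕ) (F G : MvPolynomial ι k), F.IsHomogeneous d ∧ G.IsHomogeneous d ∧
    aeval a.coord G ≠ 0 ∧ u * aeval X.gen G = aeval X.gen F ∧ aeval w F = 0

/-- The rational function `u` lies in the `m`-th power of the maximal ideal of the local ring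
`𝒪_{X,a}`: it is a sum of products of a regular function with `m` regular functions which vanish
at `a`. -/
def MaxPow (a : X.Point) (m : ℕ) (u : X.K) : Prop :=
  ∃ (r : ℕ) (c : Fin r → X.K) (v : Fin r → Fin m → X.K), (∀ i, X.Regular a (c i)) ∧
    (∀ i j, X.Vanishes a a.coord (v i j)) ∧ u = ∑ i, c i * ∏ j, v i j

/-- `X` is a smooth surface: the function field has transcendence degree two and the maximal ideal
of the local ring of every closed point is generated by two elements (so all these
two-dimensional local rings are regular; over the algebraically closed field `k` this is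
smoothness). -/
structure SmoothSurface : Prop where
  dim : Algebra.trdeg k X.K = 2
  smooth : ∀ a : X.Point, ∃ s t : X.K, X.Vanishes a a.coord s ∧ X.Vanishes a a.coord t ∧
    ∀ u : X.K, X.Vanishes a a.coord u → ∃ c d : X.K, X.Regular a c ∧ X.Regular a d ∧
      u = c * s + d * t

/-- A (reduced, irreducible) curve contained in `X`. -/
structure Curve where
  toVar : ProjVar k ι
  dim : Algebra.trdeg k toVar.K = 1
  sub : IsSpec k X.gen toVar.gen

variable {X} in
/-- The curve `C` passes through the closed point `a` of `X`. -/
def Curve.PassesThrough (C : X.Curve) (a : X.Point) : Prop := IsSpec k C.toVar.gen a.coord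

variable {X} in
/-- The multiplicity of the curve `C ⊆ X` at the closed point `a ∈ X`: the largest `m` such that
the ideal of `C` in the local ring `𝒪_{X,a}` is contained in the `m`-th power of the maximal
ideal. (On a smooth surface the ideal of `C` is principal and this is the order of vanishing of a
local equation.) -/
noncomputable def Curve.multiplicity (C : X.Curve) (a : X.Point) : ℕ∞ :=
  ⨆ (m : ℕ) (_ : ∀ u : X.K, X.Vanishes a C.toVar.gen u → X.MaxPow a m u), (m : ℕ∞)

end ProjVar

/-- A place of the field extension `κ/k`: a normalised discrete valuation of `κ` that is trivial on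
`k` (the value at `0` is irrelevant and set to be `0`). If `κ` is the function field of a curve
over `k`, the places are the closed points of its smooth projective model. -/
@[ext]
structure Place (k κ : Type) [Field k] [Field κ] [Algebra k κ] where
  ord : κ → ℤ
  ord_zero : ord 0 = 0
  ord_mul : ∀ x y : κ, x ≠ 0 → y ≠ 0 → ord (x * y) = ord x + ord y
  ord_add : ∀ x y : κ, x ≠ 0 → y ≠ 0 → x + y ≠ 0 → min (ord x) (ord y) ≤ ord (x + y)
  ord_algebraMap : ∀ c : k, ord (algebraMap k κ c) = 0
  exists_ord_eq_one : ∃ t : κ, ord t = 1

namespace ProjVar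

variable {k : Type} [Field k] {ι : Type} (X : ProjVar k ι)

/-- The index `i` is such that all the `φ_j / φ_i` are regular at `a`; equivalently, `φ_i`
generates the fractional ideal of `𝒪_{X,a}` generated by all the `φ_j`. -/
def IsGen {n : ℕ} (φ : Fin n → X.K) (a : X.Point) (i : Fin n) : Prop :=
  φ i ≠ 0 ∧ ∀ j, X.Regular a (φ j / φ i)

/-- `φ = (φ_0 : ... : φ_{n-1})` defines a morphism `X → ℙ^{n-1}`. -/
def IsMorphism {n : ℕ} (φ : Fin n → X.K) : Prop := ∀ a : X.Point, ∃ i, X.IsGen φ a i

/-- `t` represents the restriction of `φ` to the curve `C` (normalised by `t i = 1`). -/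
def Restricts {n : ℕ} (φ : Fin n → X.K) (C : X.Curve) (i : Fin n) (t : Fin n → C.toVar.K) :
    Prop :=
  φ i ≠ 0 ∧ ∀ j, X.Value C.toVar.gen (φ j / φ i) (t j)

/-- The degree of `φ^* 𝒪(1)` on (the normalisation of) the curve `C`: the sum over all places `v`
of the function field of `C` of `- min_j ord_v (φ_j|_C)`, where the restriction of `φ` to `C` is
scaled such that one of its coordinates is `1`. -/
noncomputable def pullDeg {n : ℕ} (φ : Fin n → X.K) (C : X.Curve) : ℕ := by
  classical exact
  if h : ∃ i, ∃ t : Fin n → C.toVar.K, X.Restricts φ C i t then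
    ∑ᶠ v : Place k C.toVar.K,
      Finset.univ.sup (fun j => (-(v.ord (h.choose_spec.choose j))).toNat)
  else 0

/-- `φ : X → ℙ^{n-1}` is a closed embedding: for every closed point `a` the local ring of `X` at
`a` equals the local ring of the image of `φ` at `φ(a)`. -/
def IsEmbedding {n : ℕ} (φ : Fin n → X.K) : Prop :=
  X.IsMorphism φ ∧ ∀ (a : X.Point) (i : Fin n), X.IsGen φ a i → ∀ u : X.K, X.Regular a u →
    ∃ (d : ℕ) (F G : MvPolynomial (Fin n) k), F.IsHomogeneous d ∧ G.IsHomogeneous d ∧
      X.UnitAt a (aeval φ G / φ i ^ d) ∧ u * aeval φ G = aeval φ F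

/-- A line bundle `⨂_s φ_s^* 𝒪(1)^{⊗ e_s}` on `X`, where the `φ_s` are morphisms to projective
spaces and the `e_s` integers. (On a projective variety every line bundle is of this form, even
with two very ample `φ_1, φ_2` and `e = (1, -1)`.) -/
structure LineBundle where
  r : ℕ
  e : Fin r → ℤ
  n : Fin r → ℕ
  φ : ∀ s : Fin r, Fin (n s) → X.K
  isMorphism : ∀ s, X.IsMorphism (φ s)

namespace LineBundle

variable {X}

/-- `g ∈ K` generates the stalk at `a` of the line bundle `L`, viewed as a subsheaf of the constant
sheaf `K`; here `φ^* 𝒪(1)` is the subsheaf generated by the `φ_j`. -/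
def IsGenAt (L : X.LineBundle) (a : X.Point) (g : X.K) : Prop :=
  ∃ j : ∀ s : Fin L.r, Fin (L.n s), (∀ s, X.IsGen (L.φ s) a (j s)) ∧
    g = ∏ s, L.φ s (j s) ^ (L.e s)

/-- Two line bundles are isomorphic: the two invertible subsheaves of `K` differ by multiplication
by a non-zero rational function. -/
def Iso (L M : X.LineBundle) : Prop :=
  ∃ h : X.K, h ≠ 0 ∧ ∀ (a : X.Point) (g g' : X.K), L.IsGenAt a g → M.IsGenAt a g' →
    X.UnitAt a (h * g / g')

/-- The tensor power `L^{⊗ m}`. -/
def pow (L : X.LineBundle) (m : ℤ) : X.LineBundle where
  r := L.r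
  e := fun s => m * L.e s
  n := L.n
  φ := L.φ
  isMorphism := L.isMorphism

/-- The line bundle `φ^* 𝒪(1)`. -/
def ofMorphism {n : ℕ} (φ : Fin n → X.K) (h : X.IsMorphism φ) : X.LineBundle where
  r := 1
  e := fun _ => 1
  n := fun _ => n
  φ := fun _ => φ
  isMorphism := fun _ => h

/-- `L` is very ample: isomorphic to the pull back of `𝒪(1)` under a closed embedding. -/
def IsVeryAmple (L : X.LineBundle) : Prop :=
  ∃ (n : ℕ) (φ : Fin n → X.K) (h : X.IsEmbedding φ), L.Iso (ofMorphism φ h.1)

/-- `L` is ample: some positive tensor power is very ample. -/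
def IsAmple (L : X.LineBundle) : Prop := ∃ m : ℤ, 0 < m ∧ (L.pow m).IsVeryAmple

/-- The intersection number `L · C`, the degree of `L` on the curve `C`. -/
noncomputable def inter (L : X.LineBundle) (C : X.Curve) : ℤ :=
  ∑ s, L.e s * (X.pullDeg (L.φ s) C : ℤ)

end LineBundle

variable {X} in
/-- The Seshadri constant `ε(L, a) = inf_{C ∋ a} (L · C) / mult_a C` of the line bundle `L` at the
closed point `a`; the infimum is over all irreducible curves `C ⊆ X` through `a`. -/
noncomputable def LineBundle.seshadri (L : X.LineBundle) (a : X.Point) : EReal :=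
  ⨅ (C : X.Curve) (_ : C.PassesThrough a),
    ((L.inter C : ℝ) : EReal) / (((C.multiplicity a : ℕ∞) : ENNReal) : EReal)

/-- `ε(X, a)`: the infimum of the `ε(L, a)` over all ample line bundles `L` on `X`. -/
noncomputable def seshadriAt (a : X.Point) : EReal :=
  ⨅ (L : X.LineBundle) (_ : L.IsAmple), L.seshadri a

/-- The global Seshadri constant `ε(X)`: the infimum of the `ε(L, a)` over all ample line bundles
`L` on `X` and all closed points `a` of `X`. -/
noncomputable def globalSeshadri : EReal :=
  ⨅ (L : X.LineBundle) (_ : L.IsAmple) (a : X.Point), L.seshadri a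

end ProjVar

end Seshadri
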