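import Mathlib
import Pool.Agent.Helper36.Ses.Public

/-!
# Local rings and their ideals

The definitions of `Pool.Agent.Helper36.Ses.Public` in terms of subalgebras and ideals.
-/

open MvPolynomial

namespace Seshadri

namespace ProjVar

variable {k : Type} [Field k] {ι : Type} (X : ProjVar k ι)

lemma Regular.mul {a : X.Point} {u u' : X.K} (h : X.Regular a u) (h' : X.Regular a u') :
    X.Regular a (u * u') := by
  obtain ⟨t, d, F, G, hF, hG, h0, h1, h2⟩ := h
  obtain ⟨t', d', F', G', hF', hG', h0', h1', h2'⟩ := h'
  refine ⟨t * t', d + d', F * F', G * G', hF.mul hF', hG.mul hG', ?_, ?_, ?_⟩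
  · rw [map_mul]; exact mul_ne_zero h0 h0'
  · rw [map_mul, map_mul, ← h1, ← h1']; ring
  · rw [map_mul, map_mul, ← h2, ← h2']; ring

lemma Regular.add {a : X.Point} {u u' : X.K} (h : X.Regular a u) (h' : X.Regular a u') :
    X.Regular a (u + u') := by
  obtain ⟨t, d, F, G, hF, hG, h0, h1, h2⟩ := h
  obtain ⟨t', d', F', G', hF', hG', h0', h1', h2'⟩ := h'
  refine ⟨t + t', d + d', F * G' + G * F', G * G', (hF.mul hG').add (hG.mul hF'),
    hG.mul hG', ?_, ?_, ?_⟩
  · rw [map_mul]; exact mul_ne_zero h0 h0'
  · rw [map_mul, map_add, map_mul, map_mul, ← h1, ← h1']; ring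
  · rw [map_mul, map_add, map_mul, map_mul, ← h2, ← h2']; ring

lemma regular_algebraMap (a : X.Point) (c : k) : X.Regular a (algebraMap k X.K c) := by
  refine ⟨c, 0, C c, 1, isHomogeneous_C _ _, isHomogeneous_one _ _, ?_, ?_, ?_⟩ <;> simp

/-- The local ring `𝒪_{X,a}` of the closed point `a`, as a subring of the function field. -/
def localRing (a : X.Point) : Subalgebra k X.K where
  carrier := {u | X.Regular a u}
  mul_mem' := Regular.mul X
  add_mem' := Regular.add X
  algebraMap_mem' := X.regular_algebraMap a

lemma vanishes_zero (a : X.Point) {A : Type} [Field A] [Algebra k A] (w : ι → A) :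
    X.Vanishes a w 0 := by
  refine ⟨0, 0, 1, isHomogeneous_zero _ _ _, isHomogeneous_one _ _, ?_, ?_, ?_⟩ <;> simp

lemma Vanishes.add {a : X.Point} {A : Type} [Field A] [Algebra k A] {w : ι → A} {u u' : X.K}
    (h : X.Vanishes a w u) (h' : X.Vanishes a w u') : X.Vanishes a w (u + u') := by
  obtain ⟨d, F, G, hF, hG, h0, h1, h2⟩ := h
  obtain ⟨d', F', G', hF', hG', h0', h1', h2'⟩ := h'
  refine ⟨d + d', F * G' + G * F', G * G', (hF.mul hG').add (hG.mul hF'),
    hG.mul hG', ?_, ?_, ?_⟩
  · rw [map_mul]; exact mul_ne_zero h0 h0'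
  · rw [map_mul, map_add, map_mul, map_mul, ← h1, ← h1']; ring
  · rw [map_add, map_mul, map_mul, h2, h2']; ring

lemma Vanishes.mul {a : X.Point} {A : Type} [Field A] [Algebra k A] {w : ι → A} {c u : X.K}
    (hc : X.Regular a c) (h : X.Vanishes a w u) : X.Vanishes a w (c * u) := by
  obtain ⟨t, d, F, G, hF, hG, h0, h1, -⟩ := hc
  obtain ⟨d', F', G', hF', hG', h0', h1', h2'⟩ := h
  refine ⟨d + d', F * F', G * G', hF.mul hF', hG.mul hG', ?_, ?_, ?_⟩
  · rw [map_mul]; exact mul_ne_zero h0 h0'
  · rw [map_mul, map_mul, ← h1, ← h1']; ring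
  · rw [map_mul, h2', mul_zero]

/-- The ideal of the local ring at `a` of all `F(gen)/G(gen)` such that `F, G` are homogeneous of
the same degree, `G(a) ≠ 0` and `F(w) = 0`, where `w` is a vector of homogeneous coordinates in
some field `A ⊇ k`. For `w = a` it is the maximal ideal; for `w` the generic point of a
subvariety it is the ideal of (the germ at `a` of) this subvariety. -/
def idealOf (a : X.Point) {A : Type} [Field A] [Algebra k A] (w : ι → A) :
    Ideal (X.localRing a) where
  carrier := {u | X.Vanishes a w u}
  add_mem' := Vanishes.add X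
  zero_mem' := X.vanishes_zero a w
  smul_mem' c _ h := Vanishes.mul X c.2 h

/-- The maximal ideal of the local ring at the closed point `a`. -/
def maxIdeal (a : X.Point) : Ideal (X.localRing a) := X.idealOf a a.coord

/-- `X` is a smooth surface: the function field has transcendence degree two and the maximal ideal
of every closed point is generated by two elements (so all these two-dimensional local rings are
regular; over the algebraically closed field `k` this is smoothness). -/
structure IsSmoothSurface : Prop where
  dim : Algebra.trdeg k X.K = 2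
  smooth : ∀ a : X.Point, ∃ s t : X.localRing a, X.maxIdeal a = Ideal.span {s, t}

variable {X} in
/-- The multiplicity of the curve `C ⊆ X` at the closed point `a ∈ X`: the largest `m` such that
the ideal of `C` in the local ring `𝒪_{X,a}` is contained in the `m`-th power of the maximal
ideal. (On a smooth surface the ideal of `C` is principal and this is the order of vanishing of a
local equation.) -/
noncomputable def Curve.mult (C : X.Curve) (a : X.Point) : ℕ∞ :=
  ⨆ (m : ℕ) (_ : X.idealOf a C.toVar.gen ≤ X.maxIdeal a ^ m), (m : ℕ∞)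

end ProjVar

end Seshadri
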