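import Mathlib

/-!
# The elliptic curve `y² = x³ + 1` over fields of characteristic 7
-/

namespace Seshadri

section

variable (K : Type) [Field K]

/-- The curve `y² = x³ + 1`. -/
def EC : WeierstrassCurve.Affine K := ⟨0, 0, 0, 0, 1⟩

@[simp] lemma EC_a₁ : (EC K).a₁ = 0 := rfl
@[simp] lemma EC_a₂ : (EC K).a₂ = 0 := rfl
@[simp] lemma EC_a₃ : (EC K).a₃ = 0 := rfl
@[simp] lemma EC_a₄ : (EC K).a₄ = 0 := rfl
@[simp] lemma EC_a₆ : (EC K).a₆ = 1 := rfl

/-- The points of `y² = x³ + 1` with coordinates in `K`. -/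
def Pt : Type := (EC K).Point

noncomputable instance : AddCommGroup (Pt K) :=
  letI := Classical.decEq K
  inferInstanceAs (AddCommGroup (EC K).Point)

end

variable {K : Type} [Field K]

lemma EC_equation {x y : K} : (EC K).Equation x y ↔ y ^ 2 = x ^ 3 + 1 := by
  rw [WeierstrassCurve.Affine.equation_iff]
  simp

lemma seven_eq_zero [CharP K 7] : (7 : K) = 0 := by
  have := CharP.cast_eq_zero K 7
  exact_mod_cast this

lemma natCast_ne_zero [CharP K 7] {n : ℕ} (h : ¬ 7 ∣ n) : (n : K) ≠ 0 := by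
  intro h'
  exact h ((CharP.cast_eq_zero_iff K 7 n).1 h')

lemma two_ne [CharP K 7] : (2 : K) ≠ 0 := by
  have := natCast_ne_zero (K := K) (n := 2) (by norm_num)
  exact_mod_cast this

lemma three_ne [CharP K 7] : (3 : K) ≠ 0 := by
  have := natCast_ne_zero (K := K) (n := 3) (by norm_num)
  exact_mod_cast this

lemma EC_nonsingular [CharP K 7] {x y : K} (h : y ^ 2 = x ^ 3 + 1) :
    (EC K).Nonsingular x y := by
  rw [WeierstrassCurve.Affine.nonsingular_iff]
  refine ⟨EC_equation.2 h, ?_⟩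
  by_cases hx : x = 0
  · right
    simp only [EC_a₁, EC_a₃]
    intro h'
    have h2 : (2 : K) * y = 0 := by linear_combination h'
    have hy : y = 0 := (mul_eq_zero.1 h2).resolve_left two_ne
    rw [hx, hy] at h
    norm_num at h
  · left
    simp only [EC_a₁, EC_a₂, EC_a₄]
    intro h'
    have h2 : (3 : K) * x ^ 2 = 0 := by linear_combination -h'
    exact hx (pow_eq_zero_iff (two_ne_zero)|>.1 ((mul_eq_zero.1 h2).resolve_left three_ne))

namespace Pt

/-- The affine point `(x, y)`. -/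
def mk [CharP K 7] (x y : K) (h : y ^ 2 = x ^ 3 + 1) : Pt K :=
  WeierstrassCurve.Affine.Point.some x y (EC_nonsingular h)

variable [CharP K 7]

lemma cases (P : Pt K) : P = 0 ∨ ∃ x y h, P = mk x y h := by
  match P with
  | WeierstrassCurve.Affine.Point.zero => exact Or.inl rfl
  | WeierstrassCurve.Affine.Point.some x y h =>
    exact Or.inr ⟨x, y, EC_equation.1 h.1, rfl⟩

lemma mk_ne_zero {x y : K} (h : y ^ 2 = x ^ 3 + 1) : mk x y h ≠ 0 :=
  WeierstrassCurve.Affine.Point.some_ne_zero _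

lemma mk_inj {x y x' y' : K} {h : y ^ 2 = x ^ 3 + 1} {h' : y' ^ 2 = x' ^ 3 + 1} :
    mk x y h = mk x' y' h' ↔ x = x' ∧ y = y' := by
  constructor
  · intro e
    have := WeierstrassCurve.Affine.Point.some.inj e
    exact this
  · rintro ⟨rfl, rfl⟩
    rfl

lemma mk_congr {x y x' y' : K} {h : y ^ 2 = x ^ 3 + 1} {h' : y' ^ 2 = x' ^ 3 + 1}
    (hx : x = x') (hy : y = y') : mk x y h = mk x' y' h' := mk_inj.2 ⟨hx, hy⟩

lemma neg_mk {x y : K} (h : y ^ 2 = x ^ 3 + 1) (h' : (-y) ^ 2 = x ^ 3 + 1) :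
    -mk x y h = mk x (-y) h' := by
  have h0 : -mk x y h = WeierstrassCurve.Affine.Point.some x ((EC K).negY x y)
    ((WeierstrassCurve.Affine.nonsingular_neg ..).mpr (EC_nonsingular h)) := rfl
  rw [h0]
  have hy : (EC K).negY x y = -y := by simp [WeierstrassCurve.Affine.negY]
  unfold mk
  congr 1

omit [CharP K 7] in
lemma third_eq {x₁ y₁ x₂ y₂ l : K} (h₁ : y₁ ^ 2 = x₁ ^ 3 + 1)
    (hl1 : l * (x₁ - x₂) = y₁ - y₂) (hl2 : l * (y₁ + y₂) = x₁ ^ 2 + x₁ * x₂ + x₂ ^ 2) :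
    (-(l * (l ^ 2 - x₁ - x₂ - x₁) + y₁)) ^ 2 = (l ^ 2 - x₁ - x₂) ^ 3 + 1 := by
  have e : y₂ = y₁ - l * (x₁ - x₂) := by linear_combination hl1
  subst e
  linear_combination h₁ + (l ^ 2 - 2 * x₁ - x₂) * hl2

omit [CharP K 7] in
lemma exists_slope [CharP K 7] {x₁ y₁ x₂ y₂ : K} (h₁ : y₁ ^ 2 = x₁ ^ 3 + 1)
    (h₂ : y₂ ^ 2 = x₂ ^ 3 + 1) (hne : ¬(x₁ = x₂ ∧ y₁ = -y₂)) :
    ∃ l, l * (x₁ - x₂) = y₁ - y₂ ∧ l * (y₁ + y₂) = x₁ ^ 2 + x₁ * x₂ + x₂ ^ 2 := by
  by_cases hx : x₁ = x₂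
  · have hy : y₁ + y₂ ≠ 0 := fun h => hne ⟨hx, by linear_combination h⟩
    refine ⟨(x₁ ^ 2 + x₁ * x₂ + x₂ ^ 2) / (y₁ + y₂), ?_, by field_simp⟩
    subst hx
    have : (y₁ - y₂) * (y₁ + y₂) = 0 := by linear_combination h₁ - h₂
    rw [(mul_eq_zero.1 this).resolve_right hy]
    ring
  · have hx' : x₁ - x₂ ≠ 0 := sub_ne_zero.2 hx
    refine ⟨(y₁ - y₂) / (x₁ - x₂), by field_simp, ?_⟩
    field_simp
    linear_combination h₁ - h₂

lemma mk_add_mk {x₁ y₁ x₂ y₂ l : K} (h₁ : y₁ ^ 2 = x₁ ^ 3 + 1) (h₂ : y₂ ^ 2 = x₂ ^ 3 + 1)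
    (hne : ¬(x₁ = x₂ ∧ y₁ = -y₂)) (hl1 : l * (x₁ - x₂) = y₁ - y₂)
    (hl2 : l * (y₁ + y₂) = x₁ ^ 2 + x₁ * x₂ + x₂ ^ 2) :
    mk x₁ y₁ h₁ + mk x₂ y₂ h₂ =
      mk (l ^ 2 - x₁ - x₂) (-(l * (l ^ 2 - x₁ - x₂ - x₁) + y₁)) (third_eq h₁ hl1 hl2) := by
  classical
  have hne' : ¬(x₁ = x₂ ∧ y₁ = (EC K).negY x₂ y₂) := by
    simpa [WeierstrassCurve.Affine.negY] using hne
  have key : @HAdd.hAdd _ _ _ (@instHAdd (EC K).Point (@WeierstrassCurve.Affine.Point.instAdd _ _ _
      (Classical.decEq K))) (WeierstrassCurve.Affine.Point.some x₁ y₁ (EC_nonsingular h₁))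
      (WeierstrassCurve.Affine.Point.some x₂ y₂ (EC_nonsingular h₂)) = _ :=
    @WeierstrassCurve.Affine.Point.add_some K _ (EC K) (Classical.decEq K) x₁ x₂ y₁ y₂ hne'
      (EC_nonsingular h₁) (EC_nonsingular h₂)
  refine key.trans ?_
  have hl : @WeierstrassCurve.Affine.slope K _ (EC K) (Classical.decEq K) x₁ x₂ y₁ y₂ = l := by
    by_cases hx : x₁ = x₂
    · have hy : y₁ + y₂ ≠ 0 := fun h => hne ⟨hx, by linear_combination h⟩
      rw [WeierstrassCurve.Affine.slope_of_Y_ne hx (fun h => hne' ⟨hx, h⟩)]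
      subst hx
      have e : y₁ - y₂ = 0 := by
        have : (y₁ - y₂) * (y₁ + y₂) = 0 := by linear_combination h₁ - h₂
        exact (mul_eq_zero.1 this).resolve_right hy
      have e' : y₂ = y₁ := by linear_combination -e
      subst e'
      have hy' : y₂ ≠ 0 := fun h => hy (by rw [h]; ring)
      simp only [EC_a₁, EC_a₂, EC_a₄, WeierstrassCurve.Affine.negY, EC_a₃]
      have h2 : (2 : K) ≠ 0 := two_ne
      rw [div_eq_iff (by
        intro h
        apply hy
        linear_combination h)]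
      linear_combination -hl2
    · rw [WeierstrassCurve.Affine.slope_of_X_ne hx, div_eq_iff (sub_ne_zero.2 hx)]
      linear_combination -hl1
  unfold mk
  simp only [WeierstrassCurve.Affine.addX, WeierstrassCurve.Affine.addY,
    WeierstrassCurve.Affine.negAddY, WeierstrassCurve.Affine.negY, hl]
  congr 1
  · simp
  · simp

lemma mk_add_neg {x y y' : K} (h : y ^ 2 = x ^ 3 + 1) (h' : y' ^ 2 = x ^ 3 + 1) (e : y' = -y) :
    mk x y h + mk x y' h' = 0 := by
  subst e
  rw [← neg_mk h h', add_neg_cancel]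

lemma mk_add_neg' {x y x' y' : K} (h : y ^ 2 = x ^ 3 + 1) (h' : y' ^ 2 = x' ^ 3 + 1)
    (ex : x' = x) (e : y' = -y) : mk x y h + mk x' y' h' = 0 := by
  subst ex
  exact mk_add_neg h h' e

/-- Case analysis for the sum of two points. -/
lemma add_cases (P Q : Pt K) : P = 0 ∨ Q = 0 ∨ (P ≠ 0 ∧ Q = -P) ∨
    ∃ (x₁ y₁ x₂ y₂ l : K) (h₁ : y₁ ^ 2 = x₁ ^ 3 + 1) (h₂ : y₂ ^ 2 = x₂ ^ 3 + 1)
      (_ : ¬(x₁ = x₂ ∧ y₁ = -y₂)) (hl1 : l * (x₁ - x₂) = y₁ - y₂)
      (hl2 : l * (y₁ + y₂) = x₁ ^ 2 + x₁ * x₂ + x₂ ^ 2),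
      P = mk x₁ y₁ h₁ ∧ Q = mk x₂ y₂ h₂ ∧
      P + Q = mk (l ^ 2 - x₁ - x₂) (-(l * (l ^ 2 - x₁ - x₂ - x₁) + y₁))
        (third_eq h₁ hl1 hl2) := by
  rcases cases P with rfl | ⟨x₁, y₁, h₁, rfl⟩
  · exact Or.inl rfl
  rcases cases Q with rfl | ⟨x₂, y₂, h₂, rfl⟩
  · exact Or.inr (Or.inl rfl)
  by_cases hne : x₁ = x₂ ∧ y₁ = -y₂
  · refine Or.inr (Or.inr (Or.inl ⟨mk_ne_zero _, ?_⟩))
    obtain ⟨rfl, rfl⟩ := hne
    rw [neg_mk h₁ (by rw [neg_neg]; exact h₂)]
    exact mk_congr rfl (by ring)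
  · obtain ⟨l, hl1, hl2⟩ := exists_slope h₁ h₂ hne
    exact Or.inr (Or.inr (Or.inr ⟨x₁, y₁, x₂, y₂, l, h₁, h₂, hne, hl1, hl2, rfl, rfl,
      mk_add_mk h₁ h₂ hne hl1 hl2⟩))

/-- The `x`-coordinate as a point of the projective line. -/
noncomputable def xRep (P : Pt K) : Fin 2 → K := WeierstrassCurve.Affine.Point.xRep P

omit [CharP K 7] in
@[simp] lemma xRep_zero : xRep (0 : Pt K) = ![1, 0] := rfl

@[simp] lemma xRep_mk {x y : K} (h : y ^ 2 = x ^ 3 + 1) : xRep (mk x y h) = ![x, 1] := rfl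

lemma xRep_neg (P : Pt K) : xRep (-P) = xRep P := by
  rcases cases P with rfl | ⟨x, y, h, rfl⟩
  · rw [neg_zero]
  · rw [neg_mk h (by rw [neg_sq, h])]
    simp

/-- The `x`-coordinate (`0` for the point at infinity). -/
noncomputable def xc (P : Pt K) : K := xRep P 0 * xRep P 1

omit [CharP K 7] in
@[simp] lemma xc_zero : xc (0 : Pt K) = 0 := by simp [xc]

@[simp] lemma xc_mk {x y : K} (h : y ^ 2 = x ^ 3 + 1) : xc (mk x y h) = x := by simp [xc]

/-! ### Functoriality -/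

variable {L : Type} [Field L] [CharP L 7]

/-- The image of a point under a field homomorphism. -/
noncomputable def mapFun (f : K →+* L) (P : Pt K) : Pt L :=
  match P with
  | WeierstrassCurve.Affine.Point.zero => 0
  | WeierstrassCurve.Affine.Point.some x y h =>
    mk (f x) (f y) (by rw [← map_pow, EC_equation.1 h.1, map_add, map_pow, map_one])

omit [CharP K 7] in
lemma mapFun_zero (f : K →+* L) : mapFun f 0 = 0 := rfl

lemma mapFun_mk (f : K →+* L) {x y : K} (h : y ^ 2 = x ^ 3 + 1)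
    (h' : (f y) ^ 2 = (f x) ^ 3 + 1) : mapFun f (mk x y h) = mk (f x) (f y) h' := rfl

/-- The group homomorphism on points induced by a field homomorphism. -/
noncomputable def map (f : K →+* L) : Pt K →+ Pt L where
  toFun := mapFun f
  map_zero' := rfl
  map_add' := by
    intro P Q
    rcases add_cases P Q with rfl | rfl | ⟨h, rfl⟩ | ⟨x₁, y₁, x₂, y₂, l, h₁, h₂, hne, hl1, hl2,
      rfl, rfl, e⟩
    · rw [zero_add, mapFun_zero, zero_add]
    · rw [add_zero, mapFun_zero, add_zero]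
    · obtain ⟨x, y, hxy, rfl⟩ := (cases P).resolve_left h
      rw [add_neg_cancel, neg_mk hxy (by rw [neg_sq, hxy]),
        mapFun_mk f _ (by rw [← map_pow, hxy, map_add, map_pow, map_one]),
        mapFun_mk f _ (by rw [← map_pow, neg_sq, hxy, map_add, map_pow, map_one]), mapFun_zero]
      rw [mk_add_neg]
      rw [map_neg]
    · rw [e]
      have h₁' : (f y₁) ^ 2 = (f x₁) ^ 3 + 1 := by rw [← map_pow, h₁, map_add, map_pow, map_one]
      have h₂' : (f y₂) ^ 2 = (f x₂) ^ 3 + 1 := by rw [← map_pow, h₂, map_add, map_pow, map_one]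
      have hne' : ¬(f x₁ = f x₂ ∧ f y₁ = -(f y₂)) := by
        rintro ⟨a, b⟩
        rw [← map_neg] at b
        exact hne ⟨f.injective a, f.injective b⟩
      have hl1' : f l * (f x₁ - f x₂) = f y₁ - f y₂ := by rw [← map_sub, ← map_mul, hl1, map_sub]
      have hl2' : f l * (f y₁ + f y₂) = (f x₁) ^ 2 + (f x₁) * (f x₂) + (f x₂) ^ 2 := by
        rw [← map_add, ← map_mul, hl2]; simp
      have h3 := third_eq h₁ hl1 hl2
      rw [mapFun_mk f h₁ h₁', mapFun_mk f h₂ h₂', mk_add_mk h₁' h₂' hne' hl1' hl2',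
        mapFun_mk f h3 (by rw [← map_pow, h3]; simp)]
      apply mk_congr <;> simp

lemma map_mk (f : K →+* L) {x y : K} (h : y ^ 2 = x ^ 3 + 1)
    (h' : (f y) ^ 2 = (f x) ^ 3 + 1) : map f (mk x y h) = mk (f x) (f y) h' := rfl

lemma map_mk' (f : K →+* L) {x y : K} (h : y ^ 2 = x ^ 3 + 1) :
    map f (mk x y h) = mk (f x) (f y)
      (by rw [← map_pow, h, map_add, map_pow, map_one]) := rfl

lemma xRep_map (f : K →+* L) (P : Pt K) (i : Fin 2) : xRep (map f P) i = f (xRep P i) := by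
  rcases cases P with rfl | ⟨x, y, h, rfl⟩
  · rw [map_zero]
    fin_cases i <;> simp
  · rw [map_mk']
    fin_cases i <;> simp

lemma xc_map (f : K →+* L) (P : Pt K) : xc (map f P) = f (xc P) := by
  simp [xc, xRep_map]

lemma map_injective (f : K →+* L) : Function.Injective (map f) := by
  rw [injective_iff_map_eq_zero]
  intro P hP
  rcases cases P with rfl | ⟨x, y, h, rfl⟩
  · rfl
  · rw [map_mk'] at hP
    exact absurd hP (mk_ne_zero _)

lemma map_map {M : Type} [Field M] [CharP M 7] (f : K →+* L) (g : L →+* M) (P : Pt K) :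
    map g (map f P) = map (g.comp f) P := by
  rcases cases P with rfl | ⟨x, y, h, rfl⟩
  · simp
  · rfl

/-! ### Complex multiplication -/

omit [CharP L 7] [Field L] in
lemma four_cubed : (4 : K) ^ 3 = 1 := by
  have : (7 : K) = 0 := seven_eq_zero
  linear_combination 9 * this

lemma omega_eq {x y : K} (h : y ^ 2 = x ^ 3 + 1) : y ^ 2 = (4 * x) ^ 3 + 1 := by
  rw [h, mul_pow, four_cubed, one_mul]

/-- `(x, y) ↦ (4 x, y)`. -/
noncomputable def omegaFun (P : Pt K) : Pt K :=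
  match P with
  | WeierstrassCurve.Affine.Point.zero => 0
  | WeierstrassCurve.Affine.Point.some x y h => mk (4 * x) y (omega_eq (EC_equation.1 h.1))

/-- The automorphism `ω : (x, y) ↦ (4 x, y)` of order three. -/
noncomputable def omega : Pt K →+ Pt K where
  toFun := omegaFun
  map_zero' := rfl
  map_add' := by
    have key : ∀ {x y : K} (h : y ^ 2 = x ^ 3 + 1), omegaFun (mk x y h) = mk (4 * x) y (omega_eq h) :=
      fun h => rfl
    have h0 : omegaFun (0 : Pt K) = 0 := rfl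
    have h7 : (7 : K) = 0 := seven_eq_zero
    have h4 : (4 : K) ≠ 0 := fun h => by
      have : (2 : K) * 2 = 0 := by linear_combination h
      rcases mul_eq_zero.1 this with h | h <;> exact two_ne h
    intro P Q
    rcases add_cases P Q with rfl | rfl | ⟨h, rfl⟩ | ⟨x₁, y₁, x₂, y₂, l, h₁, h₂, hne, hl1, hl2,
      rfl, rfl, e⟩
    · rw [zero_add, h0, zero_add]
    · rw [add_zero, h0, add_zero]
    · obtain ⟨x, y, hxy, rfl⟩ := (cases P).resolve_left h
      rw [add_neg_cancel, neg_mk hxy (by rw [neg_sq, hxy]), key, key, h0, mk_add_neg _ _ rfl]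
    · rw [e, key, key, key, mk_add_mk (l := 2 * l) (omega_eq h₁) (omega_eq h₂) ?_ ?_ ?_]
      · apply mk_congr
        · ring
        · linear_combination (l ^ 3 - 2 * l * x₁ - l * x₂) * h7
      · rintro ⟨a, b⟩
        exact hne ⟨mul_left_cancel₀ h4 a, b⟩
      · linear_combination hl1 + l * (x₁ - x₂) * h7
      · linear_combination 2 * hl2 - 2 * (x₁ ^ 2 + x₁ * x₂ + x₂ ^ 2) * h7

lemma omega_mk {x y : K} (h : y ^ 2 = x ^ 3 + 1) : omega (mk x y h) = mk (4 * x) y (omega_eq h) :=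
  rfl

lemma omega_rel (P : Pt K) : omega (omega P) = -P - omega P := by
  have key : omega (omega P) + omega P + P = 0 := by
    rcases cases P with rfl | ⟨x, y, h, rfl⟩
    · simp
    · have h7 : (7 : K) = 0 := seven_eq_zero
      rw [omega_mk, omega_mk, mk_add_mk (l := 0) _ _ ?_ ?_ ?_]
      · apply mk_add_neg'
        · linear_combination (3 * x) * h7
        · ring
      · rintro ⟨a, b⟩
        have hy : (2 : K) * y = 0 := by linear_combination b
        have hy : y = 0 := (mul_eq_zero.1 hy).resolve_left two_ne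
        have hx : (2 : K) * x = 0 := by linear_combination -a + 2 * x * h7
        have hx : x = 0 := (mul_eq_zero.1 hx).resolve_left two_ne
        rw [hx, hy] at h
        norm_num at h
      · ring
      · linear_combination (-48 * x ^ 2) * h7
  have : omega (omega P) = (omega (omega P) + omega P + P) - P - omega P := by abel
  rw [this, key, zero_sub]

/-! ### The ring `ℤ[ω]` -/

/-- The ring `ℤ[ω]`, `ω² + ω + 1 = 0`. -/
abbrev Zw : Type := QuadraticAlgebra ℤ (-1) (-1)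

noncomputable instance : SMul Zw (Pt K) := ⟨fun α P => α.re • P + α.im • omega P⟩

lemma zw_smul_def (α : Zw) (P : Pt K) : α • P = α.re • P + α.im • omega P := rfl

noncomputable instance : Module Zw (Pt K) where
  one_smul P := by simp [zw_smul_def, QuadraticAlgebra.re_one, QuadraticAlgebra.im_one]
  mul_smul α β P := by
    simp only [zw_smul_def, QuadraticAlgebra.re_mul, QuadraticAlgebra.im_mul, map_add, map_zsmul,
      omega_rel]
    module
  smul_zero α := by simp [zw_smul_def]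
  smul_add α P Q := by simp only [zw_smul_def, map_add]; module
  add_smul α β P := by
    simp only [zw_smul_def, QuadraticAlgebra.re_add, QuadraticAlgebra.im_add]; module
  zero_smul P := by simp [zw_smul_def]

lemma map_omega (f : K →+* L) (P : Pt K) : map f (omega P) = omega (map f P) := by
  rcases cases P with rfl | ⟨x, y, h, rfl⟩
  · simp
  · rw [omega_mk, map_mk', map_mk', omega_mk]
    exact mk_congr (by rw [_root_.map_mul, map_ofNat]) rfl

lemma map_zw_smul (f : K →+* L) (α : Zw) (P : Pt K) : map f (α • P) = α • map f P := by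
  simp only [zw_smul_def, map_add, map_zsmul, map_omega]

lemma xRep_omega_zero (P : Pt K) : P = 0 → xRep (omega P) = xRep P := by
  rintro rfl; simp

lemma xc_omega (P : Pt K) : xc (omega P) = 4 * xc P := by
  rcases cases P with rfl | ⟨x, y, h, rfl⟩
  · simp
  · rw [omega_mk, xc_mk, xc_mk]

/-! ### Frobenius -/

/-- Frobenius as an element of `ℤ[ω]`. -/
def Fr : Zw := ⟨-1, 2⟩

/-- Verschiebung. -/
def Ve : Zw := ⟨-3, -2⟩

lemma Fr_mul_Ve : Fr * Ve = 7 := by
  decide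

/-- The Frobenius relation `F = 2 ω - 1` for points with coordinates not in `𝔽₇`. -/
lemma frob_mk {x y : K} (h : y ^ 2 = x ^ 3 + 1) (hx : x ^ 7 ≠ x)
    (h' : (y ^ 7) ^ 2 = (x ^ 7) ^ 3 + 1) :
    mk (x ^ 7) (y ^ 7) h' = Fr • mk x y h := by
  have h7 : (7 : K) = 0 := seven_eq_zero
  have hy : y ≠ 0 := by
    intro hy
    apply hx
    rw [hy] at h
    have : x ^ 3 = -1 := by linear_combination -h
    calc x ^ 7 = (x ^ 3) ^ 2 * x := by ring
      _ = x := by rw [this]; ring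
  have h2 : (2 : K) ≠ 0 := two_ne
  have e10 : y ^ 10 = (x ^ 3 + 1) ^ 5 := by rw [← h]; ring
  have e6 : y ^ 6 = (x ^ 3 + 1) ^ 3 := by rw [← h]; ring
  have e4 : y ^ 4 = (x ^ 3 + 1) ^ 2 := by rw [← h]; ring
  have key : mk (x ^ 7) (y ^ 7) h' + mk x y h = omega (mk x y h) + omega (mk x y h) := by
    rw [mk_add_mk (l := x ^ 2 * (x ^ 3 + 4) / y) h' h (fun hh => hx hh.1) ?_ ?_,
      omega_mk, mk_add_mk (l := 3 * x ^ 2 / y) _ _ ?_ ?_ ?_]
    · apply mk_congr
      · field_simp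
        linear_combination x * (7 - x ^ 6) * h + x * (x ^ 3 + 1) ^ 2 * h7
      · field_simp
        rw [e10, e4, h]
        linear_combination (-(x ^ 12 + 7 * x ^ 9 + 11 * x ^ 6 + 5 * x ^ 3)) * h7
    · rintro ⟨-, b⟩
      apply hy
      have : (2 : K) * y = 0 := by linear_combination b
      exact (mul_eq_zero.1 this).resolve_left h2
    · ring
    · field_simp
      linear_combination (-6 * x ^ 2) * h7
    · field_simp
      rw [e6, h]
      linear_combination (-(x ^ 3 * (x ^ 3 + 1))) * h7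
    · field_simp
      rw [e6]
      linear_combination x ^ 2 * (x ^ 9 + 2 * x ^ 6 + 2 * x ^ 3 + 1) * h7
  rw [zw_smul_def]
  simp only [Fr]
  have e : mk (x ^ 7) (y ^ 7) h' = (omega (mk x y h) + omega (mk x y h)) - mk x y h := by
    rw [← key]; abel
  rw [e]
  module

end Pt

end Seshadri
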