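import Mathlib
import Pool.Agent.Helper36.Ses.Defs
import Pool.Agent.Helper36.Ses.EC

/-!
# Common definitions shared by the parts of the proof
-/

namespace Seshadri

/-- `κ/k` is the function field of a curve: finitely generated of transcendence degree one. -/
structure IsCurveField (k κ : Type) [Field k] [Field κ] [Algebra k κ] : Prop where
  trdeg : Algebra.trdeg k κ = 1
  fg : ∃ S : Finset κ, IntermediateField.adjoin k (S : Set κ) = ⊤

/-- standard homogeneous coordinates of a point of `y² z = x³ + z³` -/
noncomputable def Pt.vec {K : Type} [Field K] (P : Pt K) : Fin 3 → K :=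
  match P with
  | WeierstrassCurve.Affine.Point.zero => ![0, 1, 0]
  | WeierstrassCurve.Affine.Point.some x y _ => ![x, y, 1]

/-- `v` is a vector of homogeneous coordinates of `P` -/
def Rep {K : Type} [Field K] (v : Fin 3 → K) (P : Pt K) : Prop :=
  ∃ s : K, s ≠ 0 ∧ v = s • P.vec

/-- A generic point of `E × B`, `E : y² = x³ + 1`, `B : w² = z⁶ + 1`. -/
structure GenPt (k : Type) [Field k] where
  K : Type
  [field : Field K]
  [algebra : Algebra k K]
  x : K
  y : K
  z : K
  w : K
  hE : y ^ 2 = x ^ 3 + 1
  hB : w ^ 2 = z ^ 6 + 1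
  adjoin_eq_top : IntermediateField.adjoin k {x, y, z, w} = ⊤
  trdeg : Algebra.trdeg k K = 2
  /-- every solution of the two equations is a specialisation -/
  spec : ∀ (A : Type) [Field A] [Algebra k A] (x' y' z' w' : A), y' ^ 2 = x' ^ 3 + 1 →
    w' ^ 2 = z' ^ 6 + 1 → ∀ P : MvPolynomial (Fin 4) k,
      MvPolynomial.aeval ![x, y, z, w] P = 0 → MvPolynomial.aeval ![x', y', z', w'] P = 0

attribute [instance] GenPt.field GenPt.algebra

/-- The Segre embedding on coordinate vectors. -/
def segre {A : Type} [Mul A] (e : Fin 3 → A) (b : Fin 5 → A) : Fin 3 × Fin 5 → A :=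
  fun p => e p.1 * b p.2

/-- coordinates of the point `(O, (0,1))` of `E × B ⊆ ℙ¹⁴` -/
def originCoord (k : Type) [Field k] : Fin 3 × Fin 5 → k := segre ![0, 0, 1] ![1, 0, 0, 0, 1]

end Seshadri
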