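import Mathlib
import Pool.Agent.Helper36.Ses.EC

/-!
# The parallelogram law, locally
-/

namespace Seshadri

open Pt

variable {K : Type} [Field K]

/-- `c` is a unit of the subring `O`. -/
def IsU (O : Subring K) (c : K) : Prop := c ≠ 0 ∧ c ∈ O ∧ c⁻¹ ∈ O

lemma IsU.mul {O : Subring K} {a b : K} (ha : IsU O a) (hb : IsU O b) : IsU O (a * b) :=
  ⟨mul_ne_zero ha.1 hb.1, O.mul_mem ha.2.1 hb.2.1, by
    rw [mul_inv]; exact O.mul_mem ha.2.2 hb.2.2⟩

lemma IsU.inv {O : Subring K} {a : K} (ha : IsU O a) : IsU O a⁻¹ :=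
  ⟨inv_ne_zero ha.1, ha.2.2, by rw [inv_inv]; exact ha.2.1⟩

lemma IsU.one {O : Subring K} : IsU O (1 : K) := ⟨one_ne_zero, O.one_mem, by simp [O.one_mem]⟩

lemma IsU.div {O : Subring K} {a b : K} (ha : IsU O a) (hb : IsU O b) : IsU O (a / b) := by
  rw [div_eq_mul_inv]; exact ha.mul hb.inv

lemma IsU.pow {O : Subring K} {a : K} (ha : IsU O a) (n : ℕ) : IsU O (a ^ n) := by
  induction n with
  | zero => rw [pow_zero]; exact IsU.one
  | succ n ih => rw [pow_succ]; exact ih.mul ha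

lemma IsU.neg {O : Subring K} {a : K} (ha : IsU O a) : IsU O (-a) :=
  ⟨neg_ne_zero.2 ha.1, O.neg_mem ha.2.1, by rw [inv_neg]; exact O.neg_mem ha.2.2⟩

/-- `g` generates the fractional ideal generated by the entries of `v`. -/
def GenOf {ι : Type} (O : Subring K) (v : ι → K) (g : K) : Prop :=
  g ≠ 0 ∧ (∀ i, v i / g ∈ O) ∧ ∃ i, IsU O (v i / g)

lemma GenOf.isU {ι : Type} {O : Subring K} {v : ι → K} {g g' : K} (h : GenOf O v g)
    (h' : GenOf O v g') : IsU O (g / g') := by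
  obtain ⟨h1, h2, i, h3⟩ := h
  obtain ⟨h1', h2', i', h3'⟩ := h'
  have key : ∀ {a b : K} {j : ι}, a ≠ 0 → b ≠ 0 → (∀ i, v i / b ∈ O) → IsU O (v j / a) →
      a / b ∈ O := by
    intro a b j ha hb h4 h5
    have hv : v j ≠ 0 := by
      intro h; apply h5.1; rw [h, zero_div]
    have : a / b = (v j / b) * (v j / a)⁻¹ := by field_simp
    rw [this]
    exact O.mul_mem (h4 j) h5.2.2
  refine ⟨div_ne_zero h1 h1', key h1 h1' h2' h3, ?_⟩
  rw [inv_div]
  exact key h1' h1 h2 h3'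

/-- Residue criterion: over a local ring, `v / g` is primitive iff it is non-zero modulo the
maximal ideal. -/
lemma isU_iff_residue {O : Subring K} [IsLocalRing O] (x : O) :
    IsU O (x : K) ↔ IsLocalRing.residue O x ≠ 0 := by
  rw [IsLocalRing.residue_ne_zero_iff_isUnit]
  constructor
  · rintro ⟨h1, -, h3⟩
    refine IsUnit.of_mul_eq_one ⟨(x : K)⁻¹, h3⟩ ?_
    ext
    simp [h1]
  · intro h
    obtain ⟨y, hy⟩ := h.exists_right_inv
    have hy' : (x : K) * y = 1 := by exact_mod_cast congrArg Subtype.val hy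
    have hx : (x : K) ≠ 0 := left_ne_zero_of_mul_eq_one hy'
    refine ⟨hx, x.2, ?_⟩
    rw [inv_eq_of_mul_eq_one_right hy']
    exact y.2

lemma sub_rel {O : Subring K} {ι : Type} {v w : ι → K} {c : K} (hc : c ≠ 0)
    (h : ∀ i, c * v i = w i) (hv : ∀ i, v i ∈ O) (hw : ∀ i, w i ∈ O)
    (hv' : ∃ i, IsU O (v i)) (hw' : ∃ i, IsU O (w i)) : IsU O c := by
  obtain ⟨i, hi⟩ := hv'
  obtain ⟨j, hj⟩ := hw'
  refine ⟨hc, ?_, ?_⟩
  · have : c = w i * (v i)⁻¹ := by
      rw [← h i, mul_assoc, mul_inv_cancel₀ hi.1, mul_one]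
    rw [this]
    exact O.mul_mem (hw i) hi.2.2
  · have : c⁻¹ = v j * (w j)⁻¹ := by
      have h1 := hj.1
      have h2 : v j ≠ 0 := by
        intro h0; apply h1; rw [← h j, h0, mul_zero]
      rw [← h j]; field_simp
    rw [this]
    exact O.mul_mem (hv j) hj.2.2

section

variable [CharP K 7]

/-- The addition-subtraction formulas. -/
lemma addsub (P Q : Pt K) : ∃ F : K, F ≠ 0 ∧
    F * (xRep (P + Q) 0 * xRep (P - Q) 0) =
      (xRep P 0 * xRep Q 0) ^ 2 - 4 * (xRep P 0 * xRep Q 1 + xRep P 1 * xRep Q 0) *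
        (xRep P 1 * xRep Q 1) ∧
    F * (xRep (P + Q) 0 * xRep (P - Q) 1 + xRep (P + Q) 1 * xRep (P - Q) 0) =
      2 * (xRep P 0 * xRep Q 1 + xRep P 1 * xRep Q 0) * (xRep P 0 * xRep Q 0) +
        4 * (xRep P 1 * xRep Q 1) ^ 2 ∧
    F * (xRep (P + Q) 1 * xRep (P - Q) 1) =
      (xRep P 0 * xRep Q 1 + xRep P 1 * xRep Q 0) ^ 2 - 4 * (xRep P 0 * xRep Q 0) *
        (xRep P 1 * xRep Q 1) := by
  have h7 : (7 : K) = 0 := seven_eq_zero
  have h2 : (2 : K) ≠ 0 := two_ne
  have h3 : (3 : K) ≠ 0 := three_ne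
  -- the case `P = Q` affine
  have dbl : ∀ (x y : K) (h : y ^ 2 = x ^ 3 + 1), ∃ F : K, F ≠ 0 ∧
      F * xRep (mk x y h + mk x y h) 0 = x ^ 4 - 8 * x ∧
      F * xRep (mk x y h + mk x y h) 1 = 4 * x ^ 3 + 4 := by
    intro x y h
    by_cases hy : y = 0
    · subst hy
      have hx : x ^ 3 = -1 := by linear_combination -h
      have hx0 : x ≠ 0 := by rintro rfl; norm_num at hx
      refine ⟨x ^ 4 - 8 * x, ?_, ?_, ?_⟩
      · have : x ^ 4 - 8 * x = 3 * (-3 * x) := by linear_combination x * hx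
        rw [this]
        exact mul_ne_zero h3 (mul_ne_zero (neg_ne_zero.2 h3) hx0)
      · rw [mk_add_neg h h (by ring)]
        simp
      · rw [mk_add_neg h h (by ring)]
        simp
        linear_combination -4 * hx
    · refine ⟨4 * y ^ 2, ?_, ?_, ?_⟩
      · have : (4 : K) * y ^ 2 = 2 * 2 * (y * y) := by ring
        rw [this]
        exact mul_ne_zero (mul_ne_zero h2 h2) (mul_ne_zero hy hy)
      · rw [mk_add_mk (l := 3 * x ^ 2 / (2 * y)) h h ?_ ?_ ?_]
        · simp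
          field_simp
          linear_combination (-32 * x) * h
        · rintro ⟨-, b⟩
          apply hy
          have : (2 : K) * y = 0 := by linear_combination b
          exact (mul_eq_zero.1 this).resolve_left h2
        · ring
        · field_simp
          ring
      · rw [mk_add_mk (l := 3 * x ^ 2 / (2 * y)) h h ?_ ?_ ?_]
        · simp
          linear_combination 4 * h
        · rintro ⟨-, b⟩
          apply hy
          have : (2 : K) * y = 0 := by linear_combination b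
          exact (mul_eq_zero.1 this).resolve_left h2
        · ring
        · field_simp
          ring
  rcases cases P with rfl | ⟨x₁, y₁, h₁, rfl⟩
  · refine ⟨1, one_ne_zero, ?_⟩
    rw [zero_add, zero_sub, xRep_neg]
    simp
    refine ⟨by ring, by ring, by ring⟩
  rcases cases Q with rfl | ⟨x₂, y₂, h₂, rfl⟩
  · refine ⟨1, one_ne_zero, ?_⟩
    rw [add_zero, sub_zero]
    simp
    refine ⟨by ring, by ring⟩
  by_cases hx : x₁ = x₂
  · subst hx
    have hy : y₂ = y₁ ∨ y₂ = -y₁ := by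
      apply sq_eq_sq_iff_eq_or_eq_neg.1
      rw [h₁, h₂]
    obtain ⟨F, hF, e0, e1⟩ := dbl x₁ y₁ h₁
    rcases hy with rfl | rfl
    · refine ⟨F, hF, ?_⟩
      rw [sub_self]
      simp only [xRep_zero, Matrix.cons_val_zero, Matrix.cons_val_one, mul_one, mul_zero, zero_add,
        xRep_mk]
      rw [e0, e1]
      refine ⟨by ring, by ring, by ring⟩
    · refine ⟨F, hF, ?_⟩
      have e : mk x₁ (-y₁) h₂ = -mk x₁ y₁ h₁ := (neg_mk h₁ h₂).symm
      rw [e, add_neg_cancel, sub_neg_eq_add]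
      simp only [xRep_zero, Matrix.cons_val_zero, Matrix.cons_val_one, one_mul, zero_mul, add_zero,
        xRep_mk, xRep_neg]
      rw [e0, e1]
      refine ⟨by ring, by ring, by ring⟩
  · have hx' : x₁ - x₂ ≠ 0 := sub_ne_zero.2 hx
    refine ⟨(x₁ - x₂) ^ 2, pow_ne_zero _ hx', ?_⟩
    have h₂' : (-y₂) ^ 2 = x₂ ^ 3 + 1 := by rw [neg_sq, h₂]
    rw [sub_eq_add_neg (mk x₁ y₁ h₁), neg_mk h₂ h₂',
      mk_add_mk (l := (y₁ - y₂) / (x₁ - x₂)) h₁ h₂ (fun h => hx h.1) ?_ ?_,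
      mk_add_mk (l := (y₁ + y₂) / (x₁ - x₂)) h₁ h₂' (fun h => hx h.1) ?_ ?_]
    · simp only [xRep_mk, Matrix.cons_val_zero, Matrix.cons_val_one, mul_one, one_mul]
      refine ⟨?_, ?_, ?_⟩
      · field_simp
        linear_combination ((y₁ ^ 2 + y₂ ^ 2 + (x₁ ^ 3 + 1) + (x₂ ^ 3 + 1) -
            2 * ((x₁ + x₂) * (x₁ - x₂) ^ 2)) - 4 * y₂ ^ 2) * h₁ +
          ((y₁ ^ 2 + y₂ ^ 2 + (x₁ ^ 3 + 1) + (x₂ ^ 3 + 1) -
            2 * ((x₁ + x₂) * (x₁ - x₂) ^ 2)) - 4 * (x₁ ^ 3 + 1)) * h₂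
      · field_simp
        linear_combination 2 * h₁ + 2 * h₂
      · ring
    · field_simp
      ring
    · field_simp
      linear_combination h₁ - h₂
    · field_simp
    · field_simp
      linear_combination h₁ - h₂

/-- **The local parallelogram law.** -/
theorem addsub_local (P Q : Pt K) : ∃ F : K, F ≠ 0 ∧ ∀ (O : Subring K) [IsLocalRing O]
    (gP gQ gS gD : K), GenOf O (xRep P) gP → GenOf O (xRep Q) gQ → GenOf O (xRep (P + Q)) gS →
    GenOf O (xRep (P - Q)) gD → IsU O (F * gS * gD / (gP * gQ) ^ 2) := by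
  obtain ⟨F, hF, e0, e1, e2⟩ := addsub P Q
  refine ⟨F, hF, ?_⟩
  intro O _ gP gQ gS gD ⟨hP0, hP, hP'⟩ ⟨hQ0, hQ, hQ'⟩ ⟨hS0, hS, hS'⟩ ⟨hD0, hD, hD'⟩
  have h7 : (7 : O) = 0 := by
    ext
    exact seven_eq_zero
  set res := IsLocalRing.residue O with hres
  have h7' : (7 : IsLocalRing.ResidueField O) = 0 := by
    have := congrArg res h7
    rwa [map_ofNat, map_zero] at this
  have two : (2 : IsLocalRing.ResidueField O) ≠ 0 := by
    intro h
    have : (1 : IsLocalRing.ResidueField O) = 0 := by linear_combination 4 * h - h7'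
    exact one_ne_zero this
  have three : (3 : IsLocalRing.ResidueField O) ≠ 0 := by
    intro h
    have : (1 : IsLocalRing.ResidueField O) = 0 := by linear_combination 5 * h - 2 * h7'
    exact one_ne_zero this
  -- normalised coordinates
  let a : Fin 2 → O := fun i => ⟨xRep P i / gP, hP i⟩
  let b : Fin 2 → O := fun i => ⟨xRep Q i / gQ, hQ i⟩
  let s : Fin 2 → O := fun i => ⟨xRep (P + Q) i / gS, hS i⟩
  let d : Fin 2 → O := fun i => ⟨xRep (P - Q) i / gD, hD i⟩
  have ha : res (a 0) ≠ 0 ∨ res (a 1) ≠ 0 := by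
    obtain ⟨i, hi⟩ := hP'
    have := (isU_iff_residue (a i)).1 hi
    fin_cases i
    · exact Or.inl this
    · exact Or.inr this
  have hb : res (b 0) ≠ 0 ∨ res (b 1) ≠ 0 := by
    obtain ⟨i, hi⟩ := hQ'
    have := (isU_iff_residue (b i)).1 hi
    fin_cases i
    · exact Or.inl this
    · exact Or.inr this
  have hs : res (s 0) ≠ 0 ∨ res (s 1) ≠ 0 := by
    obtain ⟨i, hi⟩ := hS'
    have := (isU_iff_residue (s i)).1 hi
    fin_cases i
    · exact Or.inl this
    · exact Or.inr this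
  have hd : res (d 0) ≠ 0 ∨ res (d 1) ≠ 0 := by
    obtain ⟨i, hi⟩ := hD'
    have := (isU_iff_residue (d i)).1 hi
    fin_cases i
    · exact Or.inl this
    · exact Or.inr this
  -- Gauss lemma
  have gauss : ∀ (a b : Fin 2 → O), (res (a 0) ≠ 0 ∨ res (a 1) ≠ 0) →
      (res (b 0) ≠ 0 ∨ res (b 1) ≠ 0) →
      ¬ (res (a 0 * b 0) = 0 ∧ res (a 0 * b 1 + a 1 * b 0) = 0 ∧ res (a 1 * b 1) = 0) := by
    intro a b ha hb ⟨h0, h1, h2⟩
    rw [map_mul] at h0 h2
    rw [map_add, map_mul, map_mul] at h1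
    rcases mul_eq_zero.1 h0 with h | h
    · have ha1 : res (a 1) ≠ 0 := ha.resolve_left (not_not.2 h)
      have hb1 : res (b 1) = 0 := (mul_eq_zero.1 h2).resolve_left ha1
      rw [h, zero_mul, zero_add] at h1
      have hb0 : res (b 0) = 0 := (mul_eq_zero.1 h1).resolve_left ha1
      rcases hb with h' | h'
      · exact h' hb0
      · exact h' hb1
    · have hb1 : res (b 1) ≠ 0 := hb.resolve_left (not_not.2 h)
      have ha1 : res (a 1) = 0 := (mul_eq_zero.1 h2).resolve_right hb1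
      rw [h, mul_zero, add_zero] at h1
      have ha0 : res (a 0) = 0 := (mul_eq_zero.1 h1).resolve_right hb1
      rcases ha with h' | h'
      · exact h' ha0
      · exact h' ha1
  have hab := gauss a b ha hb
  have hsd := gauss s d hs hd
  -- no base points
  set σ2 : O := a 0 * b 0 with hσ2
  set σ1 : O := a 0 * b 1 + a 1 * b 0 with hσ1
  set σ0 : O := a 1 * b 1 with hσ0
  have nb : ¬ (res (σ2 ^ 2 - 4 * σ1 * σ0) = 0 ∧ res (2 * σ1 * σ2 + 4 * σ0 ^ 2) = 0 ∧
      res (σ1 ^ 2 - 4 * σ2 * σ0) = 0) := by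
    rintro ⟨h0, h1, h2⟩
    simp only [map_sub, map_add, map_mul, map_pow, map_ofNat] at h0 h1 h2
    have e1 : res σ1 * res σ2 + 2 * res σ0 ^ 2 = 0 := by
      have : (2 : IsLocalRing.ResidueField O) * (res σ1 * res σ2 + 2 * res σ0 ^ 2) = 0 := by
        linear_combination h1
      exact (mul_eq_zero.1 this).resolve_left two
    have e2 : (2 * 2 * (3 * 3) : IsLocalRing.ResidueField O) * res σ0 ^ 4 = 0 := by
      linear_combination res σ1 ^ 2 * h0 + 4 * res σ1 * res σ0 * h2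
        - (res σ1 * res σ2 - 18 * res σ0 ^ 2) * e1
    have e3 : res σ0 = 0 := by
      have := (mul_eq_zero.1 e2).resolve_left
        (mul_ne_zero (mul_ne_zero two two) (mul_ne_zero three three))
      exact pow_eq_zero_iff (four_ne_zero) |>.1 this
    have e4 : res σ2 = 0 := by
      have : res σ2 ^ 2 = 0 := by rw [e3] at h0; linear_combination h0
      exact pow_eq_zero_iff two_ne_zero |>.1 this
    have e5 : res σ1 = 0 := by
      have : res σ1 ^ 2 = 0 := by rw [e3] at h2; linear_combination h2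
      exact pow_eq_zero_iff two_ne_zero |>.1 this
    exact hab ⟨e4, e5, e3⟩
  let v : Fin 3 → O := ![s 0 * d 0, s 0 * d 1 + s 1 * d 0, s 1 * d 1]
  let w : Fin 3 → O := ![σ2 ^ 2 - 4 * σ1 * σ0, 2 * σ1 * σ2 + 4 * σ0 ^ 2, σ1 ^ 2 - 4 * σ2 * σ0]
  refine sub_rel (v := fun i => (v i : K)) (w := fun i => (w i : K)) ?_ ?_ (fun i => (v i).2)
    (fun i => (w i).2) ?_ ?_
  · exact div_ne_zero (mul_ne_zero (mul_ne_zero hF hS0) hD0) (pow_ne_zero _ (mul_ne_zero hP0 hQ0))
  · intro i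
    fin_cases i
    · change F * gS * gD / (gP * gQ) ^ 2 * (xRep (P + Q) 0 / gS * (xRep (P - Q) 0 / gD)) =
        (xRep P 0 / gP * (xRep Q 0 / gQ)) ^ 2 - 4 * (xRep P 0 / gP * (xRep Q 1 / gQ) +
          xRep P 1 / gP * (xRep Q 0 / gQ)) * (xRep P 1 / gP * (xRep Q 1 / gQ))
      field_simp
      linear_combination e0
    · change F * gS * gD / (gP * gQ) ^ 2 * (xRep (P + Q) 0 / gS * (xRep (P - Q) 1 / gD) +
          xRep (P + Q) 1 / gS * (xRep (P - Q) 0 / gD)) =
        2 * (xRep P 0 / gP * (xRep Q 1 / gQ) + xRep P 1 / gP * (xRep Q 0 / gQ)) *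
          (xRep P 0 / gP * (xRep Q 0 / gQ)) + 4 * (xRep P 1 / gP * (xRep Q 1 / gQ)) ^ 2
      field_simp
      linear_combination e1
    · change F * gS * gD / (gP * gQ) ^ 2 * (xRep (P + Q) 1 / gS * (xRep (P - Q) 1 / gD)) =
        (xRep P 0 / gP * (xRep Q 1 / gQ) + xRep P 1 / gP * (xRep Q 0 / gQ)) ^ 2 -
          4 * (xRep P 0 / gP * (xRep Q 0 / gQ)) * (xRep P 1 / gP * (xRep Q 1 / gQ))
      field_simp
      linear_combination e2
  · by_contra hcon
    push Not at hcon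
    apply hsd
    refine ⟨?_, ?_, ?_⟩
    · by_contra h; exact hcon 0 ((isU_iff_residue (v 0)).2 h)
    · by_contra h; exact hcon 1 ((isU_iff_residue (v 1)).2 h)
    · by_contra h; exact hcon 2 ((isU_iff_residue (v 2)).2 h)
  · by_contra hcon
    push Not at hcon
    apply nb
    refine ⟨?_, ?_, ?_⟩
    · by_contra h; exact hcon 0 ((isU_iff_residue (w 0)).2 h)
    · by_contra h; exact hcon 1 ((isU_iff_residue (w 1)).2 h)
    · by_contra h; exact hcon 2 ((isU_iff_residue (w 2)).2 h)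

end

end Seshadri
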