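import Mathlib
import Pool.Agent.Helper36.Ses.Defs
import Pool.Agent.Helper36.Ses.EC
import Pool.Agent.Helper36.Ses.Common
import Pool.Agent.Helper36.Ses.AddSub

/-!
# Values of rational functions
-/

open MvPolynomial

namespace Seshadri

namespace ProjVar

variable {k : Type} [Field k] {ι : Type} (X : ProjVar k ι)

section Value

variable {A : Type} [Field A] [Algebra k A] {w : ι → A}

lemma Value.unique (hw : IsSpec k X.gen w) {u : X.K} {t t' : A} (h : X.Value w u t)
    (h' : X.Value w u t') : t = t' := by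
  obtain ⟨d, F, G, hF, hG, h0, h1, h2⟩ := h
  obtain ⟨d', F', G', hF', hG', h0', h1', h2'⟩ := h'
  have e : aeval X.gen (F * G' - F' * G) = 0 := by
    rw [map_sub, map_mul, map_mul, ← h1, ← h1']; ring
  have hom : (F * G' - F' * G).IsHomogeneous (d + d') :=
    (hF.mul hG').sub (by rw [add_comm]; exact hF'.mul hG)
  have e2 := hw _ _ hom e
  rw [map_sub, map_mul, map_mul, ← h2, ← h2'] at e2
  have e3 : (t - t') * (aeval w G * aeval w G') = 0 := by linear_combination e2
  exact sub_eq_zero.1 ((mul_eq_zero.1 e3).resolve_right (mul_ne_zero h0 h0'))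

lemma Value.add {u u' : X.K} {t t' : A} (h : X.Value w u t) (h' : X.Value w u' t') :
    X.Value w (u + u') (t + t') := by
  obtain ⟨d, F, G, hF, hG, h0, h1, h2⟩ := h
  obtain ⟨d', F', G', hF', hG', h0', h1', h2'⟩ := h'
  refine ⟨d + d', F * G' + G * F', G * G', (hF.mul hG').add (hG.mul hF'),
      hG.mul hG', ?_, ?_, ?_⟩
  · rw [map_mul]; exact mul_ne_zero h0 h0'
  · rw [map_mul, map_add, map_mul, map_mul, ← h1, ← h1']; ring
  · rw [map_mul, map_add, map_mul, map_mul, ← h2, ← h2']; ring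

lemma Value.mul {u u' : X.K} {t t' : A} (h : X.Value w u t) (h' : X.Value w u' t') :
    X.Value w (u * u') (t * t') := by
  obtain ⟨d, F, G, hF, hG, h0, h1, h2⟩ := h
  obtain ⟨d', F', G', hF', hG', h0', h1', h2'⟩ := h'
  refine ⟨d + d', F * F', G * G', hF.mul hF', hG.mul hG', ?_, ?_, ?_⟩
  · rw [map_mul]; exact mul_ne_zero h0 h0'
  · rw [map_mul, map_mul, ← h1, ← h1']; ring
  · rw [map_mul, map_mul, ← h2, ← h2']; ring

lemma Value.algebraMap (c : k) : X.Value w (algebraMap k X.K c) (algebraMap k A c) := by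
  refine ⟨0, C c, 1, isHomogeneous_C _ _, isHomogeneous_one _ _, ?_, ?_, ?_⟩ <;> simp

lemma Value.one : X.Value w 1 1 := by
  have := Value.algebraMap X (w := w) 1
  simpa using this

lemma Value.zero : X.Value w 0 0 := by
  have := Value.algebraMap X (w := w) 0
  simpa using this

lemma Value.neg {u : X.K} {t : A} (h : X.Value w u t) : X.Value w (-u) (-t) := by
  obtain ⟨d, F, G, hF, hG, h0, h1, h2⟩ := h
  refine ⟨d, -F, G, hF.neg, hG, h0, ?_, ?_⟩
  · rw [map_neg, ← h1]; ring
  · rw [map_neg, ← h2]; ring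

lemma Value.sub {u u' : X.K} {t t' : A} (h : X.Value w u t) (h' : X.Value w u' t') :
    X.Value w (u - u') (t - t') := by
  rw [sub_eq_add_neg, sub_eq_add_neg]
  exact Value.add X h (Value.neg X h')

lemma Value.pow {u : X.K} {t : A} (h : X.Value w u t) (n : ℕ) : X.Value w (u ^ n) (t ^ n) := by
  induction n with
  | zero => rw [pow_zero, pow_zero]; exact Value.one X
  | succ n ih => rw [pow_succ, pow_succ]; exact Value.mul X ih h

lemma Value.inv (hw : IsSpec k X.gen w) {u : X.K} {t : A} (h : X.Value w u t) (ht : t ≠ 0) :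
    X.Value w u⁻¹ t⁻¹ := by
  obtain ⟨d, F, G, hF, hG, h0, h1, h2⟩ := h
  have hFw : aeval w F ≠ 0 := by rw [← h2]; exact mul_ne_zero ht h0
  have hFX : aeval X.gen F ≠ 0 := fun h => hFw (hw _ _ hF h)
  have hu : u ≠ 0 := by
    rintro rfl
    apply hFX
    rw [← h1, zero_mul]
  refine ⟨d, G, F, hG, hF, hFw, ?_, ?_⟩
  · rw [← h1]; field_simp
  · rw [← h2]; field_simp

lemma Value.div (hw : IsSpec k X.gen w) {u u' : X.K} {t t' : A} (h : X.Value w u t)
    (h' : X.Value w u' t') (ht : t' ≠ 0) : X.Value w (u / u') (t / t') := by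
  rw [div_eq_mul_inv, div_eq_mul_inv]
  exact Value.mul X h (Value.inv X hw h' ht)

/-- ratio of two coordinates -/
lemma Value.coord (i j : ι) (hX : X.gen j ≠ 0) (hj : w j ≠ 0) :
    X.Value w (X.gen i / X.gen j) (w i / w j) := by
  refine ⟨1, MvPolynomial.X i, MvPolynomial.X j, isHomogeneous_X _ _, isHomogeneous_X _ _, ?_, ?_,
    ?_⟩
  · simpa using hj
  · simp only [aeval_X]; field_simp
  · simp only [aeval_X]; field_simp

/-- The ring of rational functions defined at `w`. -/
def valRing (w : ι → A) : Subring X.K where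
  carrier := {u | ∃ t, X.Value w u t}
  mul_mem' := by rintro a b ⟨t, h⟩ ⟨t', h'⟩; exact ⟨_, Value.mul X h h'⟩
  one_mem' := ⟨1, Value.one X⟩
  add_mem' := by rintro a b ⟨t, h⟩ ⟨t', h'⟩; exact ⟨_, Value.add X h h'⟩
  zero_mem' := ⟨0, Value.zero X⟩
  neg_mem' := by rintro a ⟨t, h⟩; exact ⟨_, Value.neg X h⟩

/-- Evaluation at `w`. -/
noncomputable def valHom (hw : IsSpec k X.gen w) : X.valRing w →+* A where
  toFun u := u.2.choose
  map_one' := Value.unique X hw (1 : X.valRing w).2.choose_spec (Value.one X)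
  map_zero' := Value.unique X hw (0 : X.valRing w).2.choose_spec (Value.zero X)
  map_add' a b := Value.unique X hw (a + b).2.choose_spec
    (Value.add X a.2.choose_spec b.2.choose_spec)
  map_mul' a b := Value.unique X hw (a * b).2.choose_spec
    (Value.mul X a.2.choose_spec b.2.choose_spec)

lemma valHom_spec (hw : IsSpec k X.gen w) (u : X.valRing w) : X.Value w u (X.valHom hw u) :=
  u.2.choose_spec

lemma valHom_eq (hw : IsSpec k X.gen w) {u : X.K} {t : A} (h : X.Value w u t) :
    X.valHom hw ⟨u, t, h⟩ = t := Value.unique X hw (X.valHom_spec hw _) h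

lemma isU_iff (hw : IsSpec k X.gen w) {u : X.K} : IsU (X.valRing w) u ↔
    ∃ t, t ≠ 0 ∧ X.Value w u t := by
  constructor
  · rintro ⟨h0, ⟨t, h⟩, ⟨t', h'⟩⟩
    refine ⟨t, ?_, h⟩
    rintro rfl
    have := Value.unique X hw (Value.mul X h h') (by rw [mul_inv_cancel₀ h0]; exact Value.one X)
    rw [zero_mul] at this
    exact zero_ne_one this
  · rintro ⟨t, ht, h⟩
    refine ⟨?_, ⟨t, h⟩, ⟨t⁻¹, Value.inv X hw h ht⟩⟩
    rintro rfl
    exact ht (Value.unique X hw h (Value.zero X))

lemma isLocalHom_valHom (hw : IsSpec k X.gen w) : IsLocalHom (X.valHom hw) := by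
  constructor
  intro u hu
  have h := (X.isU_iff hw (u := (u : X.K))).2 ⟨X.valHom hw u, hu.ne_zero, X.valHom_spec hw u⟩
  refine IsUnit.of_mul_eq_one ⟨(u : X.K)⁻¹, h.2.2⟩ ?_
  ext
  simp [h.1]

lemma isLocalRing_valRing (hw : IsSpec k X.gen w) : IsLocalRing (X.valRing w) := by
  haveI := X.isLocalHom_valHom hw
  exact RingHom.domain_isLocalRing (X.valHom hw)

end Value

lemma unitAt_iff (a : X.Point) {u : X.K} : X.UnitAt a u ↔ IsU (X.valRing a.coord) u :=
  (X.isU_iff a.mem).symm

lemma regular_iff (a : X.Point) {u : X.K} : X.Regular a u ↔ u ∈ X.valRing a.coord := Iff.rfl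

lemma isGen_iff {n : ℕ} (φ : Fin n → X.K) (a : X.Point) (i : Fin n) :
    X.IsGen φ a i ↔ φ i ≠ 0 ∧ GenOf (X.valRing a.coord) φ (φ i) := by
  constructor
  · rintro ⟨h1, h2⟩
    refine ⟨h1, h1, h2, i, ?_⟩
    rw [div_self h1]
    exact IsU.one
  · rintro ⟨h1, h2⟩
    exact ⟨h1, h2.2.1⟩

/-! ### Reduction of points of the elliptic curve -/

section Red

variable {A : Type} [Field A] [Algebra k A] {w : ι → A}

/-- The point `P'` is the value at `w` of the point `P` with coordinates in the function field. -/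
def Red (w : ι → A) (P : Pt X.K) (P' : Pt A) : Prop :=
  ∃ (p : Fin 3 → X.K) (p' : Fin 3 → A), (∀ j, X.Value w (p j) (p' j)) ∧ Rep p P ∧ Rep p' P'

lemma Red.of_coord (c : Fin 3 → ι) {P : Pt X.K} {P' : Pt A} (hP : Rep (fun j => X.gen (c j)) P)
    (hP' : Rep (fun j => w (c j)) P') (hw : IsSpec k X.gen w) : X.Red w P P' := by
  obtain ⟨s', hs', e'⟩ := hP'
  -- a non-zero coordinate of `P'`
  have hne : ∃ i, w (c i) ≠ 0 := by
    by_contra h
    push Not at h
    have h1 : ∀ i, s' * P'.vec i = 0 := by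
      intro i
      have := congrFun e' i
      rw [Pi.smul_apply, smul_eq_mul] at this
      rw [← this, h i]
    have h2 : ∀ i, P'.vec i = 0 := fun i => (mul_eq_zero.1 (h1 i)).resolve_left hs'
    match P', h2 with
    | WeierstrassCurve.Affine.Point.zero, h2 => exact one_ne_zero (h2 1)
    | WeierstrassCurve.Affine.Point.some x y _, h2 => exact one_ne_zero (h2 2)
  obtain ⟨i, hi⟩ := hne
  have hXi : X.gen (c i) ≠ 0 := by
    intro h
    apply hi
    have := hw 1 (MvPolynomial.X (c i)) (isHomogeneous_X _ _) (by simpa using h)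
    simpa using this
  obtain ⟨s, hs, e⟩ := hP
  refine ⟨fun j => X.gen (c j) / X.gen (c i), fun j => w (c j) / w (c i),
    fun j => Value.coord X _ _ hXi hi, ?_, ?_⟩
  · refine ⟨s / X.gen (c i), div_ne_zero hs hXi, ?_⟩
    funext j
    have := congrFun e j
    simp only [Pi.smul_apply, smul_eq_mul] at this ⊢
    rw [this]; ring
  · refine ⟨s' / w (c i), div_ne_zero hs' hi, ?_⟩
    funext j
    have := congrFun e' j
    simp only [Pi.smul_apply, smul_eq_mul] at this ⊢
    rw [this]; ring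

end Red

end ProjVar

end Seshadri
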