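import Mathlib
import Pool.Agent.Helper36.Ses.EC

/-!
# Quadratic functions satisfying the parallelogram law on `ℤ[ω]`-modules
-/

namespace Seshadri

open Pt (Zw)

/-- `ω ∈ ℤ[ω]`. -/
def om : Zw := ⟨0, 1⟩

/-- A function `H : N → A` on a `ℤ[ω]`-module satisfying the parallelogram law and invariant
under `ω`; `A` is a torsion-free abelian group. -/
structure QData (N A : Type) [AddCommGroup N] [Module Zw N] [AddCommGroup A] where
  H : N → A
  par : ∀ P Q : N, H (P + Q) + H (P - Q) = (2 : ℤ) • H P + (2 : ℤ) • H Q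
  om : ∀ P : N, H (om • P) = H P
  tf : ∀ (n : ℤ) (a : A), n ≠ 0 → n • a = 0 → a = 0

namespace QData

variable {N A : Type} [AddCommGroup N] [Module Zw N] [AddCommGroup A] (D : QData N A)

include D in
lemma cancel {n : ℤ} (hn : n ≠ 0) {a b : A} (h : n • a = n • b) : a = b := by
  have : n • (a - b) = 0 := by rw [smul_sub, h, sub_self]
  exact sub_eq_zero.1 (D.tf n _ hn this)

/-- The polar form. -/
def B (P Q : N) : A := D.H (P + Q) - D.H P - D.H Q

lemma H_zero : D.H 0 = 0 := by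
  have h := D.par 0 0
  rw [add_zero, sub_zero] at h
  have h2 : (2 : ℤ) • D.H 0 = 0 := by
    have : D.H 0 + D.H 0 = (2 : ℤ) • D.H 0 := by module
    rw [this] at h
    have h3 : (2 : ℤ) • D.H 0 + (2 : ℤ) • D.H 0 - (2 : ℤ) • D.H 0 = 0 := by
      rw [← h]; module
    rw [← h3]; module
  exact D.tf 2 _ two_ne_zero h2

lemma H_neg (P : N) : D.H (-P) = D.H P := by
  have h := D.par 0 P
  rw [zero_add, zero_sub, D.H_zero] at h
  have : D.H (-P) = (D.H P + D.H (-P)) - D.H P := by module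
  rw [this, h]; module

lemma B_comm (P Q : N) : D.B P Q = D.B Q P := by
  unfold B; rw [add_comm P Q]; module

lemma H_add (P Q : N) : D.H (P + Q) = D.H P + D.H Q + D.B P Q := by
  unfold B; module

lemma H_three (x y z : N) : D.H (x + y + z) =
    D.H (x + y) + D.H (y + z) + D.H (x + z) - D.H x - D.H y - D.H z := by
  have h1 := D.par (x + z) y
  have h2 := D.par (x - y) z
  have h3 := D.par x (y + z)
  have h4 := D.par x y
  have e1 : x + z + y = x + y + z := by abel
  have e2 : x + z - y = x - y + z := by abel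
  have e3 : x - (y + z) = x - y - z := by abel
  have e4 : x + (y + z) = x + y + z := by abel
  rw [e1, e2] at h1
  rw [e3, e4] at h3
  apply D.cancel (n := 2) two_ne_zero
  have h5 : D.H (x - y) = (2 : ℤ) • D.H x + (2 : ℤ) • D.H y - D.H (x + y) := by
    rw [← h4]; module
  have h6 : D.H (x - y + z) = (2 : ℤ) • D.H (x + z) + (2 : ℤ) • D.H y - D.H (x + y + z) := by
    rw [← h1]; module
  have h7 : D.H (x - y - z) = (2 : ℤ) • D.H x + (2 : ℤ) • D.H (y + z) - D.H (x + y + z) := by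
    rw [← h3]; module
  rw [h6, h7, h5] at h2
  have h8 : (2 : ℤ) • D.H (x + y + z) = (2 : ℤ) • D.H (x + z) + (2 : ℤ) • D.H y
      + ((2 : ℤ) • D.H x + (2 : ℤ) • D.H (y + z))
      - ((2 : ℤ) • D.H (x + z) + (2 : ℤ) • D.H y - D.H (x + y + z) +
        ((2 : ℤ) • D.H x + (2 : ℤ) • D.H (y + z) - D.H (x + y + z))) := by module
  rw [h8, h2]
  module

lemma B_add_left (P Q R : N) : D.B (P + Q) R = D.B P R + D.B Q R := by
  unfold B
  rw [D.H_three]
  module

lemma B_add_right (P Q R : N) : D.B P (Q + R) = D.B P Q + D.B P R := by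
  rw [D.B_comm, D.B_add_left, D.B_comm Q, D.B_comm R]

/-- `B` as a bi-additive map. -/
def Bhom (P : N) : N →+ A where
  toFun := D.B P
  map_zero' := by unfold B; rw [add_zero, D.H_zero]; module
  map_add' := D.B_add_right P

lemma B_zsmul_right (n : ℤ) (P Q : N) : D.B P (n • Q) = n • D.B P Q :=
  map_zsmul (D.Bhom P) n Q

lemma B_zsmul_left (n : ℤ) (P Q : N) : D.B (n • P) Q = n • D.B P Q := by
  rw [D.B_comm, D.B_zsmul_right, D.B_comm]

lemma B_neg_right (P Q : N) : D.B P (-Q) = -D.B P Q := map_neg (D.Bhom P) Q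

lemma B_neg_left (P Q : N) : D.B (-P) Q = -D.B P Q := by
  rw [D.B_comm, D.B_neg_right, D.B_comm]

lemma B_zero_right (P : N) : D.B P 0 = 0 := map_zero (D.Bhom P)

lemma B_self (P : N) : D.B P P = (2 : ℤ) • D.H P := by
  have h := D.par P P
  rw [sub_self, D.H_zero] at h
  unfold B
  have : D.H (P + P) = (2 : ℤ) • D.H P + (2 : ℤ) • D.H P := by rw [← h]; module
  rw [this]; module

lemma B_om_om (P Q : N) : D.B (Seshadri.om • P) (Seshadri.om • Q) = D.B P Q := by
  unfold B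
  rw [← smul_add, D.om, D.om, D.om]

lemma om_sq (P : N) : Seshadri.om • Seshadri.om • P = -P - Seshadri.om • P := by
  rw [smul_smul]
  have : Seshadri.om * Seshadri.om = (-1 : Zw) - Seshadri.om := by
    decide
  rw [this, sub_smul, neg_smul, one_smul]

lemma B_self_om (P : N) : D.B P (Seshadri.om • P) = -D.H P := by
  unfold B
  have h : P + Seshadri.om • P = -(Seshadri.om • Seshadri.om • P) := by
    rw [om_sq]; abel
  rw [h, D.H_neg, D.om, D.om]
  module

lemma smul_eq (α : Zw) (P : N) : α • P = α.re • P + α.im • (Seshadri.om • P) := by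
  have : α = (α.re : Zw) + (α.im : Zw) * Seshadri.om := by
    ext <;> simp [Seshadri.om]
  conv_lhs => rw [this]
  rw [add_smul, mul_smul, Int.cast_smul_eq_zsmul, Int.cast_smul_eq_zsmul]

lemma B_smul_smul (α β : Zw) (P : N) :
    D.B (α • P) (β • P) = (QuadraticAlgebra.trace (star α * β) : ℤ) • D.H P := by
  rw [smul_eq α, smul_eq β]
  simp only [B_add_left, B_add_right, B_zsmul_left, B_zsmul_right, B_self, B_self_om, D.om,
    D.B_comm (Seshadri.om • P) P]
  rw [QuadraticAlgebra.trace_def]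
  simp only [QuadraticAlgebra.re_mul, QuadraticAlgebra.im_mul, QuadraticAlgebra.re_star,
    QuadraticAlgebra.im_star]
  module

lemma H_smul (α : Zw) (P : N) : D.H (α • P) = (QuadraticAlgebra.norm α : ℤ) • D.H P := by
  apply D.cancel (n := 2) two_ne_zero
  rw [← B_self, B_smul_smul, QuadraticAlgebra.trace_def, QuadraticAlgebra.norm_def]
  simp only [QuadraticAlgebra.re_mul, QuadraticAlgebra.im_mul, QuadraticAlgebra.re_star,
    QuadraticAlgebra.im_star]
  module

/-- Orthogonality. -/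
def Orth (P Q : N) : Prop := D.B P Q = 0 ∧ D.B P (Seshadri.om • Q) = 0

lemma orth_of_forall {P Q : N} (h : ∀ α : Zw, D.H (P + α • Q) = D.H (P - α • Q)) :
    D.Orth P Q := by
  have key : ∀ α : Zw, D.B P (α • Q) = 0 := by
    intro α
    apply D.tf 2 _ two_ne_zero
    have h1 := h α
    rw [sub_eq_add_neg, D.H_add, D.H_add, D.B_neg_right, D.H_neg] at h1
    have : (2 : ℤ) • D.B P (α • Q) = (D.H P + D.H (α • Q) + D.B P (α • Q)) -
      (D.H P + D.H (α • Q) + -D.B P (α • Q)) := by module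
    rw [this, h1, sub_self]
  refine ⟨?_, key _⟩
  have := key 1
  rwa [one_smul] at this

lemma Orth.symm {P Q : N} (h : D.Orth P Q) : D.Orth Q P := by
  refine ⟨by rw [D.B_comm]; exact h.1, ?_⟩
  rw [← D.B_om_om, om_sq, sub_eq_add_neg, D.B_add_right, D.B_neg_right, D.B_neg_right,
    D.B_om_om, D.B_comm Q P, D.B_comm (Seshadri.om • Q) P, h.1, h.2]
  simp

lemma Orth.smul {P Q : N} (h : D.Orth P Q) (α β : Zw) : D.B (α • P) (β • Q) = 0 := by
  have hs := Orth.symm D h
  rw [smul_eq α, smul_eq β]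
  simp only [B_add_left, B_add_right, B_zsmul_left, B_zsmul_right, B_om_om, h.1, h.2,
    D.B_comm (Seshadri.om • P) Q, hs.2]
  simp

lemma H_add_of_orth {P Q : N} (h : D.Orth P Q) (α β : Zw) :
    D.H (α • P + β • Q) = (QuadraticAlgebra.norm α : ℤ) • D.H P +
      (QuadraticAlgebra.norm β : ℤ) • D.H Q := by
  rw [D.H_add, Orth.smul D h, D.H_smul, D.H_smul]; module

/-- The class of the line bundle. -/
def Lcls (w u : ℤ) (x R P1 : N) : A := (w + 1) • D.H x - D.H (x + R) + D.H R + u • D.H P1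

lemma Lcls_eq (w u : ℤ) (x R P1 : N) :
    D.Lcls w u x R P1 = w • D.H x - D.B x R + u • D.H P1 := by
  unfold Lcls
  rw [D.H_add x R]; module

/-- The identity which shows that `L` is ample. -/
lemma ample_identity {x P1 P2 : N} (ρ ν : Zw) (hO : D.Orth P1 P2) (hH : D.H P2 = D.H P1)
    (u w q : ℤ) (hν : QuadraticAlgebra.norm ν = u ^ 2 * q)
    (hdet : u * w - QuadraticAlgebra.norm ρ = 1) :
    (2 * u * (2 * u * (u * q + w) - 1)) • D.Lcls (u * q + w) u x (ρ • P1 + ν • P2) P1 =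
      (2 * u * (u * q + w) - 1) • D.H x
      + D.H ((2 * u * (u * q + w) - 1) • x - (2 * u) • (ρ • P1 + ν • P2))
      + (2 * u ^ 2) • D.H P1 := by
  set R := ρ • P1 + ν • P2 with hR
  have hHR : D.H R = (QuadraticAlgebra.norm ρ + u ^ 2 * q) • D.H P1 := by
    rw [hR, D.H_add_of_orth hO, hH, hν]; module
  have hρ : QuadraticAlgebra.norm ρ = u * w - 1 := by linarith
  rw [Lcls_eq, sub_eq_add_neg (_ • x), D.H_add, B_neg_right, B_zsmul_left, B_zsmul_right, H_neg]
  have e1 : ∀ (n : ℤ) (P : N), D.H (n • P) = n ^ 2 • D.H P := by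
    intro n P
    have := D.H_smul (n : Zw) P
    rw [Int.cast_smul_eq_zsmul, QuadraticAlgebra.norm_intCast] at this
    exact this
  rw [e1, e1, hHR, hρ]
  module

lemma norm_Fr : QuadraticAlgebra.norm Pt.Fr = 7 := by decide

lemma norm_Fr_pow (n : ℕ) : QuadraticAlgebra.norm (Pt.Fr ^ n) = 7 ^ n := by
  rw [map_pow, norm_Fr]

lemma norm_Ve : QuadraticAlgebra.norm Pt.Ve = 7 := by decide

lemma Ve_pow_mul (n : ℕ) : Pt.Ve ^ n * Pt.Fr ^ n = 7 ^ n := by
  rw [← mul_pow, mul_comm, Pt.Fr_mul_Ve]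

/-- The identity which computes `L · C`. -/
lemma curve_identity (D : QData N ℤ) {s t' t : N} (hst' : D.Orth t' s) (ht't : D.Orth t' t)
    (hst : D.Orth t s) (n : ℕ) (hs : D.H s = 8) (ht' : D.H t' = 8)
    (ht : D.H t = 8 * 7 ^ n + 8) (ρ : Zw) (u w : ℤ) :
    D.Lcls (u * 7 ^ n + w) u (t' - t)
      (ρ • (Pt.Fr ^ n • s + Pt.Fr ^ (2 * n) • t') + (-(u : Zw) * Pt.Ve ^ n) • (Pt.Fr ^ n • t))
      (Pt.Fr ^ n • s + Pt.Fr ^ (2 * n) • t')
      = 8 * (7 ^ n * (u + w) - QuadraticAlgebra.trace (ρ * Pt.Fr ^ (2 * n)) + 2 * w) := by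
  rw [Lcls_eq]
  have h1 : D.H (t' - t) = 8 * 7 ^ n + 16 := by
    rw [sub_eq_add_neg, D.H_add, D.B_neg_right, ht't.1, D.H_neg, ht', ht]; ring
  have h2 : D.H (Pt.Fr ^ n • s + Pt.Fr ^ (2 * n) • t') = 8 * 7 ^ n + 8 * 7 ^ (2 * n) := by
    rw [D.H_add_of_orth (Orth.symm D hst'), hs, ht', norm_Fr_pow, norm_Fr_pow]
    simp only [smul_eq_mul]; ring
  have h3 : (-(u : Zw) * Pt.Ve ^ n) • (Pt.Fr ^ n • t) = (-(u * 7 ^ n) : ℤ) • t := by
    rw [smul_smul, mul_assoc, Ve_pow_mul]
    rw [show (-(u : Zw) * 7 ^ n) = ((-(u * 7 ^ n) : ℤ) : Zw) by push_cast; ring,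
      Int.cast_smul_eq_zsmul]
  have h4 : ∀ β : Zw, D.B t' (β • t') = (QuadraticAlgebra.trace β : ℤ) * 8 := by
    intro β
    have := D.B_smul_smul 1 β t'
    rw [one_smul, star_one, one_mul, ht', smul_eq_mul] at this
    exact this
  have h5 : ∀ (P Q : N), D.Orth P Q → ∀ β : Zw, D.B P (β • Q) = 0 := by
    intro P Q h β
    have := Orth.smul D h 1 β
    rwa [one_smul] at this
  have h6 : D.B (t' - t) (ρ • (Pt.Fr ^ n • s + Pt.Fr ^ (2 * n) • t') + (-(u * 7 ^ n) : ℤ) • t) =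
      8 * QuadraticAlgebra.trace (ρ * Pt.Fr ^ (2 * n)) + 16 * u * 7 ^ n * (7 ^ n + 1) := by
    rw [smul_add, smul_smul, smul_smul, sub_eq_add_neg]
    simp only [B_add_left, B_add_right, B_neg_left, B_zsmul_right, B_zsmul_left]
    rw [h5 _ _ hst', h5 _ _ hst, h5 _ _ (Orth.symm D ht't), ht't.1, h4, B_self, ht]
    simp only [smul_eq_mul]
    ring
  rw [h3, h6, h1, h2]
  simp only [smul_eq_mul]
  ring

end QData

end Seshadri
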