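import Mathlib
import Pool.Agent.Helper36.Ses.AddSub
import Pool.Agent.Helper36.Ses.Herm
import Pool.Agent.Helper38.SesPlaces

/-!
# Heights on `E(κ)`, `κ` the function field of a curve
-/

namespace Seshadri

open Pt

namespace Place

variable {k κ : Type} [Field k] [Field κ] [Algebra k κ] (v : Place k κ)

attribute [simp] Place.ord_one

lemma ord_pow (x : κ) (n : ℕ) (hx : x ≠ 0) : v.ord (x ^ n) = n * v.ord x := by
  induction n with
  | zero => simp
  | succ n ih => rw [pow_succ, v.ord_mul _ _ (pow_ne_zero _ hx) hx, ih]; push_cast; ring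

lemma ord_inv' (x : κ) : v.ord x⁻¹ = -v.ord x := v.ord_inv x

lemma ord_div (x y : κ) (hx : x ≠ 0) (hy : y ≠ 0) : v.ord (x / y) = v.ord x - v.ord y := by
  rw [div_eq_mul_inv, v.ord_mul _ _ hx (inv_ne_zero hy), v.ord_inv y]; ring

lemma ord_neg (x : κ) : v.ord (-x) = v.ord x := by
  by_cases hx : x = 0
  · rw [hx, neg_zero]
  · have h1 : v.ord (-1 : κ) = 0 := by
      have := v.ord_algebraMap (-1)
      rwa [map_neg, map_one] at this
    have := v.ord_mul (-1) x (by simp) hx
    rw [h1, zero_add, neg_one_mul] at this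
    exact this

/-- The valuation ring of a place. -/
def ring : Subring κ where
  carrier := {u | u = 0 ∨ 0 ≤ v.ord u}
  mul_mem' := by
    rintro a b ha hb
    by_cases h1 : a = 0
    · left; rw [h1, zero_mul]
    by_cases h2 : b = 0
    · left; rw [h2, mul_zero]
    right
    rw [v.ord_mul a b h1 h2]
    have := ha.resolve_left h1
    have := hb.resolve_left h2
    omega
  one_mem' := by right; simp
  add_mem' := by
    rintro a b ha hb
    by_cases h1 : a = 0
    · rw [h1, zero_add]; exact hb
    by_cases h2 : b = 0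
    · rw [h2, add_zero]; exact ha
    by_cases h3 : a + b = 0
    · left; exact h3
    right
    have h4 := v.ord_add a b h1 h2 h3
    have := ha.resolve_left h1
    have := hb.resolve_left h2
    omega
  zero_mem' := Or.inl rfl
  neg_mem' := by
    rintro a ha
    rcases ha with ha | ha
    · left; rw [ha, neg_zero]
    · right; rw [v.ord_neg]; exact ha

lemma mem_ring {u : κ} : u ∈ v.ring ↔ u = 0 ∨ 0 ≤ v.ord u := Iff.rfl

lemma mem_ring_iff {u : κ} : u ∈ v.ring ↔ 0 ≤ v.ord u := by
  rw [mem_ring]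
  constructor
  · rintro (rfl | h)
    · rw [v.ord_zero]
    · exact h
  · exact Or.inr

lemma isU_iff {u : κ} : IsU v.ring u ↔ u ≠ 0 ∧ v.ord u = 0 := by
  unfold IsU
  rw [mem_ring_iff, mem_ring_iff, v.ord_inv']
  constructor
  · rintro ⟨h1, h2, h3⟩
    exact ⟨h1, by omega⟩
  · rintro ⟨h1, h2⟩
    exact ⟨h1, by omega, by omega⟩

lemma isUnit_iff (u : v.ring) : IsUnit u ↔ (u : κ) ≠ 0 ∧ v.ord u = 0 := by
  rw [← v.isU_iff]
  constructor
  · intro h
    obtain ⟨y, hy⟩ := h.exists_right_inv
    have hy' : (u : κ) * y = 1 := by exact_mod_cast congrArg Subtype.val hy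
    refine ⟨left_ne_zero_of_mul_eq_one hy', u.2, ?_⟩
    rw [inv_eq_of_mul_eq_one_right hy']
    exact y.2
  · rintro ⟨h1, -, h3⟩
    refine IsUnit.of_mul_eq_one ⟨(u : κ)⁻¹, h3⟩ ?_
    ext
    simp [h1]

instance : IsLocalRing v.ring := by
  apply IsLocalRing.of_nonunits_add
  intro a b ha hb
  rw [mem_nonunits_iff, isUnit_iff] at ha hb ⊢
  push Not at ha hb ⊢
  intro h3
  by_cases h1 : (a : κ) = 0
  · have : ((a + b : v.ring) : κ) = b := by
      rw [Subring.coe_add, h1, zero_add]
    rw [this] at h3 ⊢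
    exact hb h3
  by_cases h2 : (b : κ) = 0
  · have : ((a + b : v.ring) : κ) = a := by
      rw [Subring.coe_add, h2, add_zero]
    rw [this] at h3 ⊢
    exact ha h3
  have h4 := ha h1
  have h5 := hb h2
  have h6 := v.ord_add a b h1 h2 (by rw [Subring.coe_add] at h3; exact h3)
  have h7 := v.mem_ring_iff.1 a.2
  have h8 := v.mem_ring_iff.1 b.2
  rw [Subring.coe_add]
  omega

/-- The local height of a point. -/
noncomputable def loc (P : Pt κ) : ℕ := (-(v.ord (xc P))).toNat

lemma exists_genOf [CharP κ 7] (P : Pt κ) : ∃ g, GenOf v.ring (xRep P) g ∧ v.ord g = -(v.loc P : ℤ) := by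
  rcases cases P with rfl | ⟨x, y, h, rfl⟩
  · refine ⟨1, ⟨one_ne_zero, ?_, 0, ?_⟩, ?_⟩
    · intro i
      fin_cases i
      · simp [mem_ring_iff]
      · simp [mem_ring_iff, v.ord_zero]
    · simpa using IsU.one
    · simp [loc, v.ord_zero]
  · by_cases hx : v.ord x < 0
    · have hx0 : x ≠ 0 := by
        rintro rfl
        rw [v.ord_zero] at hx
        omega
      refine ⟨x, ⟨hx0, ?_, 0, ?_⟩, ?_⟩
      · intro i
        fin_cases i
        · simp [mem_ring_iff, hx0]
        · simp [mem_ring_iff, v.ord_inv']; omega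
      · simp [hx0]; exact IsU.one
      · simp only [loc, xc_mk]
        omega
    · refine ⟨1, ⟨one_ne_zero, ?_, 1, ?_⟩, ?_⟩
      · intro i
        fin_cases i
        · simp [mem_ring_iff]; omega
        · simp [mem_ring_iff]
      · simp; exact IsU.one
      · simp only [loc, xc_mk, ord_one]
        omega

end Place

section Height

variable {k κ : Type} [Field k] [IsAlgClosed k] [Field κ] [Algebra k κ]

/-- The height of a point of `E(κ)`: the number of poles of its `x`-coordinate. -/
noncomputable def ht (k : Type) {κ : Type} [Field k] [Field κ] [Algebra k κ] (P : Pt κ) : ℕ :=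
  ∑ᶠ v : Place k κ, v.loc P

lemma finite_loc (h : IsCurveField k κ) (P : Pt κ) :
    (Function.support fun v : Place k κ => v.loc P).Finite := by
  refine (Place.finite_ord_ne h (xc P)).subset ?_
  intro v hv
  rw [Function.mem_support] at hv
  intro h0
  apply hv
  simp [Place.loc, h0]

lemma finite_locZ (h : IsCurveField k κ) (P : Pt κ) :
    (Function.support fun v : Place k κ => (v.loc P : ℤ)).Finite := by
  refine (finite_loc h P).subset ?_
  intro v hv
  rw [Function.mem_support] at hv ⊢
  exact_mod_cast hv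

lemma ht_cast (h : IsCurveField k κ) (P : Pt κ) :
    (ht k P : ℤ) = ∑ᶠ v : Place k κ, (v.loc P : ℤ) := by
  unfold ht
  rw [finsum_eq_sum_of_support_subset (s := (finite_loc h P).toFinset) _ (by simp),
    finsum_eq_sum_of_support_subset (s := (finite_loc h P).toFinset) _ (by
      intro v hv
      simp only [Set.Finite.coe_toFinset]
      rw [Function.mem_support] at hv ⊢
      exact_mod_cast hv)]
  push_cast
  rfl

theorem ht_par [CharP κ 7] (h : IsCurveField k κ) (P Q : Pt κ) :
    (ht k (P + Q) : ℤ) + ht k (P - Q) = 2 * ht k P + 2 * ht k Q := by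
  obtain ⟨F, hF, hloc⟩ := addsub_local P Q
  have key : ∀ v : Place k κ, (v.loc (P + Q) : ℤ) + v.loc (P - Q) =
      (2 * v.loc P + 2 * v.loc Q) + v.ord F := by
    intro v
    obtain ⟨gP, hP, eP⟩ := v.exists_genOf P
    obtain ⟨gQ, hQ, eQ⟩ := v.exists_genOf Q
    obtain ⟨gS, hS, eS⟩ := v.exists_genOf (P + Q)
    obtain ⟨gD, hD, eD⟩ := v.exists_genOf (P - Q)
    have h1 := (v.isU_iff.1 (hloc v.ring gP gQ gS gD hP hQ hS hD)).2
    have hP0 := hP.1
    have hQ0 := hQ.1
    have hS0 := hS.1
    have hD0 := hD.1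
    rw [v.ord_div _ _ (mul_ne_zero (mul_ne_zero hF hS0) hD0) (pow_ne_zero _ (mul_ne_zero hP0 hQ0)),
      v.ord_mul _ _ (mul_ne_zero hF hS0) hD0, v.ord_mul _ _ hF hS0,
      v.ord_pow _ _ (mul_ne_zero hP0 hQ0), v.ord_mul _ _ hP0 hQ0, eP, eQ, eS, eD] at h1
    push_cast at h1
    linarith
  have hsF : (Function.support fun v : Place k κ => v.ord F).Finite :=
    (Place.finite_ord_ne h F).subset (fun v hv => hv)
  rw [ht_cast h, ht_cast h, ht_cast h, ht_cast h,
    ← finsum_add_distrib (finite_locZ h _) (finite_locZ h _)]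
  have e1 : (∑ᶠ v : Place k κ, ((v.loc (P + Q) : ℤ) + v.loc (P - Q))) =
      ∑ᶠ v : Place k κ, ((2 * v.loc P + 2 * v.loc Q) + v.ord F) := finsum_congr key
  have m1 : 2 * ∑ᶠ v : Place k κ, (v.loc P : ℤ) = ∑ᶠ v : Place k κ, 2 * (v.loc P : ℤ) :=
    mul_finsum _ (2 : ℤ)
  have m2 : 2 * ∑ᶠ v : Place k κ, (v.loc Q : ℤ) = ∑ᶠ v : Place k κ, 2 * (v.loc Q : ℤ) :=
    mul_finsum _ (2 : ℤ)
  rw [e1, finsum_add_distrib ?_ hsF, Place.sum_ord h F hF, add_zero, finsum_add_distrib ?_ ?_,
    m1, m2]
  · refine (finite_locZ h P).subset ?_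
    intro v hv
    rw [Function.mem_support] at hv ⊢
    intro h0
    apply hv
    rw [h0, mul_zero]
  · refine (finite_locZ h Q).subset ?_
    intro v hv
    rw [Function.mem_support] at hv ⊢
    intro h0
    apply hv
    rw [h0, mul_zero]
  · refine ((finite_locZ h P).union (finite_locZ h Q)).subset ?_
    intro v hv
    rw [Function.mem_support] at hv
    by_contra hcon
    rw [Set.mem_union, not_or, Function.mem_support, Function.mem_support, not_not, not_not] at hcon
    apply hv
    rw [hcon.1, hcon.2]; ring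

omit [IsAlgClosed k] in
lemma ht_omega [CharP κ 7] (P : Pt κ) : ht k (omega P) = ht k P := by
  unfold ht
  apply finsum_congr
  intro v
  unfold Place.loc
  rw [xc_omega]
  by_cases hx : xc P = 0
  · rw [hx, mul_zero]
  · have h4 : (4 : κ) ≠ 0 := by
      have := natCast_ne_zero (K := κ) (n := 4) (by norm_num)
      exact_mod_cast this
    rw [v.ord_mul _ _ h4 hx]
    have := v.ord_algebraMap 4
    rw [map_ofNat] at this
    rw [this, zero_add]

/-- Heights as a quadratic function. -/
noncomputable def htData [CharP κ 7] (h : IsCurveField k κ) : QData (Pt κ) ℤ where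
  H P := ht k P
  par P Q := by
    rw [smul_eq_mul, smul_eq_mul]
    exact ht_par h P Q
  om P := by
    have : Seshadri.om • P = omega P := by
      rw [zw_smul_def]
      simp [Seshadri.om]
    rw [this, ht_omega]
  tf := by
    intro n a hn h
    rw [smul_eq_mul] at h
    exact (mul_eq_zero.1 h).resolve_left hn

lemma ht_eq_finrank [CharP κ 7] (h : IsCurveField k κ) {x y : κ} (hxy : y ^ 2 = x ^ 3 + 1)
    (hx : ∀ c : k, x ≠ algebraMap k κ c) :
    ht k (mk x y hxy) = Module.finrank (IntermediateField.adjoin k {x}) κ := by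
  have hx' : ∀ c : k, x⁻¹ ≠ algebraMap k κ c := by
    intro c hc
    apply hx c⁻¹
    rw [map_inv₀, ← hc, inv_inv]
  have h1 := Place.sum_zeros h x⁻¹ hx'
  have h2 : IntermediateField.adjoin k {x⁻¹} = IntermediateField.adjoin k {x} := by
    apply le_antisymm
    · rw [IntermediateField.adjoin_simple_le_iff]
      exact inv_mem (IntermediateField.mem_adjoin_simple_self k x)
    · rw [IntermediateField.adjoin_simple_le_iff]
      have := inv_mem (IntermediateField.mem_adjoin_simple_self k x⁻¹)
      rwa [inv_inv] at this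
  rw [h2] at h1
  rw [← h1]
  unfold ht
  apply finsum_congr
  intro v
  unfold Place.loc
  rw [xc_mk, v.ord_inv']

omit [IsAlgClosed k] in
lemma ht_eq_zero_of_const [CharP κ 7] {P : Pt κ} {c : k} (h : xc P = algebraMap k κ c) :
    ht k P = 0 := by
  unfold ht
  rw [finsum_eq_zero_of_forall_eq_zero]
  intro v
  unfold Place.loc
  rw [h, v.ord_algebraMap]
  rfl

end Height

end Seshadri
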