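import Mathlib
import Pool.Agent.Helper36.Ses.EC

/-!
# The two points on `E` over the function field of `B`
-/

namespace Seshadri

open Pt Polynomial

section nonsq

lemma not_sq_poly {k : Type} [Field k] [CharP k 7] (y : k[X]) : y ^ 2 ≠ X ^ 6 + 1 := by
  intro h
  have h7 : (7 : k) = 0 := seven_eq_zero
  have h7' : (7 : k[X]) = 0 := by
    have := congrArg (C : k → k[X]) h7
    rwa [map_ofNat, map_zero] at this
  have hd := congrArg derivative h
  rw [derivative_pow] at hd
  simp only [derivative_add, derivative_pow, derivative_X, derivative_one] at hd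
  have hd' : 2 * y * derivative y = 6 * X ^ 5 := by
    have h2 : (C 2 : k[X]) = 2 := map_ofNat C 2
    have h6 : (C 6 : k[X]) = 6 := map_ofNat C 6
    rw [← h2, ← h6]
    simpa using hd
  have hu : IsUnit y := by
    rw [isUnit_iff_dvd_one]
    refine ⟨y + 2 * X * derivative y, ?_⟩
    linear_combination -h - X * hd' - X ^ 6 * h7'
  have hdeg := congrArg natDegree h
  rw [natDegree_pow, natDegree_eq_zero_of_isUnit hu] at hdeg
  have : (X ^ 6 + 1 : k[X]).natDegree = 6 := by
    have : (X ^ 6 + 1 : k[X]) = X ^ 6 + C 1 := by simp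
    rw [this, natDegree_X_pow_add_C]
  rw [this] at hdeg
  norm_num at hdeg

lemma ratFunc_sq {k : Type} [Field k] (r : RatFunc k) (p : k[X])
    (h : r ^ 2 = algebraMap k[X] (RatFunc k) p) : ∃ y : k[X], y ^ 2 = p := by
  obtain ⟨y, hy⟩ := IsIntegrallyClosed.exists_algebraMap_eq_of_isIntegral_pow (R := k[X])
    (K := RatFunc k) (x := r) (n := 2) two_pos (by rw [h]; exact isIntegral_algebraMap)
  refine ⟨y, ?_⟩
  apply IsFractionRing.injective k[X] (RatFunc k)
  rw [map_pow, hy, h]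

lemma not_sq_ratFunc {k : Type} [Field k] [CharP k 7] (r : RatFunc k) :
    r ^ 2 ≠ RatFunc.X ^ 6 + 1 := by
  intro h
  obtain ⟨y, hy⟩ := ratFunc_sq r (X ^ 6 + 1) (by rw [h]; simp)
  exact not_sq_poly y hy

end nonsq

section M

variable (k : Type) [Field k] [CharP k 7]

instance factM : Fact (∀ r : RatFunc k, r ^ 2 ≠ (RatFunc.X ^ 6 + 1) + 0 * r) :=
  ⟨fun r => by rw [zero_mul, add_zero]; exact not_sq_ratFunc r⟩

/-- The function field of `B : w² = z⁶ + 1`. -/
abbrev MB : Type := QuadraticAlgebra (RatFunc k) (RatFunc.X ^ 6 + 1) 0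

instance : CharP (RatFunc k) 7 := charP_of_injective_algebraMap (algebraMap k (RatFunc k)).injective 7

instance : CharP (MB k) 7 :=
  charP_of_injective_algebraMap (algebraMap (RatFunc k) (MB k)).injective 7

/-- the coordinate `z` -/
noncomputable def zM : MB k := algebraMap (RatFunc k) (MB k) RatFunc.X

/-- the coordinate `w` -/
noncomputable def wM : MB k := QuadraticAlgebra.omega

lemma wM_sq : wM k ^ 2 = zM k ^ 6 + 1 := by
  unfold wM zM
  rw [pow_two, QuadraticAlgebra.omega_mul_omega_eq_mk, ← map_pow,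
    ← map_one (algebraMap (RatFunc k) (MB k)), ← map_add]
  rfl

omit [CharP k 7] in
lemma zM_ne : zM k ≠ 0 := by
  unfold zM
  rw [Ne, map_eq_zero_iff _ (algebraMap (RatFunc k) (MB k)).injective]
  exact RatFunc.X_ne_zero

end M

section general

variable {L : Type} [Field L] [CharP L 7]

/-- The point `(z², w)`. -/
noncomputable def pt1 (z w : L) (h : w ^ 2 = z ^ 6 + 1) : Pt L :=
  mk (z ^ 2) w (by rw [h]; ring)

/-- The point `(z⁻², w z⁻³)`. -/
noncomputable def pt2 (z w : L) (hz : z ≠ 0) (h : w ^ 2 = z ^ 6 + 1) : Pt L :=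
  mk (z⁻¹ ^ 2) (w * z⁻¹ ^ 3) (by
    rw [mul_pow, h]; field_simp; ring)

lemma pt1_neg (z w : L) (h : w ^ 2 = z ^ 6 + 1) (h' : w ^ 2 = (-z) ^ 6 + 1) :
    pt1 (-z) w h' = pt1 z w h := mk_congr (by ring) rfl

lemma pt2_neg (z w : L) (hz : z ≠ 0) (h : w ^ 2 = z ^ 6 + 1) (hz' : -z ≠ 0)
    (h' : w ^ 2 = (-z) ^ 6 + 1) :
    pt2 (-z) w hz' h' = -pt2 z w hz h := by
  unfold pt2
  rw [neg_mk _ (by rw [neg_sq, mul_pow, h]; field_simp; ring)]
  apply mk_congr
  · rw [inv_neg]; ring
  · rw [inv_neg]; ring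

variable {L' : Type} [Field L'] [CharP L' 7] (f : L →+* L')

lemma map_pt1 (z w : L) (h : w ^ 2 = z ^ 6 + 1) (h' : f w ^ 2 = f z ^ 6 + 1) :
    Pt.map f (pt1 z w h) = pt1 (f z) (f w) h' := by
  unfold pt1
  rw [map_mk']
  exact mk_congr (by rw [map_pow]) rfl

lemma map_pt2 (z w : L) (hz : z ≠ 0) (h : w ^ 2 = z ^ 6 + 1) (hz' : f z ≠ 0)
    (h' : f w ^ 2 = f z ^ 6 + 1) :
    Pt.map f (pt2 z w hz h) = pt2 (f z) (f w) hz' h' := by
  unfold pt2
  rw [map_mk']
  exact mk_congr (by rw [map_pow, map_inv₀]) (by rw [_root_.map_mul, map_pow, map_inv₀])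

end general

section ev

variable {k : Type} [Field k] [CharP k 7] {L : Type} [Field L] [Algebra k L]

/-- evaluation of rational functions at a transcendental element -/
noncomputable def evF (z : L) (hz : ∀ p : k[X], p ≠ 0 → aeval z p ≠ 0) : RatFunc k →+* L :=
  RatFunc.liftRingHom (aeval z).toRingHom (by
    intro p hp
    simp only [Submonoid.mem_comap, mem_nonZeroDivisors_iff_ne_zero]
    exact hz p (nonZeroDivisors.ne_zero hp))

omit [CharP k 7] in
lemma evF_div (z : L) (hz : ∀ p : k[X], p ≠ 0 → aeval z p ≠ 0) (p s : k[X]) :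
    evF z hz (algebraMap _ _ p / algebraMap _ _ s) = aeval z p / aeval z s :=
  RatFunc.liftRingHom_apply_div _ _ _ _

omit [CharP k 7] in
lemma evF_X (z : L) (hz : ∀ p : k[X], p ≠ 0 → aeval z p ≠ 0) :
    evF z hz RatFunc.X = z := by
  unfold evF
  rw [RatFunc.liftRingHom_X]
  simp

/-- evaluation on the function field of `B` -/
noncomputable def evM (z w : L) (hz : ∀ p : k[X], p ≠ 0 → aeval z p ≠ 0)
    (h : w ^ 2 = z ^ 6 + 1) : MB k →+* L :=
  letI := (evF z hz).toAlgebra
  (QuadraticAlgebra.lift (R := RatFunc k) (A := L) ⟨w, by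
    rw [← pow_two, h, zero_smul, add_zero, Algebra.smul_def, mul_one]
    have : algebraMap (RatFunc k) L = evF z hz := rfl
    rw [this, map_add, map_pow, evF_X, map_one]⟩).toRingHom

omit [CharP k 7] in
lemma evM_algebraMap (z w : L) (hz : ∀ p : k[X], p ≠ 0 → aeval z p ≠ 0)
    (h : w ^ 2 = z ^ 6 + 1) (r : RatFunc k) :
    evM z w hz h (algebraMap (RatFunc k) (MB k) r) = evF z hz r := by
  letI := (evF z hz).toAlgebra
  exact AlgHom.commutes (QuadraticAlgebra.lift (R := RatFunc k) (A := L) ⟨w, by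
    rw [← pow_two, h, zero_smul, add_zero, Algebra.smul_def, mul_one]
    have : algebraMap (RatFunc k) L = evF z hz := rfl
    rw [this, map_add, map_pow, evF_X, map_one]⟩) r

omit [CharP k 7] in
lemma evM_w (z w : L) (hz : ∀ p : k[X], p ≠ 0 → aeval z p ≠ 0)
    (h : w ^ 2 = z ^ 6 + 1) : evM z w hz h (wM k) = w := by
  letI := (evF z hz).toAlgebra
  change (QuadraticAlgebra.lift (R := RatFunc k) (A := L) ⟨w, _⟩) QuadraticAlgebra.omega = w
  simp

omit [CharP k 7] in
lemma evM_z (z w : L) (hz : ∀ p : k[X], p ≠ 0 → aeval z p ≠ 0)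
    (h : w ^ 2 = z ^ 6 + 1) : evM z w hz h (zM k) = z := by
  unfold zM
  rw [evM_algebraMap, evF_X]

/-- The `x`-coordinate of a combination of the two points is a rational function of `z`. -/
lemma star_fix (u : MB k) (h : star u = u) : u = algebraMap (RatFunc k) (MB k) u.re := by
  have him := congrArg QuadraticAlgebra.im h
  rw [QuadraticAlgebra.im_star] at him
  have h2 : (2 : RatFunc k) * u.im = 0 := by linear_combination -him
  have h3 : u.im = 0 := (mul_eq_zero.1 h2).resolve_left two_ne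
  ext
  · rfl
  · rw [h3]; rfl

lemma twistM (α β : Zw) :
    α • pt1 (zM k) (wM k) (wM_sq k) + β • pt2 (zM k) (wM k) (zM_ne k) (wM_sq k) = 0 ∨
    ∃ p s : k[X], IsCoprime p s ∧ s ≠ 0 ∧
      Pt.xRep (α • pt1 (zM k) (wM k) (wM_sq k) + β • pt2 (zM k) (wM k) (zM_ne k) (wM_sq k)) =
        ![algebraMap (RatFunc k) (MB k) (algebraMap _ _ p / algebraMap _ _ s), 1] := by
  set P := α • pt1 (zM k) (wM k) (wM_sq k) + β • pt2 (zM k) (wM k) (zM_ne k) (wM_sq k) with hP
  let σ : MB k →+* MB k := starRingEnd (MB k)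
  have hσz : σ (zM k) = zM k := by
    change star (zM k) = zM k
    ext
    · simp [zM, QuadraticAlgebra.algebraMap_eq]
    · simp [zM, QuadraticAlgebra.algebraMap_eq]
  have hσw : σ (wM k) = -wM k := by
    change star (wM k) = -wM k
    ext
    · simp [wM]
    · simp [wM]
  have hneg : Pt.map σ P = -P := by
    have h1 : Pt.map σ (pt1 (zM k) (wM k) (wM_sq k)) = -pt1 (zM k) (wM k) (wM_sq k) := by
      unfold pt1
      rw [map_mk', neg_mk _ (by rw [neg_sq, wM_sq]; ring)]
      exact mk_congr (by rw [map_pow, hσz]) hσw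
    have h2 : Pt.map σ (pt2 (zM k) (wM k) (zM_ne k) (wM_sq k)) =
        -pt2 (zM k) (wM k) (zM_ne k) (wM_sq k) := by
      unfold pt2
      have hz := zM_ne k
      rw [map_mk', neg_mk _ (by rw [neg_sq, mul_pow, wM_sq]; field_simp; ring)]
      exact mk_congr (by rw [map_pow, map_inv₀, hσz])
        (by rw [_root_.map_mul, map_pow, map_inv₀, hσz, hσw]; ring)
    rw [hP, map_add, map_zw_smul, map_zw_smul, h1, h2, smul_neg, smul_neg]
    abel
  rcases cases P with h | ⟨x, y, hxy, h⟩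
  · exact Or.inl h
  · right
    have hx : star x = x := by
      have := congrArg xc hneg
      rw [xc_map, h, neg_mk hxy (by rw [neg_sq, hxy]), xc_mk, xc_mk] at this
      exact this
    have hx' := star_fix x hx
    refine ⟨x.re.num, x.re.denom, RatFunc.isCoprime_num_denom _, RatFunc.denom_ne_zero _, ?_⟩
    rw [h, xRep_mk, RatFunc.num_div_denom, ← hx']

variable [CharP L 7]

theorem twist (z w : L) (hz : ∀ p : k[X], p ≠ 0 → aeval z p ≠ 0)
    (hz' : ∀ p : k[X], p ≠ 0 → aeval (-z) p ≠ 0) (hz0 : z ≠ 0)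
    (h : w ^ 2 = z ^ 6 + 1) (α β : Zw) :
    (α • pt1 z w h + β • pt2 z w hz0 h = 0 ∧ α • pt1 z w h - β • pt2 z w hz0 h = 0) ∨
    ∃ p s : k[X], IsCoprime p s ∧ s ≠ 0 ∧
      Pt.xRep (α • pt1 z w h + β • pt2 z w hz0 h) = ![aeval z p / aeval z s, 1] ∧
      Pt.xRep (α • pt1 z w h - β • pt2 z w hz0 h) = ![aeval (-z) p / aeval (-z) s, 1] := by
  have h' : w ^ 2 = (-z) ^ 6 + 1 := by rw [h]; ring
  have hz0' : -z ≠ 0 := neg_ne_zero.2 hz0
  have e1 : Pt.map (evM z w hz h)
      (α • pt1 (zM k) (wM k) (wM_sq k) + β • pt2 (zM k) (wM k) (zM_ne k) (wM_sq k)) =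
      α • pt1 z w h + β • pt2 z w hz0 h := by
    rw [map_add, map_zw_smul, map_zw_smul,
      map_pt1 _ _ _ _ (by rw [evM_z, evM_w, h]),
      map_pt2 _ _ _ _ _ (by rw [evM_z]; exact hz0) (by rw [evM_z, evM_w, h])]
    congr 2
    · unfold pt1; exact mk_congr (by rw [evM_z]) (evM_w _ _ _ _)
    · unfold pt2; exact mk_congr (by rw [evM_z]) (by rw [evM_z, evM_w])
  have e2 : Pt.map (evM (-z) w hz' h')
      (α • pt1 (zM k) (wM k) (wM_sq k) + β • pt2 (zM k) (wM k) (zM_ne k) (wM_sq k)) =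
      α • pt1 z w h - β • pt2 z w hz0 h := by
    rw [map_add, map_zw_smul, map_zw_smul,
      map_pt1 _ _ _ _ (by rw [evM_z, evM_w, h']),
      map_pt2 _ _ _ _ _ (by rw [evM_z]; exact hz0') (by rw [evM_z, evM_w, h']),
      sub_eq_add_neg, ← smul_neg, ← pt1_neg z w h h', ← pt2_neg z w hz0 h hz0' h']
    congr 2
    · unfold pt1; exact mk_congr (by rw [evM_z]) (evM_w _ _ _ _)
    · unfold pt2; exact mk_congr (by rw [evM_z]) (by rw [evM_z, evM_w])
  rcases twistM (k := k) α β with h0 | ⟨p, s, hps, hs, hx⟩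
  · left
    rw [← e1, ← e2, h0, map_zero, map_zero]
    exact ⟨rfl, rfl⟩
  · right
    refine ⟨p, s, hps, hs, ?_, ?_⟩
    · rw [← e1]
      funext i
      rw [xRep_map, hx]
      fin_cases i
      · simp only [Fin.zero_eta, Fin.isValue, Matrix.cons_val_zero]
        rw [evM_algebraMap, evF_div]
      · simp
    · rw [← e2]
      funext i
      rw [xRep_map, hx]
      fin_cases i
      · simp only [Fin.zero_eta, Fin.isValue, Matrix.cons_val_zero]
        rw [evM_algebraMap, evF_div]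
      · simp

end ev

end Seshadri
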