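import Mathlib
import Pool.Agent.Helper36.Ses.HeightK
import Pool.Agent.Helper36.Ses.Twist

/-!
# The field `W` of the curves: data
-/

namespace Seshadri

open Pt

/-- The field `W = k(T)(√(1+T⁶))(√M)` with its automorphisms. -/
structure WData (k : Type) [Field k] (n : ℕ) where
  W : Type
  [field : Field W]
  [algebra : Algebra k W]
  [charP : CharP W 7]
  curve : IsCurveField k W
  T : W
  u : W
  m : W
  hu : u ^ 2 = T ^ 6 + 1
  hm : m ^ 2 = 1 + T ^ (2 * 7 ^ n + 2) + 2 * T ^ (4 * 7 ^ n - 2)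
        - 2 * T ^ (7 ^ n - 2) * (1 + T ^ 6) ^ ((7 ^ n + 1) / 2)
  transc : ∀ c : k, T ≠ algebraMap k W c
  adjoin_eq_top : IntermediateField.adjoin k {T, u, m} = ⊤
  deg : Module.finrank (IntermediateField.adjoin k {T}) W = 4
  θ₁ : W ≃ₐ[k] W
  θ₁T : θ₁ T = T
  θ₁u : θ₁ u = u
  θ₁m : θ₁ m = -m
  θ₂ : W ≃ₐ[k] W
  θ₂T : θ₂ T = T
  θ₂u : θ₂ u = -u
  θ₂m : θ₂ m = m

attribute [instance] WData.field WData.algebra WData.charP

/-- The coordinates of the point `b` of `B` over `W` and what we need to know about them. -/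
structure WPoint {k : Type} [Field k] [IsAlgClosed k] [CharP k 7] {n : ℕ} (D : WData k n) where
  z : D.W
  w : D.W
  hT0 : D.T ≠ 0
  hz0 : z ≠ 0
  hw : w ^ 2 = z ^ 6 + 1
  hz : z = D.T * D.m / (1 - D.T ^ (2 * 7 ^ n + 2))
  /-- `P₁(b) = s' + Fⁿ t'` -/
  sum : pt1 z w hw = pt1 D.T D.u D.hu + Fr ^ n • pt2 D.T D.u hT0 D.hu
  /-- an explicit formula for `w`: with `q = 7ⁿ`, `c = 1 + T⁶`,
  `w = -(l (z² - T²) + u)`, `l = u T^{-q} (c^{(q-1)/2} - T^{3q}) / (1 - T^{2q+2})`-/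
  w_eq : w = -(D.u * (D.T⁻¹ ^ (7 ^ n)) * ((1 + D.T ^ 6) ^ ((7 ^ n - 1) / 2) - D.T ^ (3 * 7 ^ n)) /
    (1 - D.T ^ (2 * 7 ^ n + 2)) * (z ^ 2 - D.T ^ 2) + D.u)

end Seshadri
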