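import Mathlib
import Pool.Agent.Helper36.Ses.AddSub

/-!
# Contents of values of coprime polynomials
-/

namespace Seshadri

open Polynomial

variable {K : Type} [Field K]

lemma GenOf.mul_isU {ι : Type} {O : Subring K} {v : ι → K} {g c : K} (h : GenOf O v g)
    (hc : IsU O c) : GenOf O v (g * c) := by
  obtain ⟨h1, h2, i, h3⟩ := h
  refine ⟨mul_ne_zero h1 hc.1, ?_, i, ?_⟩
  · intro j
    have : v j / (g * c) = v j / g * c⁻¹ := by
      have := hc.1; field_simp
    rw [this]
    exact O.mul_mem (h2 j) hc.2.2
  · have : v i / (g * c) = v i / g * c⁻¹ := by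
      have := hc.1; field_simp
    rw [this]
    exact h3.mul hc.inv

lemma GenOf.scale {ι : Type} {O : Subring K} {v : ι → K} {g c : K} (h : GenOf O v g)
    (hc : c ≠ 0) : GenOf O (fun i => c * v i) (c * g) := by
  obtain ⟨h1, h2, i, h3⟩ := h
  refine ⟨mul_ne_zero hc h1, ?_, i, ?_⟩
  · intro j
    rw [mul_div_mul_left _ _ hc]; exact h2 j
  · rw [mul_div_mul_left _ _ hc]; exact h3

section poly

variable {k : Type} [Field k] [Algebra k K] (O : Subring K) [IsLocalRing O]

omit [IsLocalRing O] in
lemma aeval_mem (hk : ∀ c : k, algebraMap k K c ∈ O) {z : K} (hz : z ∈ O) (p : k[X]) :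
    aeval z p ∈ O := by
  rw [aeval_eq_sum_range]
  apply O.sum_mem
  intro i _
  rw [Algebra.smul_def]
  exact O.mul_mem (hk _) (O.pow_mem hz i)

omit [IsLocalRing O] in
lemma const_isU (hk : ∀ c : k, algebraMap k K c ∈ O) {c : k} (hc : c ≠ 0) :
    IsU O (algebraMap k K c) := by
  refine ⟨?_, hk c, ?_⟩
  · rwa [Ne, map_eq_zero_iff _ (algebraMap k K).injective]
  · rw [← map_inv₀]; exact hk _

/-- If `a ∈ O` is a unit of `O` and `b ∈ O` is a non-unit then `a + b` is a unit. -/
lemma isU_add_nonunit {a b : K} (ha : IsU O a) (hb : b ∈ O) (hb' : ¬ IsU O b) :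
    IsU O (a + b) := by
  have h1 : IsLocalRing.residue O ⟨a, ha.2.1⟩ ≠ 0 := (isU_iff_residue ⟨a, ha.2.1⟩).1 ha
  have h2 : IsLocalRing.residue O ⟨b, hb⟩ = 0 := by
    by_contra h
    exact hb' ((isU_iff_residue ⟨b, hb⟩).2 h)
  refine (isU_iff_residue (⟨a, ha.2.1⟩ + ⟨b, hb⟩ : O)).2 ?_
  rw [map_add, h2, add_zero]
  exact h1

lemma not_isU_mul {a b : K} (ha : ¬ IsU O a) (ha' : a ∈ O) (hb : b ∈ O) : ¬ IsU O (a * b) := by
  intro h
  apply ha
  refine ⟨left_ne_zero_of_mul h.1, ha', ?_⟩
  have h1 : a ≠ 0 := left_ne_zero_of_mul h.1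
  have h2 : b ≠ 0 := right_ne_zero_of_mul h.1
  have : a⁻¹ = (a * b)⁻¹ * b := by field_simp
  rw [this]
  exact O.mul_mem h.2.2 hb

lemma exists_coeff_ne {p s : k[X]} (hps : IsCoprime p s) :
    p.coeff (max p.natDegree s.natDegree) ≠ 0 ∨ s.coeff (max p.natDegree s.natDegree) ≠ 0 := by
  rcases le_total s.natDegree p.natDegree with h | h
  · rw [max_eq_left h]
    by_cases hp : p = 0
    · right
      subst hp
      rw [isCoprime_zero_left] at hps
      rw [natDegree_zero]
      intro h0
      have hs : s.natDegree = 0 := natDegree_eq_zero_of_isUnit hps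
      have : s = 0 := by
        rw [eq_C_of_natDegree_eq_zero hs, h0, map_zero]
      exact hps.ne_zero this
    · left
      exact leadingCoeff_ne_zero.2 hp
  · rw [max_eq_right h]
    by_cases hs : s = 0
    · left
      subst hs
      rw [isCoprime_zero_right] at hps
      rw [natDegree_zero]
      intro h0
      have hp : p.natDegree = 0 := natDegree_eq_zero_of_isUnit hps
      have : p = 0 := by
        rw [eq_C_of_natDegree_eq_zero hp, h0, map_zero]
      exact hps.ne_zero this
    · right
      exact leadingCoeff_ne_zero.2 hs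

/-- The value `p(z)/z^D`. -/
lemma aeval_div_pow {z : K} (hz : z ≠ 0) (p : k[X]) {D : ℕ} (hD : p.natDegree ≤ D) :
    aeval z p / z ^ D = ∑ i ∈ Finset.range (D + 1), algebraMap k K (p.coeff i) * z⁻¹ ^ (D - i) := by
  rw [aeval_eq_sum_range' (Nat.lt_succ_of_le hD), Finset.sum_div]
  apply Finset.sum_congr rfl
  intro i hi
  have hi' : i ≤ D := Nat.lt_succ_iff.1 (Finset.mem_range.1 hi)
  rw [Algebra.smul_def, mul_div_assoc]
  congr 1
  rw [div_eq_iff (pow_ne_zero _ hz), inv_pow, inv_mul_eq_div, eq_div_iff (pow_ne_zero _ hz),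
    ← pow_add]
  congr 1
  omega

theorem genOf_poly (hk : ∀ c : k, algebraMap k K c ∈ O) {z : K} (hz : z ∈ O ∨ z⁻¹ ∈ O)
    {p s : k[X]} (hps : IsCoprime p s) {g : K} (hg : GenOf O ![z, 1] g) :
    GenOf O ![aeval z p, aeval z s] (g ^ (max p.natDegree s.natDegree)) := by
  set D := max p.natDegree s.natDegree with hD
  by_cases hzO : z ∈ O
  · have h1 : GenOf O ![z, 1] 1 := by
      refine ⟨one_ne_zero, ?_, 1, ?_⟩
      · intro i
        fin_cases i
        · simpa using hzO
        · simp [O.one_mem]
      · simpa using IsU.one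
    have hu : IsU O g := by
      have := hg.isU h1
      rwa [div_one] at this
    have key : GenOf O ![aeval z p, aeval z s] 1 := by
      have hp := aeval_mem O hk hzO p
      have hs := aeval_mem O hk hzO s
      refine ⟨one_ne_zero, ?_, ?_⟩
      · intro i
        fin_cases i
        · simpa using hp
        · simpa using hs
      · by_contra hcon
        push Not at hcon
        have c0 := hcon 0
        have c1 := hcon 1
        simp only [Matrix.cons_val_zero, Matrix.cons_val_one, div_one] at c0 c1
        obtain ⟨a, b, hab⟩ := hps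
        have e : (aeval z p) * (aeval z a) + (aeval z s) * (aeval z b) = 1 := by
          have := congrArg (aeval z) hab
          rw [map_add, map_mul, map_mul, map_one] at this
          linear_combination this
        have n0 := not_isU_mul O c0 hp (aeval_mem O hk hzO a)
        have n1 := not_isU_mul O c1 hs (aeval_mem O hk hzO b)
        have : IsU O ((aeval z p) * (aeval z a)) := by
          have h2 : (aeval z p) * (aeval z a) = 1 + -((aeval z s) * (aeval z b)) := by
            linear_combination e
          rw [h2]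
          apply isU_add_nonunit O IsU.one
          · exact O.neg_mem (O.mul_mem hs (aeval_mem O hk hzO b))
          · intro h
            apply n1
            have := h.neg
            rwa [neg_neg] at this
        exact n0 this
    have := key.mul_isU (hu.pow D)
    rwa [one_mul] at this
  · have hz' : z⁻¹ ∈ O := hz.resolve_left hzO
    have hz0 : z ≠ 0 := by
      rintro rfl
      exact hzO O.zero_mem
    have hnu : ¬ IsU O z⁻¹ := by
      intro h
      apply hzO
      have := h.2.2
      rwa [inv_inv] at this
    have h1 : GenOf O ![z, 1] z := by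
      refine ⟨hz0, ?_, 0, ?_⟩
      · intro i
        fin_cases i
        · simp [hz0, O.one_mem]
        · simpa using hz'
      · simp [hz0]; exact IsU.one
    have hu : IsU O (g / z) := hg.isU h1
    have mem : ∀ q : k[X], q.natDegree ≤ D → aeval z q / z ^ D ∈ O := by
      intro q hq
      rw [aeval_div_pow hz0 q hq]
      apply O.sum_mem
      intro i _
      exact O.mul_mem (hk _) (O.pow_mem hz' _)
    have unit : ∀ q : k[X], q.natDegree ≤ D → q.coeff D ≠ 0 → IsU O (aeval z q / z ^ D) := by
      intro q hq hc
      rw [aeval_div_pow hz0 q hq, Finset.sum_range_succ, Nat.sub_self, pow_zero, mul_one, add_comm]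
      apply isU_add_nonunit O (const_isU O hk hc)
      · apply O.sum_mem
        intro i _
        exact O.mul_mem (hk _) (O.pow_mem hz' _)
      · have : ∑ i ∈ Finset.range D, algebraMap k K (q.coeff i) * z⁻¹ ^ (D - i) =
            z⁻¹ * ∑ i ∈ Finset.range D, algebraMap k K (q.coeff i) * z⁻¹ ^ (D - i - 1) := by
          rw [Finset.mul_sum]
          apply Finset.sum_congr rfl
          intro i hi
          have hi' : i < D := Finset.mem_range.1 hi
          have e : D - i = (D - i - 1) + 1 := by omega
          conv_lhs => rw [e, pow_succ]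
          ring
        rw [this]
        apply not_isU_mul O hnu hz'
        apply O.sum_mem
        intro i _
        exact O.mul_mem (hk _) (O.pow_mem hz' _)
    have key : GenOf O ![aeval z p, aeval z s] (z ^ D) := by
      refine ⟨pow_ne_zero _ hz0, ?_, ?_⟩
      · intro i
        fin_cases i
        · exact mem p (le_max_left _ _)
        · exact mem s (le_max_right _ _)
      · rcases exists_coeff_ne hps with h | h
        · exact ⟨0, unit p (le_max_left _ _) h⟩
        · exact ⟨1, unit s (le_max_right _ _) h⟩
    have h2 := key.mul_isU (hu.pow D)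
    have e : z ^ D * (g / z) ^ D = g ^ D := by
      rw [← mul_pow]; congr 1; field_simp
    rwa [e] at h2

end poly

end Seshadri
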