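import Mathlib
import Pool.Agent.Helper36.Ses.Val
import Pool.Agent.Helper85.SesLaws

/-!
# Reduction of points of the elliptic curve
-/

open MvPolynomial

namespace Seshadri

open Pt

section Rep

variable {K : Type} [Field K] [CharP K 7]

attribute [simp] vec_zero vec_mk

omit [CharP K 7] in
lemma rep_zero_iff {v : Fin 3 → K} : Rep v 0 ↔ v 0 = 0 ∧ v 1 ≠ 0 ∧ v 2 = 0 := by
  constructor
  · rintro ⟨s, hs, rfl⟩
    simp [hs]
  · rintro ⟨h0, h1, h2⟩
    refine ⟨v 1, h1, ?_⟩
    funext i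
    fin_cases i <;> simp [h0, h2]

lemma rep_mk_iff {v : Fin 3 → K} {x y : K} (h : y ^ 2 = x ^ 3 + 1) :
    Rep v (mk x y h) ↔ v 2 ≠ 0 ∧ v 0 = x * v 2 ∧ v 1 = y * v 2 := by
  constructor
  · rintro ⟨s, hs, rfl⟩
    simp [hs, mul_comm]
  · rintro ⟨h2, h0, h1⟩
    refine ⟨v 2, h2, ?_⟩
    funext i
    fin_cases i <;> simp [h0, h1, mul_comm]

lemma exists_rep {v : Fin 3 → K} (hv : v ≠ 0) (h : v 1 ^ 2 * v 2 = v 0 ^ 3 + v 2 ^ 3) :
    ∃ P : Pt K, Rep v P := by
  by_cases h2 : v 2 = 0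
  · have h0 : v 0 = 0 := by
      rw [h2] at h
      have : v 0 ^ 3 = 0 := by linear_combination -h
      exact pow_eq_zero_iff three_ne_zero |>.1 this
    have h1 : v 1 ≠ 0 := by
      intro h1
      apply hv
      funext i
      fin_cases i
      · exact h0
      · exact h1
      · exact h2
    exact ⟨0, rep_zero_iff.2 ⟨h0, h1, h2⟩⟩
  · have e : (v 1 / v 2) ^ 2 = (v 0 / v 2) ^ 3 + 1 := by
      field_simp
      linear_combination h
    exact ⟨mk (v 0 / v 2) (v 1 / v 2) e, (rep_mk_iff e).2 ⟨h2, by field_simp, by field_simp⟩⟩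

omit [CharP K 7] in
lemma Rep.ne_zero {v : Fin 3 → K} {P : Pt K} (h : Rep v P) : v ≠ 0 := by
  obtain ⟨s, hs, rfl⟩ := h
  intro h
  have h2 : ∀ i, P.vec i = 0 := by
    intro i
    have := congrFun h i
    rw [Pi.smul_apply, smul_eq_mul] at this
    exact (mul_eq_zero.1 this).resolve_left hs
  match P, h2 with
  | WeierstrassCurve.Affine.Point.zero, h2 => exact one_ne_zero (h2 1)
  | WeierstrassCurve.Affine.Point.some x y _, h2 => exact one_ne_zero (h2 2)

lemma Rep.eqn {v : Fin 3 → K} {P : Pt K} (h : Rep v P) :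
    v 1 ^ 2 * v 2 = v 0 ^ 3 + v 2 ^ 3 := by
  rcases cases P with rfl | ⟨x, y, hxy, rfl⟩
  · obtain ⟨h0, h1, h2⟩ := rep_zero_iff.1 h
    rw [h0, h2]; ring
  · obtain ⟨h2, h0, h1⟩ := (rep_mk_iff hxy).1 h
    rw [h0, h1]
    linear_combination v 2 ^ 3 * hxy

lemma Rep.neg {v : Fin 3 → K} {P : Pt K} (h : Rep v P) : Rep ![v 0, -(v 1), v 2] (-P) := by
  rcases cases P with rfl | ⟨x, y, hxy, rfl⟩
  · rw [neg_zero, rep_zero_iff]
    rw [rep_zero_iff] at h
    simpa using h
  · rw [neg_mk hxy (by rw [neg_sq, hxy]), rep_mk_iff]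
    rw [rep_mk_iff] at h
    simp [h.1, h.2.1, h.2.2]

lemma Rep.omega {v : Fin 3 → K} {P : Pt K} (h : Rep v P) :
    Rep ![4 * v 0, v 1, v 2] (omega P) := by
  rcases cases P with rfl | ⟨x, y, hxy, rfl⟩
  · rw [map_zero, rep_zero_iff]
    rw [rep_zero_iff] at h
    simp [h.1, h.2.1, h.2.2]
  · rw [omega_mk, rep_mk_iff]
    rw [rep_mk_iff] at h
    simp [h.1, h.2.1, h.2.2, mul_assoc]

end Rep

namespace ProjVar

variable {k : Type} [Field k] {ι : Type} (X : ProjVar k ι) [CharP X.K 7]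

variable {A : Type} [Field A] [CharP A 7] [Algebra k A] {w : ι → A}

omit [CharP X.K 7] [CharP A 7] in
lemma Red.zero : X.Red w (0 : Pt X.K) (0 : Pt A) := by
  refine ⟨![0, 1, 0], ![0, 1, 0], ?_, rep_zero_iff.2 (by simp), rep_zero_iff.2 (by simp)⟩
  intro j
  fin_cases j
  · exact Value.zero X
  · exact Value.one X
  · exact Value.zero X

lemma Red.neg {P : Pt X.K} {P' : Pt A} (h : X.Red w P P') : X.Red w (-P) (-P') := by
  obtain ⟨p, p', hv, h1, h2⟩ := h
  refine ⟨_, _, ?_, h1.neg, h2.neg⟩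
  intro j
  fin_cases j
  · exact hv 0
  · exact Value.neg X (hv 1)
  · exact hv 2

lemma Red.omega {P : Pt X.K} {P' : Pt A} (h : X.Red w P P') :
    X.Red w (Pt.omega P) (Pt.omega P') := by
  obtain ⟨p, p', hv, h1, h2⟩ := h
  refine ⟨_, _, ?_, h1.omega, h2.omega⟩
  intro j
  fin_cases j
  · refine Value.mul X ?_ (hv 0)
    have := Value.algebraMap X (w := w) 4
    rwa [map_ofNat, map_ofNat] at this
  · exact hv 1
  · exact hv 2

lemma Red.add (hw : IsSpec k X.gen w) {P Q : Pt X.K} {P' Q' : Pt A} (h : X.Red w P P')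
    (h' : X.Red w Q Q') : X.Red w (P + Q) (P' + Q') := by
  obtain ⟨p, p', hv, h1, h2⟩ := h
  obtain ⟨q, q', hv', h1', h2'⟩ := h'
  let p0 : Fin 3 → X.valRing w := fun j => ⟨p j, p' j, hv j⟩
  let q0 : Fin 3 → X.valRing w := fun j => ⟨q j, q' j, hv' j⟩
  obtain ⟨s, hs, hs'⟩ := red_add (X.valRing w).subtype Subtype.val_injective (X.valHom hw)
    P Q P' Q' p0 q0 h1 (by
      have : (fun j => X.valHom hw (p0 j)) = p' := funext fun j => X.valHom_eq hw (hv j)
      rw [this]; exact h2) h1' (by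
      have : (fun j => X.valHom hw (q0 j)) = q' := funext fun j => X.valHom_eq hw (hv' j)
      rw [this]; exact h2')
  exact ⟨_, _, fun j => X.valHom_spec hw (s j), hs, hs'⟩

lemma Red.nsmul (hw : IsSpec k X.gen w) {P : Pt X.K} {P' : Pt A} (h : X.Red w P P') (n : ℕ) :
    X.Red w (n • P) (n • P') := by
  induction n with
  | zero => rw [zero_smul, zero_smul]; exact Red.zero X
  | succ n ih => rw [succ_nsmul, succ_nsmul]; exact Red.add X hw ih h

lemma Red.zsmul (hw : IsSpec k X.gen w) {P : Pt X.K} {P' : Pt A} (h : X.Red w P P') (n : ℤ) :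
    X.Red w (n • P) (n • P') := by
  obtain ⟨m, rfl | rfl⟩ := n.eq_nat_or_neg
  · rw [natCast_zsmul, natCast_zsmul]; exact Red.nsmul X hw h m
  · rw [neg_smul, neg_smul, natCast_zsmul, natCast_zsmul]
    exact Red.neg X (Red.nsmul X hw h m)

lemma Red.zw_smul (hw : IsSpec k X.gen w) {P : Pt X.K} {P' : Pt A} (h : X.Red w P P')
    (α : Zw) : X.Red w (α • P) (α • P') := by
  rw [zw_smul_def, zw_smul_def]
  exact Red.add X hw (Red.zsmul X hw h _) (Red.zsmul X hw (Red.omega X h) _)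

/-- The `x`-coordinate is defined at `w`. -/
lemma Red.xRep' (hw : IsSpec k X.gen w) {P : Pt X.K} {P' : Pt A} (h : X.Red w P P') :
    ∃ i, Pt.xRep P i ≠ 0 ∧ Pt.xRep P' i ≠ 0 ∧ (P' = 0 ∨ i = 1) ∧
      ∀ j, X.Value w (Pt.xRep P j / Pt.xRep P i) (Pt.xRep P' j / Pt.xRep P' i) := by
  obtain ⟨p, p', hv, h1, h2⟩ := h
  rcases cases P with rfl | ⟨x, y, hxy, rfl⟩
  · obtain ⟨e0, e1, e2⟩ := rep_zero_iff.1 h1
    have hP' : P' = 0 := by
      rcases cases P' with h | ⟨x', y', hxy', rfl⟩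
      · exact h
      · exfalso
        have h3 := ((rep_mk_iff hxy').1 h2).1
        have h4 := hv 2
        rw [e2] at h4
        exact h3 (Value.unique X hw h4 (Value.zero X))
    subst hP'
    refine ⟨0, by simp, by simp, Or.inl rfl, ?_⟩
    intro j
    fin_cases j
    · simpa using Value.one X
    · simpa using Value.zero X
  · obtain ⟨e2, e0, e1⟩ := (rep_mk_iff hxy).1 h1
    rcases cases P' with rfl | ⟨x', y', hxy', rfl⟩
    · obtain ⟨e0', e1', e2'⟩ := rep_zero_iff.1 h2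
      have hx : x ≠ 0 := by
        rintro rfl
        rw [zero_mul] at e0
        have h3 : p 2 * (p 1 ^ 2 - p 2 ^ 2) = 0 := by
          have := h1.eqn
          rw [e0] at this
          linear_combination this
        have h4 := (mul_eq_zero.1 h3).resolve_left e2
        have h5 : X.Value w (p 1 ^ 2 - p 2 ^ 2) (p' 1 ^ 2 - p' 2 ^ 2) :=
          Value.sub X (Value.pow X (hv 1) 2) (Value.pow X (hv 2) 2)
        rw [h4, e2'] at h5
        have h6 := Value.unique X hw h5 (Value.zero X)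
        apply e1'
        have : p' 1 ^ 2 = 0 := by linear_combination h6
        exact pow_eq_zero_iff two_ne_zero |>.1 this
      refine ⟨0, by simpa using hx, by simp, Or.inl rfl, ?_⟩
      intro j
      fin_cases j
      · simp [hx]; exact Value.one X
      · simp only [Fin.mk_one, Fin.isValue, xRep_mk, Matrix.cons_val_one,
          Matrix.cons_val_zero, xRep_zero, div_one]
        have h5 : X.Value w (p 1 ^ 2 - p 2 ^ 2) (p' 1 ^ 2 - p' 2 ^ 2) :=
          Value.sub X (Value.pow X (hv 1) 2) (Value.pow X (hv 2) 2)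
        have h6 : p' 1 ^ 2 - p' 2 ^ 2 ≠ 0 := by
          rw [e2']
          intro h
          apply e1'
          have : p' 1 ^ 2 = 0 := by linear_combination h
          exact pow_eq_zero_iff two_ne_zero |>.1 this
        have h7 := Value.div X hw (Value.pow X (hv 0) 2) h5 h6
        have h8 : (1 : X.K) / x = p 0 ^ 2 / (p 1 ^ 2 - p 2 ^ 2) := by
          have h9 : p 1 ^ 2 - p 2 ^ 2 ≠ 0 := by
            intro h
            rw [h] at h5
            exact h6 (Value.unique X hw h5 (Value.zero X))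
          rw [div_eq_div_iff hx h9]
          have := h1.eqn
          have h10 : p 2 * (1 * (p 1 ^ 2 - p 2 ^ 2)) = p 2 * (p 0 ^ 2 * x) := by
            linear_combination this + p 0 ^ 2 * e0
          exact mul_left_cancel₀ e2 h10
        rw [h8]
        rw [e0'] at h7
        simpa using h7
    · obtain ⟨e2', e0', e1'⟩ := (rep_mk_iff hxy').1 h2
      refine ⟨1, by simp, by simp, Or.inr rfl, ?_⟩
      intro j
      fin_cases j
      · simp only [Fin.zero_eta, Fin.isValue, xRep_mk, Matrix.cons_val_zero, Matrix.cons_val_one,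
          div_one]
        have := Value.div X hw (hv 0) (hv 2) e2'
        rw [e0, e0', mul_div_cancel_right₀ _ e2, mul_div_cancel_right₀ _ e2'] at this
        exact this
      · simp; exact Value.one X

lemma Red.xRep (hw : IsSpec k X.gen w) {P : Pt X.K} {P' : Pt A} (h : X.Red w P P') :
    ∃ i, Pt.xRep P i ≠ 0 ∧ Pt.xRep P' i ≠ 0 ∧
      ∀ j, X.Value w (Pt.xRep P j / Pt.xRep P i) (Pt.xRep P' j / Pt.xRep P' i) := by
  obtain ⟨i, h1, h2, -, h3⟩ := Red.xRep' X hw h
  exact ⟨i, h1, h2, h3⟩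

end ProjVar

end Seshadri
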