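import Mathlib
import Pool.Agent.Helper36.Ses.Red
import Pool.Agent.Helper36.Ses.Herm
import Pool.Agent.Helper36.Ses.Content
import Pool.Agent.Helper36.Ses.Twist

/-!
# Classes of line bundles on `X`, up to torsion
-/

open MvPolynomial

namespace Seshadri

open Pt

lemma genOf_omega {K : Type} [Field K] [CharP K 7] {O : Subring K} (h4 : IsU O (4 : K)) {P : Pt K}
    {g : K} (h : GenOf O (xRep P) g) : GenOf O (xRep (omega P)) g := by
  rcases cases P with rfl | ⟨x, y, hxy, rfl⟩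
  · rw [map_zero]
    exact h
  · rw [omega_mk]
    obtain ⟨h0, h1, i, h2⟩ := h
    refine ⟨h0, ?_, i, ?_⟩
    · intro j
      have := h1 j
      fin_cases j
      · simp only [Fin.zero_eta, Fin.isValue, xRep_mk, Matrix.cons_val_zero] at this ⊢
        rw [mul_div_assoc]
        exact Subring.mul_mem _ h4.2.1 this
      · simpa using this
    · fin_cases i
      · simp only [Fin.zero_eta, Fin.isValue, xRep_mk, Matrix.cons_val_zero] at h2 ⊢
        rw [mul_div_assoc]
        exact h4.mul h2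
      · simpa using h2

namespace ProjVar

variable {k : Type} [Field k] {ι : Type} (X : ProjVar k ι)

/-- The family `g` of elements of `K` (one for every closed point) is, up to a torsion class,
given by a rational function. -/
def IsPT (g : X.Point → X.Kˣ) : Prop :=
  ∃ n : ℕ, 0 < n ∧ ∃ h : X.Kˣ, ∀ a : X.Point, IsU (X.valRing a.coord) ((h * g a ^ n : X.Kˣ) : X.K)

/-- The group of such families. -/
def ptSubgroup : Subgroup (X.Point → X.Kˣ) where
  carrier := {g | X.IsPT g}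
  mul_mem' := by
    rintro g g' ⟨n, hn, h, hg⟩ ⟨n', hn', h', hg'⟩
    refine ⟨n * n', Nat.mul_pos hn hn', h ^ n' * h' ^ n, ?_⟩
    intro a
    have e : (h ^ n' * h' ^ n * (g * g') a ^ (n * n') : X.Kˣ) =
        (h * g a ^ n) ^ n' * (h' * g' a ^ n') ^ n := by
      rw [Pi.mul_apply, mul_pow, mul_pow, mul_pow, ← pow_mul, ← pow_mul, mul_comm n' n]
      exact mul_mul_mul_comm _ _ _ _
    rw [e]
    push_cast
    exact ((hg a).pow n').mul ((hg' a).pow n)
  one_mem' := ⟨1, one_pos, 1, fun a => by simpa using IsU.one⟩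
  inv_mem' := by
    rintro g ⟨n, hn, h, hg⟩
    refine ⟨n, hn, h⁻¹, ?_⟩
    intro a
    have e : (h⁻¹ * g⁻¹ a ^ n : X.Kˣ) = (h * g a ^ n)⁻¹ := by
      rw [Pi.inv_apply, mul_inv, inv_pow]
    rw [e]
    push_cast
    exact (hg a).inv

/-- Line bundles up to torsion (not necessarily locally constant families). -/
def Cl : Type := Additive ((X.Point → X.Kˣ) ⧸ X.ptSubgroup)

noncomputable instance : AddCommGroup X.Cl :=
  inferInstanceAs (AddCommGroup (Additive ((X.Point → X.Kˣ) ⧸ X.ptSubgroup)))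

/-- The class of a family. -/
def cls (g : X.Point → X.Kˣ) : X.Cl := Additive.ofMul (QuotientGroup.mk g)

lemma cls_mul (g g' : X.Point → X.Kˣ) : X.cls (g * g') = X.cls g + X.cls g' := rfl

lemma cls_pow (g : X.Point → X.Kˣ) (n : ℕ) : X.cls (g ^ n) = n • X.cls g := rfl

lemma cls_zpow (g : X.Point → X.Kˣ) (n : ℤ) : X.cls (g ^ n) = n • X.cls g := rfl

lemma cls_eq_zero_iff (g : X.Point → X.Kˣ) : X.cls g = 0 ↔ X.IsPT g := by
  have : X.cls g = 0 ↔ (QuotientGroup.mk g : (X.Point → X.Kˣ) ⧸ X.ptSubgroup) = 1 := Iff.rfl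
  rw [this, QuotientGroup.eq_one_iff]
  rfl

lemma cls_eq_of_isU {g g' : X.Point → X.Kˣ} (c : X.Kˣ)
    (h : ∀ a, IsU (X.valRing a.coord) ((c * g a / g' a : X.Kˣ) : X.K)) :
    X.cls g = X.cls g' := by
  have h0 : X.cls (g / g') = 0 := by
    rw [cls_eq_zero_iff]
    refine ⟨1, one_pos, c, ?_⟩
    intro a
    rw [pow_one, Pi.div_apply, ← mul_div_assoc]
    exact h a
  have h1 : X.cls (g / g') = X.cls g - X.cls g' := rfl
  rw [h1] at h0
  exact sub_eq_zero.1 h0

lemma cl_tf (n : ℤ) (a : X.Cl) (hn : n ≠ 0) (h : n • a = 0) : a = 0 := by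
  obtain ⟨g, rfl⟩ : ∃ g, X.cls g = a := by
    obtain ⟨g, hg⟩ := QuotientGroup.mk_surjective
      (Additive.toMul (show Additive ((X.Point → X.Kˣ) ⧸ X.ptSubgroup) from a))
    exact ⟨g, hg⟩
  have key : ∀ m : ℕ, 0 < m → m • X.cls g = 0 → X.cls g = 0 := by
    intro m hm h
    rw [← cls_pow, cls_eq_zero_iff] at h
    obtain ⟨n', hn', c, hc⟩ := h
    rw [cls_eq_zero_iff]
    refine ⟨m * n', Nat.mul_pos hm hn', c, ?_⟩
    intro a
    have := hc a
    rw [Pi.pow_apply, ← pow_mul] at this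
    exact this
  obtain ⟨m, rfl | rfl⟩ := n.eq_nat_or_neg
  · rw [natCast_zsmul] at h
    exact key m (Nat.pos_of_ne_zero (by simpa using hn)) h
  · rw [neg_smul, natCast_zsmul, neg_eq_zero] at h
    exact key m (Nat.pos_of_ne_zero (by simpa using hn)) h

/-- A family of generators of the fractional ideals generated by the entries of `v`. -/
def IsFam {J : Type} (v : J → X.K) (g : X.Point → X.Kˣ) : Prop :=
  ∀ a : X.Point, GenOf (X.valRing a.coord) v (g a : X.K)

lemma IsFam.cls_eq {J : Type} {v : J → X.K} {g g' : X.Point → X.Kˣ} (h : X.IsFam v g)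
    (h' : X.IsFam v g') : X.cls g = X.cls g' := by
  apply X.cls_eq_of_isU 1
  intro a
  rw [one_mul]
  push_cast
  exact (h a).isU (h' a)

lemma IsFam.cls_scale {J : Type} {v : J → X.K} {g g' : X.Point → X.Kˣ} (h : X.IsFam v g)
    (c : X.Kˣ) (h' : X.IsFam (fun i => (c : X.K) * v i) g') : X.cls g' = X.cls g := by
  apply X.cls_eq_of_isU c⁻¹
  intro a
  have h1 := (h a).scale c.ne_zero
  have h2 := (h' a).isU h1
  push_cast
  have e : (c : X.K)⁻¹ * (g' a : X.K) / (g a : X.K) = (g' a : X.K) / ((c : X.K) * (g a : X.K)) := by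
    have := c.ne_zero
    have := (g a).ne_zero
    field_simp
  rw [e]
  exact h2

lemma exists_fam {n : ℕ} {v : Fin n → X.K} (hv : X.IsMorphism v) :
    ∃ g : X.Point → X.Kˣ, X.IsFam v g := by
  choose i hi using hv
  refine ⟨fun a => Units.mk0 (v (i a)) (hi a).1, ?_⟩
  intro a
  exact ((X.isGen_iff v a (i a)).1 (hi a)).2

/-- A family of generators. -/
noncomputable def fam {n : ℕ} {v : Fin n → X.K} (hv : X.IsMorphism v) : X.Point → X.Kˣ :=
  (X.exists_fam hv).choose

lemma isFam_fam {n : ℕ} {v : Fin n → X.K} (hv : X.IsMorphism v) : X.IsFam v (X.fam hv) :=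
  (X.exists_fam hv).choose_spec

section

variable [CharP k 7] [CharP X.K 7]

/-- The points of `E(K)` which are regular everywhere on `X`, i.e. the morphisms `X → E`. -/
def regSub : Submodule Zw (Pt X.K) where
  carrier := {P | ∀ a : X.Point, ∃ P' : Pt k, X.Red a.coord P P'}
  add_mem' := by
    intro P Q hP hQ a
    obtain ⟨P', h⟩ := hP a
    obtain ⟨Q', h'⟩ := hQ a
    exact ⟨_, Red.add X a.mem h h'⟩
  zero_mem' := fun a => ⟨0, Red.zero X⟩
  smul_mem' := by
    intro α P hP a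
    obtain ⟨P', h⟩ := hP a
    exact ⟨_, Red.zw_smul X a.mem h α⟩

lemma exists_isGen {P : Pt X.K} (hP : P ∈ X.regSub) (a : X.Point) :
    ∃ i, X.IsGen (Pt.xRep P) a i := by
  obtain ⟨P', h⟩ := hP a
  obtain ⟨i, h1, h2, h3⟩ := Red.xRep X a.mem h
  exact ⟨i, h1, fun j => ⟨_, h3 j⟩⟩

lemma isMorphism_xRep {P : Pt X.K} (hP : P ∈ X.regSub) : X.IsMorphism (Pt.xRep P) :=
  fun a => X.exists_isGen hP a

/-- The class `x(P)^* 𝒪(1)`. -/
noncomputable def HX (P : X.regSub) : X.Cl := X.cls (X.fam (X.isMorphism_xRep P.2))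

lemma HX_eq (P : X.regSub) {g : X.Point → X.Kˣ} (h : X.IsFam (Pt.xRep (P : Pt X.K)) g) :
    X.HX P = X.cls g := IsFam.cls_eq X (X.isFam_fam _) h

lemma four_isU (a : X.Point) : IsU (X.valRing a.coord) (4 : X.K) := by
  have h4 : (4 : k) ≠ 0 := by
    have := natCast_ne_zero (K := k) (n := 4) (by norm_num)
    exact_mod_cast this
  rw [X.isU_iff a.mem]
  refine ⟨algebraMap k k 4, by simpa using h4, ?_⟩
  have := Value.algebraMap X (w := a.coord) 4
  rwa [map_ofNat] at this

lemma HX_par (P Q : X.regSub) :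
    X.HX (P + Q) + X.HX (P - Q) = (2 : ℤ) • X.HX P + (2 : ℤ) • X.HX Q := by
  obtain ⟨F, hF, hloc⟩ := addsub_local (P : Pt X.K) (Q : Pt X.K)
  unfold HX
  set gS := X.fam (X.isMorphism_xRep (P + Q).2) with hgS
  set gD := X.fam (X.isMorphism_xRep (P - Q).2) with hgD
  set gP := X.fam (X.isMorphism_xRep P.2) with hgP
  set gQ := X.fam (X.isMorphism_xRep Q.2) with hgQ
  rw [← cls_mul, ← cls_zpow, ← cls_zpow, ← cls_mul]
  apply X.cls_eq_of_isU (Units.mk0 F hF)
  intro a
  have := X.isLocalRing_valRing a.mem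
  have h1 := hloc (X.valRing a.coord) (gP a) (gQ a) (gS a) (gD a)
    (X.isFam_fam (X.isMorphism_xRep P.2) a) (X.isFam_fam (X.isMorphism_xRep Q.2) a)
    (X.isFam_fam (X.isMorphism_xRep (P + Q).2) a) (X.isFam_fam (X.isMorphism_xRep (P - Q).2) a)
  have e : ((Units.mk0 F hF * (gS * gD) a / (gP ^ (2 : ℤ) * gQ ^ (2 : ℤ)) a : X.Kˣ) : X.K) =
      F * gS a * gD a / (gP a * gQ a) ^ 2 := by
    simp only [Pi.mul_apply, Pi.pow_apply, Units.val_div_eq_div_val, Units.val_mul, Units.val_mk0,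
      zpow_ofNat, Units.val_pow_eq_pow_val]
    ring
  rw [e]
  exact h1

lemma HX_om (P : X.regSub) : X.HX (Seshadri.om • P) = X.HX P := by
  have hP : ((Seshadri.om • P : X.regSub) : Pt X.K) = omega (P : Pt X.K) := by
    rw [Submodule.coe_smul, zw_smul_def]
    simp [Seshadri.om]
  apply HX_eq
  intro a
  rw [hP]
  exact genOf_omega (X.four_isU a) (X.isFam_fam (X.isMorphism_xRep P.2) a)

/-- The quadratic function `P ↦ x(P)^* 𝒪(1)`. -/
noncomputable def clData : QData X.regSub X.Cl where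
  H := X.HX
  par := X.HX_par
  om := X.HX_om
  tf := X.cl_tf

end

end ProjVar

end Seshadri
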