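import Mathlib
import Pool.Agent.Helper36.Ses.ClassX
import Pool.Agent.Helper21.SesSurface

/-!
# Divisor classes on `E × B`
-/

open MvPolynomial

namespace Seshadri

open Pt

instance charPX {k : Type} [Field k] [CharP k 7] {ι : Type} (X : ProjVar k ι) : CharP X.K 7 :=
  charP_of_injective_algebraMap (algebraMap k X.K).injective 7

section coords

variable {k : Type} [Field k] (g : GenPt k)

noncomputable def sx : (surf g).K := g.x
noncomputable def sy : (surf g).K := g.y
noncomputable def sz : (surf g).K := g.z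
noncomputable def sw : (surf g).K := g.w

lemma sE : sy g ^ 2 = sx g ^ 3 + 1 := g.hE
lemma sB : sw g ^ 2 = sz g ^ 6 + 1 := g.hB

/-- coordinates on `E` -/
noncomputable def sev : Fin 3 → (surf g).K := ![1, sx g, sy g]
/-- coordinates on `B` -/
noncomputable def sbv : Fin 5 → (surf g).K := ![1, sz g, sz g ^ 2, sz g ^ 3, sw g]

lemma sgen (p : Fin 3 × Fin 5) : (surf g).gen p = sev g p.1 * sbv g p.2 := rfl

variable [IsAlgClosed k]

lemma sz_transc (p : Polynomial k) (hp : p ≠ 0) : Polynomial.aeval (sz g) p ≠ 0 := by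
  intro h
  apply hp
  apply Polynomial.eq_zero_of_infinite_isRoot
  have : {x | Polynomial.IsRoot p x} = Set.univ := by
    rw [Set.eq_univ_iff_forall]
    intro c
    obtain ⟨w', hw'⟩ := IsAlgClosed.exists_pow_nat_eq (c ^ 6 + 1) (n := 2) two_pos
    have h1 := g.spec k 0 1 c w' (by ring) hw' (Polynomial.aeval (MvPolynomial.X 2) p) (by
      rw [← Polynomial.aeval_algHom_apply, aeval_X]
      exact h)
    rw [← Polynomial.aeval_algHom_apply, aeval_X] at h1
    simpa using h1
  rw [this]
  exact Set.infinite_univ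

lemma sz_transc' (p : Polynomial k) (hp : p ≠ 0) : Polynomial.aeval (-sz g) p ≠ 0 := by
  have h := sz_transc g (p.comp (-Polynomial.X)) (by
    intro h
    apply hp
    have := congrArg (fun q => q.comp (-Polynomial.X)) h
    simpa [Polynomial.comp_assoc] using this)
  rw [Polynomial.aeval_comp] at h
  simpa using h

lemma sz_ne : sz g ≠ 0 := by
  have := sz_transc g Polynomial.X Polynomial.X_ne_zero
  simpa using this

lemma sw_ne : sw g ≠ 0 := by
  intro h
  have := sB g
  rw [h] at this
  have h2 := sz_transc g (Polynomial.X ^ 6 + 1) (by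
    intro h
    have := congrArg Polynomial.natDegree h
    have e : (Polynomial.X ^ 6 + 1 : Polynomial k) = Polynomial.X ^ 6 + Polynomial.C 1 := by simp
    rw [e, Polynomial.natDegree_X_pow_add_C] at this
    simp at this)
  apply h2
  simp only [map_add, map_pow, Polynomial.aeval_X, map_one]
  rw [← this]; ring

lemma sbv_ne (j : Fin 5) : sbv g j ≠ 0 := by
  have := sz_ne g
  have := sw_ne g
  fin_cases j <;> simp [sbv, *]

end coords

section reps

variable {L : Type} [Field L] [CharP L 7]

lemma rep_pt1_iff {v : Fin 3 → L} {z w : L} (h : w ^ 2 = z ^ 6 + 1) :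
    Rep v (pt1 z w h) ↔ v 2 ≠ 0 ∧ v 0 = z ^ 2 * v 2 ∧ v 1 = w * v 2 := by
  unfold pt1
  exact rep_mk_iff _

lemma rep_pt2_iff {v : Fin 3 → L} {z w : L} (hz : z ≠ 0) (h : w ^ 2 = z ^ 6 + 1) :
    Rep v (pt2 z w hz h) ↔ v 2 ≠ 0 ∧ v 0 = z⁻¹ ^ 2 * v 2 ∧ v 1 = w * z⁻¹ ^ 3 * v 2 := by
  unfold pt2
  exact rep_mk_iff _

end reps

section points

variable {k : Type} [Field k] [IsAlgClosed k] [CharP k 7] (g : GenPt k)

/-- the projection to `E` -/
noncomputable def xE : Pt (surf g).K := mk (sx g) (sy g) (sE g)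

/-- the first morphism `B → E` -/
noncomputable def P1 : Pt (surf g).K := pt1 (sz g) (sw g) (sB g)

/-- the second morphism `B → E` -/
noncomputable def P2 : Pt (surf g).K := pt2 (sz g) (sw g) (sz_ne g) (sB g)

omit [IsAlgClosed k] in
lemma rep_xE (j : Fin 5) (hj : sbv g j ≠ 0) :
    Rep (fun i : Fin 3 => (surf g).gen ((![1, 2, 0] : Fin 3 → Fin 3) i, j)) (xE g) := by
  refine (rep_mk_iff _).2 ⟨?_, ?_, ?_⟩
  · rw [sgen]; simpa [sev] using hj
  · rw [sgen, sgen]; simp [sev]
  · rw [sgen, sgen]; simp [sev]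

omit [IsAlgClosed k] in
lemma rep_P1 (i₀ : Fin 3) (hi : sev g i₀ ≠ 0) :
    Rep (fun i : Fin 3 => (surf g).gen (i₀, (![2, 4, 0] : Fin 3 → Fin 5) i)) (P1 g) := by
  refine (rep_pt1_iff _).2 ⟨?_, ?_, ?_⟩
  · rw [sgen]; simpa [sbv] using hi
  · rw [sgen, sgen]; simp [sbv]; ring
  · rw [sgen, sgen]; simp [sbv]; ring

lemma rep_P2 (i₀ : Fin 3) (hi : sev g i₀ ≠ 0) :
    Rep (fun i : Fin 3 => (surf g).gen (i₀, (![1, 4, 3] : Fin 3 → Fin 5) i)) (P2 g) := by
  have hz := sz_ne g
  refine (rep_pt2_iff _ _).2 ⟨?_, ?_, ?_⟩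
  · rw [sgen]; simpa [sbv, hz] using hi
  · rw [sgen, sgen]; simp [sbv]; field_simp
  · rw [sgen, sgen]; simp [sbv]; field_simp

omit [IsAlgClosed k] [CharP k 7] in
/-- Non-zero coordinates of a closed point. -/
lemma sev_ne_of {a : (surf g).Point} {e : Fin 3 → k} {b : Fin 5 → k} (ha : a.coord = segre e b)
    {i : Fin 3} {j : Fin 5} (hi : e i ≠ 0) (hj : b j ≠ 0) : sev g i ≠ 0 ∧ sbv g j ≠ 0 := by
  have h : a.coord (i, j) ≠ 0 := by
    rw [ha]; exact mul_ne_zero hi hj
  have h1 : (surf g).gen (i, j) ≠ 0 := by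
    intro h0
    apply h
    have := a.mem 1 (MvPolynomial.X (i, j)) (isHomogeneous_X _ _) (by simpa using h0)
    simpa using this
  rw [sgen] at h1
  exact ⟨left_ne_zero_of_mul h1, right_ne_zero_of_mul h1⟩

lemma xE_mem : xE g ∈ (surf g).regSub := by
  intro a
  obtain ⟨e, b, he, hb, hab, hE, -⟩ := surf_point_cases g a
  obtain ⟨i, hi⟩ := Function.ne_iff.1 he
  obtain ⟨j, hj⟩ := Function.ne_iff.1 hb
  obtain ⟨P', hP'⟩ := exists_rep (v := fun i : Fin 3 => a.coord
    ((![1, 2, 0] : Fin 3 → Fin 3) i, j)) (by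
      intro h
      apply hi
      have h0 := congrFun h 0
      have h1 := congrFun h 1
      have h2 := congrFun h 2
      simp only [hab, segre, Matrix.cons_val_zero, Matrix.cons_val_one, Matrix.cons_val,
        Pi.zero_apply] at h0 h1 h2
      fin_cases i
      · exact (mul_eq_zero.1 h2).resolve_right hj
      · exact (mul_eq_zero.1 h0).resolve_right hj
      · exact (mul_eq_zero.1 h1).resolve_right hj) (by
      simp only [hab, segre, Matrix.cons_val_zero, Matrix.cons_val_one, Matrix.cons_val]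
      linear_combination (b j) ^ 3 * hE)
  exact ⟨P', ProjVar.Red.of_coord _ _ (rep_xE g j (sev_ne_of g hab hi hj).2) hP' a.mem⟩

lemma P1_mem : P1 g ∈ (surf g).regSub := by
  intro a
  obtain ⟨e, b, he, hb, hab, -, h1, h2, h3, h4⟩ := surf_point_cases g a
  obtain ⟨i, hi⟩ := Function.ne_iff.1 he
  obtain ⟨j, hj⟩ := Function.ne_iff.1 hb
  obtain ⟨P', hP'⟩ := exists_rep (v := fun l : Fin 3 => a.coord
    (i, (![2, 4, 0] : Fin 3 → Fin 5) l)) (by
      intro h
      apply hb
      have h0' := congrFun h 0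
      have h1' := congrFun h 1
      have h2' := congrFun h 2
      simp only [hab, segre, Matrix.cons_val_zero, Matrix.cons_val_one, Matrix.cons_val,
        Pi.zero_apply] at h0' h1' h2'
      have e2 : b 2 = 0 := (mul_eq_zero.1 h0').resolve_left hi
      have e4 : b 4 = 0 := (mul_eq_zero.1 h1').resolve_left hi
      have e0 : b 0 = 0 := (mul_eq_zero.1 h2').resolve_left hi
      have e1 : b 1 = 0 := by
        have : b 1 ^ 2 = 0 := by rw [h1, e0, zero_mul]
        exact pow_eq_zero_iff two_ne_zero |>.1 this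
      have e3 : b 3 = 0 := by
        have : b 3 ^ 2 = 0 := by rw [e4, e0] at h4; linear_combination -h4
        exact pow_eq_zero_iff two_ne_zero |>.1 this
      funext l
      fin_cases l
      · exact e0
      · exact e1
      · exact e2
      · exact e3
      · exact e4) (by
      simp only [hab, segre, Matrix.cons_val_zero, Matrix.cons_val_one, Matrix.cons_val]
      linear_combination (e i) ^ 3 * b 0 * h4 + (e i) ^ 3 * b 3 * h2 - (e i) ^ 3 * b 2 * h3)
  exact ⟨P', ProjVar.Red.of_coord _ _ (rep_P1 g i (sev_ne_of g hab hi hj).1) hP' a.mem⟩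

lemma P2_mem : P2 g ∈ (surf g).regSub := by
  intro a
  obtain ⟨e, b, he, hb, hab, -, h1, h2, h3, h4⟩ := surf_point_cases g a
  obtain ⟨i, hi⟩ := Function.ne_iff.1 he
  obtain ⟨j, hj⟩ := Function.ne_iff.1 hb
  obtain ⟨P', hP'⟩ := exists_rep (v := fun l : Fin 3 => a.coord
    (i, (![1, 4, 3] : Fin 3 → Fin 5) l)) (by
      intro h
      apply hb
      have h0' := congrFun h 0
      have h1' := congrFun h 1
      have h2' := congrFun h 2
      simp only [hab, segre, Matrix.cons_val_zero, Matrix.cons_val_one, Matrix.cons_val,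
        Pi.zero_apply] at h0' h1' h2'
      have e1 : b 1 = 0 := (mul_eq_zero.1 h0').resolve_left hi
      have e4 : b 4 = 0 := (mul_eq_zero.1 h1').resolve_left hi
      have e3 : b 3 = 0 := (mul_eq_zero.1 h2').resolve_left hi
      have e2 : b 2 = 0 := by
        have : b 2 ^ 2 = 0 := by rw [h3, e1, zero_mul]
        exact pow_eq_zero_iff two_ne_zero |>.1 this
      have e0 : b 0 = 0 := by
        have : b 0 ^ 2 = 0 := by rw [e4, e3] at h4; linear_combination -h4
        exact pow_eq_zero_iff two_ne_zero |>.1 this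
      funext l
      fin_cases l
      · exact e0
      · exact e1
      · exact e2
      · exact e3
      · exact e4) (by
      simp only [hab, segre, Matrix.cons_val_zero, Matrix.cons_val_one, Matrix.cons_val]
      linear_combination (e i) ^ 3 * b 3 * h4 + (e i) ^ 3 * b 0 * h2 - (e i) ^ 3 * b 1 * h1)
  exact ⟨P', ProjVar.Red.of_coord _ _ (rep_P2 g i (sev_ne_of g hab hi hj).1) hP' a.mem⟩

/-- the projection to `E` as an everywhere regular point -/
noncomputable def xE' : (surf g).regSub := ⟨xE g, xE_mem g⟩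
noncomputable def P1' : (surf g).regSub := ⟨P1 g, P1_mem g⟩
noncomputable def P2' : (surf g).regSub := ⟨P2 g, P2_mem g⟩

/-- At every closed point, `z` or `1/z` is regular, together with all coordinates. -/
lemma z_cases (a : (surf g).Point) :
    (sz g ∈ (surf g).valRing a.coord ∧ GenOf ((surf g).valRing a.coord) (sbv g) 1) ∨
    ((sz g)⁻¹ ∈ (surf g).valRing a.coord ∧ GenOf ((surf g).valRing a.coord) (sbv g) (sz g ^ 3)) := by
  obtain ⟨e, b, he, hb, hab, -, h1, h2, h3, h4⟩ := surf_point_cases g a
  obtain ⟨i, hi⟩ := Function.ne_iff.1 he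
  have hz := sz_ne g
  have ratio : ∀ j j', b j' ≠ 0 → sbv g j / sbv g j' ∈ (surf g).valRing a.coord := by
    intro j j' hj'
    have h := sev_ne_of g hab hi hj'
    have hX : (surf g).gen (i, j') ≠ 0 := by rw [sgen]; exact mul_ne_zero h.1 h.2
    have hA : a.coord (i, j') ≠ 0 := by rw [hab]; exact mul_ne_zero hi hj'
    have := ProjVar.Value.coord (surf g) (w := a.coord) (i, j) (i, j') hX hA
    rw [sgen, sgen, mul_div_mul_left _ _ h.1] at this
    exact ⟨_, this⟩
  by_cases hb0 : b 0 = 0
  · right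
    have e1 : b 1 = 0 := by
      have : b 1 ^ 2 = 0 := by rw [h1, hb0, zero_mul]
      exact pow_eq_zero_iff two_ne_zero |>.1 this
    have e2 : b 2 = 0 := by
      have : b 2 ^ 2 = 0 := by rw [h3, e1, zero_mul]
      exact pow_eq_zero_iff two_ne_zero |>.1 this
    have hb3 : b 3 ≠ 0 := by
      intro e3
      apply hb
      have e4 : b 4 = 0 := by
        have : b 4 ^ 2 = 0 := by rw [h4, hb0, e3]; ring
        exact pow_eq_zero_iff two_ne_zero |>.1 this
      funext l
      fin_cases l
      · exact hb0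
      · exact e1
      · exact e2
      · exact e3
      · exact e4
    constructor
    · have := ratio 2 3 hb3
      have e : sbv g 2 / sbv g 3 = (sz g)⁻¹ := by
        simp [sbv]; field_simp
      rwa [e] at this
    · refine ⟨pow_ne_zero _ hz, fun j => ratio j 3 hb3, 3, ?_⟩
      have : sbv g 3 / sz g ^ 3 = 1 := by simp [sbv, hz]
      rw [this]
      exact IsU.one
  · left
    constructor
    · have := ratio 1 0 hb0
      simpa [sbv] using this
    · refine ⟨one_ne_zero, fun j => ratio j 0 hb0, 0, ?_⟩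
      have : sbv g 0 / 1 = 1 := by simp [sbv]
      rw [this]
      exact IsU.one

omit [IsAlgClosed k] [CharP k 7] in
lemma const_mem {ι : Type} (X : ProjVar k ι) (a : X.Point) (c : k) :
    algebraMap k X.K c ∈ X.valRing a.coord := ⟨_, ProjVar.Value.algebraMap X c⟩

lemma z_mem_or (a : (surf g).Point) : sz g ∈ (surf g).valRing a.coord ∨
    (sz g)⁻¹ ∈ (surf g).valRing a.coord := by
  rcases z_cases g a with h | h
  · exact Or.inl h.1
  · exact Or.inr h.1

/-- A family of generators for `(z, 1)`. -/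
lemma exists_zfam : ∃ γ : (surf g).Point → (surf g).Kˣ,
    (surf g).IsFam ![sz g, 1] γ ∧ (surf g).IsFam (sbv g) (γ ^ 3) := by
  classical
  have hz := sz_ne g
  refine ⟨fun a => if sz g ∈ (surf g).valRing a.coord then 1 else Units.mk0 (sz g) hz, ?_, ?_⟩
  · intro a
    dsimp only
    split_ifs with h
    · refine ⟨one_ne_zero, ?_, 1, ?_⟩
      · intro i
        fin_cases i
        · simpa using h
        · simp [Subring.one_mem]
      · simpa using IsU.one
    · have h' := (z_mem_or g a).resolve_left h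
      refine ⟨hz, ?_, 0, ?_⟩
      · intro i
        fin_cases i
        · simp [hz, Subring.one_mem]
        · simpa using h'
      · simp [hz]; exact IsU.one
  · intro a
    rw [Pi.pow_apply]
    split_ifs with h
    · rw [one_pow]
      rcases z_cases g a with h' | h'
      · exact h'.2
      · -- both `z` and `1/z` regular: `z` is a unit
        have hu : IsU ((surf g).valRing a.coord) (sz g) := ⟨hz, h, h'.1⟩
        have := h'.2.mul_isU (hu.pow 3).inv
        rwa [mul_inv_cancel₀ (pow_ne_zero _ hz)] at this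
    · rcases z_cases g a with h' | h'
      · exact absurd h'.1 h
      · exact h'.2

/-- The family `γ`. -/
noncomputable def zfam : (surf g).Point → (surf g).Kˣ := (exists_zfam g).choose

lemma isFam_z : (surf g).IsFam ![sz g, 1] (zfam g) := (exists_zfam g).choose_spec.1

lemma isFam_b : (surf g).IsFam (sbv g) (zfam g ^ 3) := (exists_zfam g).choose_spec.2

lemma isFam_poly {p s : Polynomial k} (h : IsCoprime p s) :
    (surf g).IsFam ![Polynomial.aeval (sz g) p, Polynomial.aeval (sz g) s]
      (zfam g ^ max p.natDegree s.natDegree) := by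
  intro a
  have := (surf g).isLocalRing_valRing a.mem
  rw [Pi.pow_apply, Units.val_pow_eq_pow_val]
  exact genOf_poly _ (const_mem (surf g) a) (z_mem_or g a) h (isFam_z g a)

lemma isFam_poly' {p s : Polynomial k} (h : IsCoprime p s) :
    (surf g).IsFam ![Polynomial.aeval (-sz g) p, Polynomial.aeval (-sz g) s]
      (zfam g ^ max p.natDegree s.natDegree) := by
  intro a
  have := (surf g).isLocalRing_valRing a.mem
  rw [Pi.pow_apply, Units.val_pow_eq_pow_val]
  refine genOf_poly _ (const_mem (surf g) a) ?_ h ?_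
  · rcases z_mem_or g a with h | h
    · exact Or.inl (Subring.neg_mem _ h)
    · right
      rw [inv_neg]
      exact Subring.neg_mem _ h
  · obtain ⟨h0, h1, i, h2⟩ := isFam_z g a
    refine ⟨h0, ?_, i, ?_⟩
    · intro j
      have := h1 j
      fin_cases j
      · simp only [Fin.zero_eta, Fin.isValue, Matrix.cons_val_zero] at this ⊢
        rw [neg_div]
        exact Subring.neg_mem _ this
      · simpa using this
    · fin_cases i
      · simp only [Fin.zero_eta, Fin.isValue, Matrix.cons_val_zero] at h2 ⊢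
        rw [neg_div]
        exact h2.neg
      · simpa using h2

lemma HX_of_ratio {P : (surf g).regSub} {u v : (surf g).K} {γ : (surf g).Point → (surf g).Kˣ}
    (hv : v ≠ 0) (hP : Pt.xRep (P : Pt (surf g).K) = ![u / v, 1])
    (h : (surf g).IsFam ![u, v] γ) : (surf g).HX P = (surf g).cls γ := by
  refine ProjVar.IsFam.cls_scale (surf g) h (Units.mk0 v hv)⁻¹ ?_
  have h1 := (surf g).isFam_fam ((surf g).isMorphism_xRep P.2)
  have e : (fun i => (((Units.mk0 v hv)⁻¹ : (surf g).Kˣ) : (surf g).K) * (![u, v] : Fin 2 → (surf g).K) i) =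
      Pt.xRep (P : Pt (surf g).K) := by
    rw [hP]
    funext i
    fin_cases i
    · simp [div_eq_mul_inv, mul_comm]
    · simp [hv]
  rw [e]
  exact h1

lemma HX_P1 : (surf g).HX (P1' g) = (2 : ℤ) • (surf g).cls (zfam g) := by
  have h := isFam_poly g (p := Polynomial.X ^ 2) (s := 1) isCoprime_one_right
  have e := HX_of_ratio g (P := P1' g) (v := Polynomial.aeval (sz g) (1 : Polynomial k))
    (by simp) (by
      change Pt.xRep (P1 g) = _
      simp [P1, pt1]) h
  rw [e]
  simp only [Polynomial.natDegree_pow, Polynomial.natDegree_X, Polynomial.natDegree_one,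
    ProjVar.cls_pow]
  norm_num
  rfl

lemma HX_P2 : (surf g).HX (P2' g) = (2 : ℤ) • (surf g).cls (zfam g) := by
  have hz := sz_ne g
  have h := isFam_poly g (p := 1) (s := Polynomial.X ^ 2) isCoprime_one_left
  have e := HX_of_ratio g (P := P2' g) (v := Polynomial.aeval (sz g) (Polynomial.X ^ 2 : Polynomial k))
    (by simp [hz]) (by
      change Pt.xRep (P2 g) = _
      simp [P2, pt2]) h
  rw [e]
  simp only [Polynomial.natDegree_pow, Polynomial.natDegree_X, Polynomial.natDegree_one,
    ProjVar.cls_pow]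
  norm_num
  rfl

lemma HX_P2_eq : (surf g).HX (P2' g) = (surf g).HX (P1' g) := by rw [HX_P1, HX_P2]

lemma orth_P1_P2 : (surf g).clData.Orth (P1' g) (P2' g) := by
  apply QData.orth_of_forall
  intro α
  change (surf g).HX (P1' g + α • P2' g) = (surf g).HX (P1' g - α • P2' g)
  have hz := sz_ne g
  have c1 : ((P1' g + α • P2' g : (surf g).regSub) : Pt (surf g).K) =
      (1 : Zw) • pt1 (sz g) (sw g) (sB g) + α • pt2 (sz g) (sw g) hz (sB g) := by
    rw [one_smul]; rfl
  have c2 : ((P1' g - α • P2' g : (surf g).regSub) : Pt (surf g).K) =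
      (1 : Zw) • pt1 (sz g) (sw g) (sB g) - α • pt2 (sz g) (sw g) hz (sB g) := by
    rw [one_smul]; rfl
  rcases twist (k := k) (sz g) (sw g) (sz_transc g) (sz_transc' g) hz (sB g) 1 α with
    ⟨h1, h2⟩ | ⟨p, s, hps, hs, h1, h2⟩
  · have : P1' g + α • P2' g = P1' g - α • P2' g := by
      apply Subtype.ext
      rw [c1, c2, h1, h2]
    rw [this]
  · rw [HX_of_ratio g (sz_transc g s hs) (by rw [c1, h1]) (isFam_poly g hps),
      HX_of_ratio g (sz_transc' g s hs) (by rw [c2, h2]) (isFam_poly' g hps)]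

end points

end Seshadri
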