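import Mathlib
import Pool.Agent.Helper36.Ses.SurfClass

/-!
# Ampleness
-/

open MvPolynomial

namespace Seshadri

section prod

variable {K : Type} [Field K] {O : Subring K}

lemma IsU.zpow {a : K} (ha : IsU O a) (n : ℤ) : IsU O (a ^ n) := by
  obtain ⟨m, rfl | rfl⟩ := n.eq_nat_or_neg
  · rw [zpow_natCast]; exact ha.pow m
  · rw [zpow_neg, zpow_natCast]; exact (ha.pow m).inv

lemma IsU.prod {S : Type} (s : Finset S) (f : S → K) (h : ∀ i ∈ s, IsU O (f i)) :
    IsU O (∏ i ∈ s, f i) := by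
  classical
  induction s using Finset.induction_on with
  | empty => rw [Finset.prod_empty]; exact IsU.one
  | insert a s ha ih =>
    rw [Finset.prod_insert ha]
    exact (h a (Finset.mem_insert_self _ _)).mul (ih fun i hi => h i (Finset.mem_insert_of_mem hi))

lemma GenOf.prod {J J' : Type} {v : J → K} {v' : J' → K} {g g' : K} (h : GenOf O v g)
    (h' : GenOf O v' g') : GenOf O (fun p : J × J' => v p.1 * v' p.2) (g * g') := by
  obtain ⟨h0, h1, i, h2⟩ := h
  obtain ⟨h0', h1', i', h2'⟩ := h'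
  refine ⟨mul_ne_zero h0 h0', ?_, (i, i'), ?_⟩
  · intro p
    rw [mul_div_mul_comm]
    exact O.mul_mem (h1 _) (h1' _)
  · dsimp only
    rw [mul_div_mul_comm]
    exact h2.mul h2'

lemma GenOf.pow {J : Type} {v : J → K} {g : K} (h : GenOf O v g) (n : ℕ) :
    GenOf O (fun p : J => v p ^ n) (g ^ n) := by
  obtain ⟨h0, h1, i, h2⟩ := h
  refine ⟨pow_ne_zero _ h0, ?_, i, ?_⟩
  · intro p
    rw [← div_pow]
    exact O.pow_mem (h1 _) n
  · rw [← div_pow]
    exact h2.pow n

lemma GenOf.comp_equiv {J J' : Type} {v : J → K} {g : K} (h : GenOf O v g) (e : J' ≃ J) :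
    GenOf O (fun p => v (e p)) g := by
  obtain ⟨h0, h1, i, h2⟩ := h
  refine ⟨h0, fun p => h1 _, e.symm i, ?_⟩
  change IsU O (v (e (e.symm i)) / g)
  rw [e.apply_symm_apply]
  exact h2

end prod

namespace ProjVar

variable {k : Type} [Field k] {ι : Type} (X : ProjVar k ι)

lemma isFam_prod {J J' : Type} {v : J → X.K} {v' : J' → X.K} {γ γ' : X.Point → X.Kˣ}
    (h : X.IsFam v γ) (h' : X.IsFam v' γ') :
    X.IsFam (fun p : J × J' => v p.1 * v' p.2) (γ * γ') := by
  intro a
  rw [Pi.mul_apply, Units.val_mul]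
  exact (h a).prod (h' a)

lemma isFam_pow {J : Type} {v : J → X.K} {γ : X.Point → X.Kˣ} (h : X.IsFam v γ) (n : ℕ) :
    X.IsFam (fun p : J => v p ^ n) (γ ^ n) := by
  intro a
  rw [Pi.pow_apply, Units.val_pow_eq_pow_val]
  exact (h a).pow n

lemma isMorphism_of_isFam {n : ℕ} {v : Fin n → X.K} {γ : X.Point → X.Kˣ} (h : X.IsFam v γ) :
    X.IsMorphism v := by
  intro a
  obtain ⟨h0, h1, i, h2⟩ := h a
  have hv : v i ≠ 0 := by
    intro h
    apply h2.1
    rw [h, zero_div]
  refine ⟨i, hv, ?_⟩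
  intro j
  change v j / v i ∈ X.valRing a.coord
  have : v j / v i = (v j / γ a) * (v i / γ a)⁻¹ := by field_simp
  rw [this]
  exact Subring.mul_mem _ (h1 j) h2.2.2

lemma gen_isU {a : X.Point} {i : ι} (hi : a.coord i ≠ 0) : X.gen i ≠ 0 := by
  intro h0
  apply hi
  have := a.mem 1 (MvPolynomial.X i) (isHomogeneous_X _ _) (by simpa using h0)
  simpa using this

/-- **Criterion for very ampleness.** -/
theorem isVeryAmple_of [Fintype ι] (L : X.LineBundle) {J : Type} [Fintype J] (v : J → X.K)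
    (gf δ fL : X.Point → X.Kˣ) (hgf : X.IsFam X.gen gf) (hδ : X.IsFam v δ)
    (hL : ∀ (a : X.Point) (γ : X.K), L.IsGenAt a γ → IsU (X.valRing a.coord) (γ / fL a))
    (h : X.Kˣ) (hh : ∀ a, IsU (X.valRing a.coord) ((h : X.K) * fL a / (gf a * δ a))) :
    L.IsVeryAmple := by
  classical
  let e : Fin (Fintype.card (ι × J)) ≃ ι × J := (Fintype.equivFin (ι × J)).symm
  let η : Fin (Fintype.card (ι × J)) → X.K := fun l => X.gen (e l).1 * v (e l).2
  have hη : X.IsFam η (gf * δ) := fun a => (X.isFam_prod hgf hδ a).comp_equiv e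
  have hm : X.IsMorphism η := X.isMorphism_of_isFam hη
  have hemb : X.IsEmbedding η := by
    refine ⟨hm, ?_⟩
    intro a l hl u hu
    obtain ⟨t, d, F, G, hF, hG, hG0, h1, -⟩ := hu
    -- a coordinate of `a` that does not vanish
    obtain ⟨i₀, hi₀⟩ := Function.ne_iff.1 a.ne_zero
    have hi₀' : a.coord i₀ ≠ 0 := hi₀
    have hX₀ := X.gen_isU hi₀'
    -- an index that generates `δ`
    obtain ⟨hδ0, hδ1, j₀, hδ2⟩ := hδ a
    have hv₀ : v j₀ ≠ 0 := by
      intro h
      apply hδ2.1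
      rw [h, zero_div]
    let f : ι → Fin (Fintype.card (ι × J)) := fun i => e.symm (i, j₀)
    have hf : ∀ i, η (f i) = X.gen i * v j₀ := by
      intro i
      simp [η, f]
    have hren : ∀ (H : MvPolynomial ι k) (d : ℕ), H.IsHomogeneous d →
        aeval η (rename f H) = v j₀ ^ d * aeval X.gen H := by
      intro H d hH
      rw [aeval_rename]
      have e1 : η ∘ f = fun i => X.gen i * v j₀ := funext hf
      rw [e1]
      have := aeval_div_homog X.gen (v j₀)⁻¹ (inv_ne_zero hv₀) hH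
      rw [← this, inv_pow, mul_inv_cancel_left₀ (pow_ne_zero _ hv₀)]
      congr 2
      funext i
      rw [div_inv_eq_mul]
    refine ⟨d, rename f F, rename f G, hF.rename_isHomogeneous, hG.rename_isHomogeneous, ?_, ?_⟩
    · rw [X.unitAt_iff, hren G d hG]
      -- `G(gen)/gen i₀ ^ d` is a unit
      have hG1 : IsU (X.valRing a.coord) (aeval X.gen G / X.gen i₀ ^ d) := by
        rw [X.isU_iff a.mem]
        refine ⟨aeval a.coord G / a.coord i₀ ^ d, div_ne_zero hG0 (pow_ne_zero _ hi₀'), d, G,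
          MvPolynomial.X i₀ ^ d, hG, ?_, ?_, ?_, ?_⟩
        · simpa using (isHomogeneous_X k i₀).pow d
        · rw [map_pow, aeval_X]; exact pow_ne_zero _ hi₀'
        · simp only [map_pow, aeval_X]
          field_simp
        · simp only [map_pow, aeval_X]
          field_simp
      have h2 : IsU (X.valRing a.coord) (η l / (gf a * δ a)) := by
        have := ((X.isGen_iff η a l).1 hl).2.isU (hη a)
        simpa using this
      have h3 : IsU (X.valRing a.coord) (X.gen i₀ / gf a) := by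
        have h4 : GenOf (X.valRing a.coord) X.gen (X.gen i₀) := by
          refine ⟨hX₀, ?_, i₀, ?_⟩
          · intro j
            exact ⟨_, Value.coord X j i₀ hX₀ hi₀⟩
          · rw [div_self hX₀]; exact IsU.one
        exact h4.isU (hgf a)
      have hηl : η l ≠ 0 := hl.1
      have hg0 := (gf a).ne_zero
      have hd0 := (δ a).ne_zero
      have e2 : v j₀ ^ d * aeval X.gen G / η l ^ d = (aeval X.gen G / X.gen i₀ ^ d) *
          ((X.gen i₀ / gf a) ^ d * (v j₀ / δ a) ^ d * ((η l / (gf a * δ a)) ^ d)⁻¹) := by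
        simp only [div_pow, mul_pow]
        field_simp
      rw [e2]
      exact hG1.mul (((h3.pow d).mul (hδ2.pow d)).mul (h2.pow d).inv)
    · rw [hren G d hG, hren F d hF, ← h1]; ring
  refine ⟨_, η, hemb, (h : X.K), h.ne_zero, ?_⟩
  intro a γ γ' hγ hγ'
  obtain ⟨j, hj, hγ'⟩ := hγ'
  let j' : Fin 1 → Fin (Fintype.card (ι × J)) := j
  have hj0 : X.IsGen η a (j' 0) := hj (0 : Fin 1)
  have hγ'' : γ' = ∏ s : Fin 1, η (j' s) ^ (1 : ℤ) := hγ'
  rw [X.unitAt_iff]
  have h1 := hL a γ hγ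
  have h2 := hh a
  have h3 : IsU (X.valRing a.coord) (η (j' 0) / (gf a * δ a)) := by
    have := ((X.isGen_iff η a _).1 hj0).2.isU (hη a)
    simpa using this
  have e3 : (∏ s : Fin 1, η (j' s) ^ (1 : ℤ)) = η (j' 0) := by simp
  rw [hγ'', e3]
  have hηl : η (j' 0) ≠ 0 := hj0.1
  have e4 : (h : X.K) * γ / η (j' 0) = ((h : X.K) * fL a / (gf a * δ a)) * (γ / fL a) *
      (η (j' 0) / (gf a * δ a))⁻¹ := by
    have := (gf a).ne_zero
    have := (δ a).ne_zero
    have := (fL a).ne_zero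
    field_simp
  rw [e4]
  exact (h2.mul h1).mul h3.inv

/-- the family of generators of a line bundle -/
noncomputable def LineBundle.famL {X : ProjVar k ι} (L : X.LineBundle) : X.Point → X.Kˣ :=
  ∏ s, X.fam (L.isMorphism s) ^ (L.e s)

lemma LineBundle.isU_of_isGenAt {X : ProjVar k ι} (L : X.LineBundle) (a : X.Point) (γ : X.K)
    (h : L.IsGenAt a γ) : IsU (X.valRing a.coord) (γ / L.famL a) := by
  obtain ⟨j, hj, rfl⟩ := h
  have e : ((L.famL a : X.Kˣ) : X.K) = ∏ s, ((X.fam (L.isMorphism s) a : X.K)) ^ (L.e s) := by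
    unfold LineBundle.famL
    rw [Finset.prod_apply]
    simp [Units.coe_prod, Units.val_zpow_eq_zpow_val]
  rw [e, ← Finset.prod_div_distrib]
  apply IsU.prod
  intro s _
  rw [← div_zpow]
  exact ((((X.isGen_iff _ a _).1 (hj s)).2).isU (X.isFam_fam (L.isMorphism s) a)).zpow _

lemma LineBundle.famL_pow {X : ProjVar k ι} (L : X.LineBundle) (m : ℤ) :
    (L.pow m).famL = L.famL ^ m := by
  unfold LineBundle.famL
  rw [← Finset.prod_zpow]
  apply Finset.prod_congr rfl
  intro s _
  rw [← zpow_mul, mul_comm]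
  rfl

end ProjVar

end Seshadri
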