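import Mathlib
import Pool.Agent.Helper36.Ses.Ample

/-!
# Ampleness of the line bundles `L`
-/

open MvPolynomial

namespace Seshadri

open Pt

variable {k : Type} [Field k] [IsAlgClosed k] [CharP k 7] (g : GenPt k)

lemma exists_efam_local (a : (surf g).Point) : ∃ c : (surf g).Kˣ,
    GenOf ((surf g).valRing a.coord) (sev g) (c : (surf g).K) ∧
    IsU ((surf g).valRing a.coord) ((c : (surf g).K) ^ 2 /
      ((surf g).fam ((surf g).isMorphism_xRep (xE_mem g)) a : (surf g).K) ^ 3) := by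
  set O := (surf g).valRing a.coord with hO
  set gx := ((surf g).fam ((surf g).isMorphism_xRep (xE_mem g)) a : (surf g).K) with hgx
  have hgx' : GenOf O (Pt.xRep (xE g)) gx :=
    (surf g).isFam_fam ((surf g).isMorphism_xRep (xE_mem g)) a
  obtain ⟨P', p, p', hv, h1, h2⟩ := xE_mem g a
  obtain ⟨e2, e0, e1⟩ := (rep_mk_iff (sE g)).1 h1
  have hmem : ∀ i, p i ∈ O := fun i => ⟨_, hv i⟩
  have hu : ∀ i, p' i ≠ 0 → IsU O (p i) := fun i hi =>
    ((surf g).isU_iff a.mem).2 ⟨p' i, hi, hv i⟩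
  -- `(p 2)⁻¹` generates
  have hgen : GenOf O (sev g) (p 2)⁻¹ := by
    refine ⟨inv_ne_zero e2, ?_, ?_⟩
    · intro i
      fin_cases i
      · simpa [sev] using hmem 2
      · have e : sev g 1 / (p 2)⁻¹ = p 0 := by simp [sev, e0]
        change sev g 1 / (p 2)⁻¹ ∈ O
        rw [e]; exact hmem 0
      · have e : sev g 2 / (p 2)⁻¹ = p 1 := by simp [sev, e1]
        change sev g 2 / (p 2)⁻¹ ∈ O
        rw [e]; exact hmem 1
    · obtain ⟨i, hi⟩ := Function.ne_iff.1 h2.ne_zero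
      have := hu i hi
      fin_cases i
      · refine ⟨1, ?_⟩
        have e : sev g 1 / (p 2)⁻¹ = p 0 := by simp [sev, e0]
        rw [e]; exact this
      · refine ⟨2, ?_⟩
        have e : sev g 2 / (p 2)⁻¹ = p 1 := by simp [sev, e1]
        rw [e]; exact this
      · refine ⟨0, ?_⟩
        have e : sev g 0 / (p 2)⁻¹ = p 2 := by simp [sev]
        rw [e]; exact this
  refine ⟨(Units.mk0 (p 2) e2)⁻¹, by simpa using hgen, ?_⟩
  have hc : (((Units.mk0 (p 2) e2)⁻¹ : (surf g).Kˣ) : (surf g).K) = (p 2)⁻¹ := by simp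
  rw [hc]
  by_cases h20 : p' 2 = 0
  · -- the point reduces to `O`
    have hp0 : p' 0 = 0 := by
      have := h2.eqn
      rw [h20] at this
      have h3 : p' 0 ^ 3 = 0 := by linear_combination -this
      exact pow_eq_zero_iff three_ne_zero |>.1 h3
    have hp1 : p' 1 ≠ 0 := by
      intro hp1
      apply h2.ne_zero
      funext i
      fin_cases i
      · exact hp0
      · exact hp1
      · exact h20
    have hd : IsU O (p 1 ^ 2 - p 2 ^ 2) := by
      refine ((surf g).isU_iff a.mem).2 ⟨p' 1 ^ 2 - p' 2 ^ 2, ?_,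
        ProjVar.Value.sub _ (ProjVar.Value.pow _ (hv 1) 2) (ProjVar.Value.pow _ (hv 2) 2)⟩
      rw [h20]
      intro h
      apply hp1
      have : p' 1 ^ 2 = 0 := by linear_combination h
      exact pow_eq_zero_iff two_ne_zero |>.1 this
    have hx3 : sx g ^ 3 * p 2 ^ 2 = p 1 ^ 2 - p 2 ^ 2 := by
      have := sE g
      rw [e1]
      linear_combination -(p 2) ^ 2 * this
    have hx : sx g ≠ 0 := by
      intro h
      rw [h] at hx3
      apply hd.1
      rw [← hx3]; ring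
    have hinv : (sx g)⁻¹ = p 0 ^ 2 / (p 1 ^ 2 - p 2 ^ 2) := by
      rw [← hx3, e0]
      field_simp
    have hgx2 : GenOf O (Pt.xRep (xE g)) (sx g) := by
      refine ⟨hx, ?_, 0, ?_⟩
      · intro i
        fin_cases i
        · simp [xE, hx]
        · simp only [xE, Fin.mk_one, Fin.isValue, xRep_mk, Matrix.cons_val_one,
            Matrix.cons_val_zero, one_div]
          rw [hinv, div_eq_mul_inv]
          exact O.mul_mem (O.pow_mem (hmem 0) 2) hd.2.2
      · simp [xE, hx]; exact IsU.one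
    have hr := hgx2.isU hgx'
    have hgx0 := hgx'.1
    have e : (p 2)⁻¹ ^ 2 / gx ^ 3 = (p 1 ^ 2 - p 2 ^ 2)⁻¹ * (sx g / gx) ^ 3 := by
      rw [← hx3]
      field_simp
    rw [e]
    exact hd.inv.mul (hr.pow 3)
  · have h2u := hu 2 h20
    have hgx2 : GenOf O (Pt.xRep (xE g)) 1 := by
      refine ⟨one_ne_zero, ?_, 1, ?_⟩
      · intro i
        fin_cases i
        · simp only [xE, Fin.zero_eta, Fin.isValue, xRep_mk, Matrix.cons_val_zero, div_one]
          have : sx g = p 0 * (p 2)⁻¹ := by rw [e0]; field_simp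
          rw [this]
          exact O.mul_mem (hmem 0) h2u.2.2
        · simp [xE]
      · simp [xE]; exact IsU.one
    have hr := hgx2.isU hgx'
    have hgx0 := hgx'.1
    have e : (p 2)⁻¹ ^ 2 / gx ^ 3 = (p 2)⁻¹ ^ 2 * (1 / gx) ^ 3 := by
      field_simp
    rw [e]
    exact (h2u.inv.pow 2).mul (hr.pow 3)

lemma exists_efam : ∃ γ : (surf g).Point → (surf g).Kˣ, (surf g).IsFam (sev g) γ ∧
    (2 : ℤ) • (surf g).cls γ = (3 : ℤ) • (surf g).HX (xE' g) := by
  choose γ h1 h2 using exists_efam_local g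
  refine ⟨γ, h1, ?_⟩
  unfold ProjVar.HX
  rw [← ProjVar.cls_zpow, ← ProjVar.cls_zpow]
  apply (surf g).cls_eq_of_isU 1
  intro a
  rw [one_mul]
  have := h2 a
  have e : (((γ ^ (2 : ℤ)) a / ((surf g).fam ((surf g).isMorphism_xRep (xE' g).2) ^ (3 : ℤ)) a :
      (surf g).Kˣ) : (surf g).K) = (γ a : (surf g).K) ^ 2 /
      ((surf g).fam ((surf g).isMorphism_xRep (xE' g).2) a : (surf g).K) ^ 3 := by
    simp [Units.val_div_eq_div_val, Pi.pow_apply]
  rw [e]
  exact this

/-- **Ampleness criterion on `E × B`**. -/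
theorem isAmple_of (L : (surf g).LineBundle) (φ : (surf g).regSub) (m α β : ℕ) (hm : 0 < m)
    (hα : 0 < α) (hβ : 0 < β)
    (h : (m : ℤ) • (surf g).cls L.famL = (α : ℤ) • (surf g).HX (xE' g) + (surf g).HX φ +
      (β : ℤ) • (surf g).HX (P1' g)) : L.IsAmple := by
  obtain ⟨γE, hγE, hE2⟩ := exists_efam g
  set gf : (surf g).Point → (surf g).Kˣ := γE * zfam g ^ 3 with hgf
  have hfam : (surf g).IsFam (surf g).gen gf := by
    have := (surf g).isFam_prod hγE (isFam_b g)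
    exact this
  have hcls : (2 : ℤ) • (surf g).cls gf = (3 : ℤ) • (surf g).HX (xE' g) +
      (3 : ℤ) • (surf g).HX (P1' g) := by
    have e1 : (surf g).cls gf = (surf g).cls γE + (3 : ℤ) • (surf g).cls (zfam g) := by
      rw [hgf, ProjVar.cls_mul, ← ProjVar.cls_zpow]
      rfl
    rw [e1, smul_add, hE2, HX_P1]
    module
  obtain ⟨α', rfl⟩ : ∃ α', α = α' + 1 := ⟨α - 1, by omega⟩
  obtain ⟨β', rfl⟩ : ∃ β', β = β' + 1 := ⟨β - 1, by omega⟩
  set gx := (surf g).fam ((surf g).isMorphism_xRep (xE' g).2) with hgx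
  set gp := (surf g).fam ((surf g).isMorphism_xRep (P1' g).2) with hgp
  set gφ := (surf g).fam ((surf g).isMorphism_xRep φ.2) with hgφ
  -- the relation in the class group
  have key : (surf g).cls (L.famL ^ (6 * m) * (gf ^ 4 * gx ^ (6 * α') * gp ^ (6 * β') *
      gφ ^ 6)⁻¹) = 0 := by
    have e : (surf g).cls (L.famL ^ (6 * m) * (gf ^ 4 * gx ^ (6 * α') * gp ^ (6 * β') *
        gφ ^ 6)⁻¹) = (6 * m : ℕ) • (surf g).cls L.famL - ((4 : ℕ) • (surf g).cls gf +
        (6 * α' : ℕ) • (surf g).HX (xE' g) + (6 * β' : ℕ) • (surf g).HX (P1' g) +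
        (6 : ℕ) • (surf g).HX φ) := rfl
    rw [e]
    have e1 : (6 * m : ℕ) • (surf g).cls L.famL = (6 : ℤ) • ((m : ℤ) • (surf g).cls L.famL) := by
      rw [smul_smul, ← natCast_zsmul]; push_cast; rfl
    have e2 : (4 : ℕ) • (surf g).cls gf = (2 : ℤ) • ((2 : ℤ) • (surf g).cls gf) := by
      rw [smul_smul, ← natCast_zsmul]; norm_num
    rw [e1, e2, h, hcls]
    push_cast
    simp only [← natCast_zsmul]
    push_cast
    module
  rw [ProjVar.cls_eq_zero_iff] at key
  obtain ⟨n, hn, c, hc⟩ := key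
  -- the very ample power
  refine ⟨(6 * m * n : ℕ), by positivity, ?_⟩
  have hδ := (surf g).isFam_prod ((surf g).isFam_pow hfam (4 * n - 1))
    ((surf g).isFam_prod ((surf g).isFam_pow ((surf g).isFam_fam
        ((surf g).isMorphism_xRep (xE' g).2)) (6 * α' * n))
      ((surf g).isFam_prod ((surf g).isFam_pow ((surf g).isFam_fam
        ((surf g).isMorphism_xRep (P1' g).2)) (6 * β' * n))
        ((surf g).isFam_pow ((surf g).isFam_fam ((surf g).isMorphism_xRep φ.2)) (6 * n))))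
  refine (surf g).isVeryAmple_of (L.pow (6 * m * n : ℕ)) _ gf _ (L.pow (6 * m * n : ℕ)).famL
    hfam hδ (fun a γ h => (L.pow (6 * m * n : ℕ)).isU_of_isGenAt a γ h) c ?_
  intro a
  have h1 := hc a
  rw [ProjVar.LineBundle.famL_pow]
  have e : (c : (surf g).K) * (((L.famL ^ ((6 * m * n : ℕ) : ℤ)) a : (surf g).Kˣ) : (surf g).K) /
      ((gf a : (surf g).K) * (((gf ^ (4 * n - 1) * (gx ^ (6 * α' * n) * (gp ^ (6 * β' * n) *
        gφ ^ (6 * n)))) a : (surf g).Kˣ) : (surf g).K)) =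
      ((c * (L.famL ^ (6 * m) * (gf ^ 4 * gx ^ (6 * α') * gp ^ (6 * β') *
      gφ ^ 6)⁻¹) a ^ n : (surf g).Kˣ) : (surf g).K) := by
    obtain ⟨n', rfl⟩ : ∃ n', n = n' + 1 := ⟨n - 1, by omega⟩
    have e4 : 4 * (n' + 1) - 1 = 4 * n' + 3 := by omega
    rw [e4]
    simp only [Pi.mul_apply, Pi.pow_apply, Pi.inv_apply, Units.val_mul, Units.val_pow_eq_pow_val,
      Units.val_inv_eq_inv_val, zpow_natCast]
    generalize (gf a : (surf g).K) = A
    generalize (gx a : (surf g).K) = B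
    generalize (gp a : (surf g).K) = C
    generalize (gφ a : (surf g).K) = E
    generalize (L.famL a : (surf g).K) = F
    have e5 : A * (A ^ (4 * n' + 3) * (B ^ (6 * α' * (n' + 1)) * (C ^ (6 * β' * (n' + 1)) *
        E ^ (6 * (n' + 1))))) = (A ^ 4 * B ^ (6 * α') * C ^ (6 * β') * E ^ 6) ^ (n' + 1) := by
      ring
    rw [e5]
    generalize A ^ 4 * B ^ (6 * α') * C ^ (6 * β') * E ^ 6 = Z
    rw [mul_pow, inv_pow, ← pow_mul, div_eq_mul_inv, mul_assoc]
  change IsU _ ((c : (surf g).K) * (((L.famL ^ ((6 * m * n : ℕ) : ℤ)) a : (surf g).Kˣ) : (surf g).K) /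
      ((gf a : (surf g).K) * (((gf ^ (4 * n - 1) * (gx ^ (6 * α' * n) * (gp ^ (6 * β' * n) *
        gφ ^ (6 * n)))) a : (surf g).Kˣ) : (surf g).K)))
  rw [e]
  exact h1

/-- The line bundle
`L = x(x)^*𝒪(1)^{w+1} ⊗ x(x+R)^*𝒪(1)^{-1} ⊗ x(R)^*𝒪(1) ⊗ x(P₁)^*𝒪(1)^u`. -/
noncomputable def Lb (w u : ℤ) (R : (surf g).regSub) : (surf g).LineBundle where
  r := 4
  e := ![w + 1, -1, 1, u]
  n := fun _ => 2
  φ := ![Pt.xRep (xE' g : Pt (surf g).K), Pt.xRep ((xE' g + R : (surf g).regSub) : Pt (surf g).K),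
    Pt.xRep (R : Pt (surf g).K), Pt.xRep (P1' g : Pt (surf g).K)]
  isMorphism := by
    intro s
    fin_cases s
    · exact (surf g).isMorphism_xRep (xE' g).2
    · exact (surf g).isMorphism_xRep (xE' g + R).2
    · exact (surf g).isMorphism_xRep R.2
    · exact (surf g).isMorphism_xRep (P1' g).2

lemma cls_Lb (w u : ℤ) (R : (surf g).regSub) :
    (surf g).cls (Lb g w u R).famL = (surf g).clData.Lcls w u (xE' g) R (P1' g) := by
  have e : (Lb g w u R).famL =
      (surf g).fam ((surf g).isMorphism_xRep (xE' g).2) ^ (w + 1) *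
      (surf g).fam ((surf g).isMorphism_xRep (xE' g + R).2) ^ (-1 : ℤ) *
      (surf g).fam ((surf g).isMorphism_xRep R.2) ^ (1 : ℤ) *
      (surf g).fam ((surf g).isMorphism_xRep (P1' g).2) ^ u := by
    unfold ProjVar.LineBundle.famL
    exact Fin.prod_univ_four _
  rw [e]
  have e2 : (surf g).cls ((surf g).fam ((surf g).isMorphism_xRep (xE' g).2) ^ (w + 1) *
      (surf g).fam ((surf g).isMorphism_xRep (xE' g + R).2) ^ (-1 : ℤ) *
      (surf g).fam ((surf g).isMorphism_xRep R.2) ^ (1 : ℤ) *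
      (surf g).fam ((surf g).isMorphism_xRep (P1' g).2) ^ u) =
      (w + 1) • (surf g).HX (xE' g) + (-1 : ℤ) • (surf g).HX (xE' g + R) +
      (1 : ℤ) • (surf g).HX R + u • (surf g).HX (P1' g) := rfl
  rw [e2]
  change _ = (w + 1) • (surf g).HX (xE' g) - (surf g).HX (xE' g + R) + (surf g).HX R +
    u • (surf g).HX (P1' g)
  module

/-- **The line bundles are ample.** -/
theorem isAmple_Lb (u w q : ℕ) (hu : 0 < u) (hw : 0 < w) (hq : 0 < q) (ρ ν : Zw)
    (hν : QuadraticAlgebra.norm ν = (u : ℤ) ^ 2 * q)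
    (hdet : (u : ℤ) * w - QuadraticAlgebra.norm ρ = 1) :
    (Lb g (u * q + w) u (ρ • P1' g + ν • P2' g)).IsAmple := by
  have hid := (surf g).clData.ample_identity (x := xE' g) ρ ν (orth_P1_P2 g) (HX_P2_eq g)
    (u : ℤ) (w : ℤ) (q : ℤ) hν hdet
  have hpos : 1 ≤ 2 * u * (u * q + w) - 1 := by
    have : 1 ≤ u * (u * q + w) := Nat.one_le_iff_ne_zero.2 (by positivity)
    have h2 : 2 * u * (u * q + w) = 2 * (u * (u * q + w)) := by ring
    omega
  have hcast : ((2 * u * (u * q + w) - 1 : ℕ) : ℤ) = 2 * (u : ℤ) * (u * q + w) - 1 := by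
    have : 1 ≤ 2 * u * (u * q + w) := by omega
    push_cast [Nat.cast_sub this]
    ring
  refine isAmple_of g _ ((2 * (u : ℤ) * (u * q + w) - 1) • xE' g -
      (2 * (u : ℤ)) • (ρ • P1' g + ν • P2' g))
    (2 * u * (2 * u * (u * q + w) - 1)) (2 * u * (u * q + w) - 1) (2 * u ^ 2) ?_ hpos
    (by positivity) ?_
  · exact Nat.mul_pos (by positivity) hpos
  · rw [cls_Lb]
    have e1 : ((2 * u * (2 * u * (u * q + w) - 1) : ℕ) : ℤ) =
        2 * u * (2 * (u : ℤ) * (u * q + w) - 1) := by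
      rw [← hcast]; push_cast; ring
    have e2 : ((2 * u ^ 2 : ℕ) : ℤ) = 2 * (u : ℤ) ^ 2 := by push_cast; ring
    rw [e1, e2, hcast]
    exact hid

end Seshadri
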