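import Mathlib
import Pool.Agent.Helper36.Ses.Ample2
import Pool.Agent.Helper36.Ses.WHeights38
import Pool.Agent.Helper51.SesWData

/-!
# Intersection numbers
-/

open MvPolynomial

namespace Seshadri

open Pt

namespace ProjVar

variable {k : Type} [Field k] {ι : Type} (X : ProjVar k ι)

/-- The pole order of a tuple at a place. -/
noncomputable def poleAt {κ : Type} [Field κ] [Algebra k κ] {n : ℕ} (t : Fin n → κ)
    (v : Place k κ) : ℕ := Finset.univ.sup (fun j => (-(v.ord (t j))).toNat)

lemma poleAt_le {κ : Type} [Field κ] [Algebra k κ] {n : ℕ} {t t' : Fin n → κ} {c : κ}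
    (hc : c ≠ 0) (h : ∀ j, t' j = t j / c) (hc' : ∃ i, t i = c) (v : Place k κ) :
    (poleAt t' v : ℤ) ≤ poleAt t v + v.ord c := by
  have h1 : ∀ j, (-(v.ord (t j))) ≤ (poleAt t v : ℤ) := by
    intro j
    have : (-(v.ord (t j))).toNat ≤ poleAt t v :=
      Finset.le_sup (f := fun j => (-(v.ord (t j))).toNat) (Finset.mem_univ j)
    omega
  have h0 : 0 ≤ (poleAt t v : ℤ) + v.ord c := by
    obtain ⟨i, hi⟩ := hc'
    have := h1 i
    rw [hi] at this
    linarith
  have h2 : poleAt t' v ≤ ((poleAt t v : ℤ) + v.ord c).toNat := by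
    apply Finset.sup_le
    intro j _
    by_cases hj : t j = 0
    · rw [h j, hj, zero_div, v.ord_zero]; simp
    · rw [h j, v.ord_div _ _ hj hc]
      have := h1 j
      omega
  omega

lemma Restricts.poleAt_eq {n : ℕ} {φ : Fin n → X.K} {C : X.Curve} {i i' : Fin n}
    {t t' : Fin n → C.toVar.K} (h : X.Restricts φ C i t) (h' : X.Restricts φ C i' t') :
    ∃ c : C.toVar.K, c ≠ 0 ∧ ∀ v : Place k C.toVar.K, (poleAt t' v : ℤ) = poleAt t v + v.ord c := by
  obtain ⟨hi, ht⟩ := h
  obtain ⟨hi', ht'⟩ := h'
  have hti : t i = 1 := Value.unique X C.sub (ht i) (by rw [div_self hi]; exact Value.one X)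
  have hti' : t' i' = 1 := Value.unique X C.sub (ht' i') (by rw [div_self hi']; exact Value.one X)
  have hprod : t i' * t' i = 1 := by
    refine Value.unique X C.sub (Value.mul X (ht i') (ht' i)) ?_
    have : φ i' / φ i * (φ i / φ i') = 1 := by field_simp
    rw [this]
    exact Value.one X
  have hc : t i' ≠ 0 := left_ne_zero_of_mul_eq_one hprod
  have hc' : t' i ≠ 0 := right_ne_zero_of_mul_eq_one hprod
  have e1 : ∀ j, t' j = t j / t i' := by
    intro j
    refine Value.unique X C.sub (ht' j) ?_
    have := Value.div X C.sub (ht j) (ht i') hc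
    have e : φ j / φ i / (φ i' / φ i) = φ j / φ i' := by field_simp
    rwa [e] at this
  have e2 : ∀ j, t j = t' j / t' i := by
    intro j
    refine Value.unique X C.sub (ht j) ?_
    have := Value.div X C.sub (ht' j) (ht' i) hc'
    have e : φ j / φ i' / (φ i / φ i') = φ j / φ i := by field_simp
    rwa [e] at this
  refine ⟨t i', hc, ?_⟩
  intro v
  have l1 := poleAt_le hc e1 ⟨i', rfl⟩ v
  have l2 := poleAt_le hc' e2 ⟨i, rfl⟩ v
  have l3 : v.ord (t' i) = -v.ord (t i') := by
    have : t' i = (t i')⁻¹ := eq_inv_of_mul_eq_one_right hprod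
    rw [this, v.ord_inv]
  linarith

lemma finite_poleAt [IsAlgClosed k] {κ : Type} [Field κ] [Algebra k κ] (hκ : IsCurveField k κ)
    {n : ℕ} (t : Fin n → κ) : (Function.support fun v : Place k κ => (poleAt t v : ℤ)).Finite := by
  refine (Set.finite_iUnion fun j : Fin n => Place.finite_ord_ne hκ (t j)).subset ?_
  intro v hv
  rw [Function.mem_support] at hv
  by_contra hcon
  apply hv
  simp only [Set.mem_iUnion, Set.mem_ofPred_eq, not_exists, not_not] at hcon
  have : poleAt t v = 0 := by
    unfold poleAt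
    apply Nat.le_zero.1
    apply Finset.sup_le
    intro j _
    rw [hcon j]; simp
  rw [this]; rfl

lemma finsum_natCast {α : Type} (f : α → ℕ) (h : (Function.support fun v => (f v : ℤ)).Finite) :
    ((∑ᶠ v, f v : ℕ) : ℤ) = ∑ᶠ v, (f v : ℤ) := by
  have h' : (Function.support f).Finite := by
    refine h.subset ?_
    intro v hv
    rw [Function.mem_support] at hv ⊢
    exact_mod_cast hv
  rw [finsum_eq_sum_of_support_subset (s := h.toFinset) _ (by
      intro v hv
      simp only [Set.Finite.coe_toFinset]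
      rw [Function.mem_support] at hv ⊢
      exact_mod_cast hv),
    finsum_eq_sum_of_support_subset (s := h.toFinset) _ (by simp)]
  push_cast
  rfl

/-- The degree of `φ^* 𝒪(1)` does not depend on the chosen representative. -/
lemma pullDeg_eq [IsAlgClosed k] {n : ℕ} {φ : Fin n → X.K} {C : X.Curve}
    (hκ : IsCurveField k C.toVar.K) {i : Fin n} {t : Fin n → C.toVar.K}
    (h : X.Restricts φ C i t) :
    X.pullDeg φ C = ∑ᶠ v : Place k C.toVar.K, poleAt t v := by
  have hex : ∃ i, ∃ t : Fin n → C.toVar.K, X.Restricts φ C i t := ⟨i, t, h⟩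
  have e : X.pullDeg φ C = ∑ᶠ v : Place k C.toVar.K, poleAt hex.choose_spec.choose v := by
    unfold pullDeg
    rw [dif_pos hex]
    rfl
  obtain ⟨c, hc, hv⟩ := Restricts.poleAt_eq X h hex.choose_spec.choose_spec
  rw [e]
  apply Nat.cast_injective (R := ℤ)
  rw [finsum_natCast _ (finite_poleAt hκ _), finsum_natCast _ (finite_poleAt hκ _),
    finsum_congr hv, finsum_add_distrib (finite_poleAt hκ _)
      ((Place.finite_ord_ne hκ c).subset (fun v hv => hv)), Place.sum_ord hκ c hc, add_zero]

/-- The degree of `x(P)^* 𝒪(1)` on `C` is the height of the restriction of `P` to `C`. -/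
lemma pullDeg_xRep [IsAlgClosed k] [CharP k 7] {C : X.Curve} (hκ : IsCurveField k C.toVar.K)
    {P : Pt X.K} {P' : Pt C.toVar.K} (h : X.Red C.toVar.gen P P') :
    X.pullDeg (Pt.xRep P) C = ht k P' := by
  obtain ⟨i, h1, h2, h3, h4⟩ := Red.xRep' X C.sub h
  have hr : X.Restricts (Pt.xRep P) C i (fun j => Pt.xRep P' j / Pt.xRep P' i) := ⟨h1, h4⟩
  rw [X.pullDeg_eq hκ hr]
  unfold ht
  apply finsum_congr
  intro v
  unfold poleAt Place.loc
  rcases cases P' with rfl | ⟨x, y, hxy, rfl⟩
  · have hi : i = 0 := by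
      by_contra hi
      have : i = 1 := by omega
      rw [this] at h2
      simp at h2
    subst hi
    rw [xc_zero, v.ord_zero]
    apply Nat.le_zero.1
    apply Finset.sup_le
    intro j _
    fin_cases j
    · simp
    · simp [v.ord_zero]
  · have hi : i = 1 := by
      rcases h3 with h3 | h3
      · exact absurd h3 (mk_ne_zero _)
      · exact h3
    subst hi
    rw [xc_mk]
    apply le_antisymm
    · apply Finset.sup_le
      intro j _
      fin_cases j
      · simp
      · simp
    · have := Finset.le_sup (f := fun j : Fin 2 =>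
        (-(v.ord (Pt.xRep (Pt.mk x y hxy) j / Pt.xRep (Pt.mk x y hxy) 1))).toNat)
        (Finset.mem_univ 0)
      simpa using this

end ProjVar

section tower

variable {k κ W : Type} [Field k] [IsAlgClosed k] [Field κ] [Algebra k κ]
  [Field W] [Algebra k W]

omit [IsAlgClosed k] in
lemma exists_nonconst (hκ : IsCurveField k κ) : ∃ x : κ, ∀ c : k, x ≠ algebraMap k κ c := by
  by_contra hcon
  push Not at hcon
  have h1 : Algebra.IsAlgebraic k κ := ⟨fun x => by
    obtain ⟨c, hc⟩ := hcon x
    rw [hc]
    exact isAlgebraic_algebraMap c⟩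
  have h2 := hκ.trdeg
  rw [_root_.trdeg_eq_zero_iff.2 h1] at h2
  exact zero_ne_one h2

omit [IsAlgClosed k] in
lemma finrank_adjoin_map (j : κ →ₐ[k] W) (x : κ) [Algebra κ W]
    (hj : ∀ z, algebraMap κ W z = j z) :
    Module.finrank (IntermediateField.adjoin k {j x}) W =
      Module.finrank (IntermediateField.adjoin k {x}) W := by
  have e1 : (IntermediateField.adjoin k {x}).map j = IntermediateField.adjoin k {j x} := by
    rw [IntermediateField.adjoin_map, Set.image_singleton]
  rw [← e1]
  symm
  refine Algebra.finrank_eq_of_equiv_equiv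
    (IntermediateField.equivMap (IntermediateField.adjoin k {x}) j).toRingEquiv
    (RingEquiv.refl W) ?_
  ext z
  show j z = algebraMap κ W z
  rw [hj]

/-- Heights in an extension. -/
lemma ht_map [CharP κ 7] [CharP W 7] (hκ : IsCurveField k κ) (hW : IsCurveField k W)
    (j : κ →ₐ[k] W) :
    ∃ d : ℕ, 0 < d ∧ ∀ P : Pt κ, ht k (Pt.map (j : κ →+* W) P) = d * ht k P := by
  let _ : Algebra κ W := j.toRingHom.toAlgebra
  have : IsScalarTower k κ W := IsScalarTower.of_algebraMap_eq fun x => (j.commutes x).symm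
  have hj : ∀ z, algebraMap κ W z = j z := fun z => rfl
  have hnc : ∀ x : κ, (∀ c : k, x ≠ algebraMap k κ c) → ∀ c : k, j x ≠ algebraMap k W c := by
    intro x hx c hc
    apply hx c
    apply (j : κ →+* W).injective
    rw [AlgHom.coe_toRingHom, hc, ← j.commutes c]
  obtain ⟨x₀, hx₀⟩ := exists_nonconst hκ
  have hfin : Module.Finite (IntermediateField.adjoin k {x₀}) W := by
    apply Module.finite_of_finrank_pos
    rw [← finrank_adjoin_map j x₀ hj]
    have := Place.finite_adjoin hW (j x₀) (hnc x₀ hx₀)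
    exact Module.finrank_pos
  have hfin2 : Module.Finite κ W := Module.Finite.of_restrictScalars_finite
    (IntermediateField.adjoin k {x₀}) κ W
  refine ⟨Module.finrank κ W, Module.finrank_pos, ?_⟩
  intro P
  rcases cases P with rfl | ⟨x, y, h, rfl⟩
  · rw [map_zero, ht_eq_zero_of_const (c := (0 : k)) (by rw [xc_zero, map_zero]),
      ht_eq_zero_of_const (c := (0 : k)) (by rw [xc_zero, map_zero]), mul_zero]
  · rw [map_mk']
    by_cases hx : ∀ c : k, x ≠ algebraMap k κ c
    · rw [ht_eq_finrank hκ h hx, mul_comm,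
        Module.finrank_mul_finrank (IntermediateField.adjoin k {x}) κ W,
        ← finrank_adjoin_map j x hj]
      exact ht_eq_finrank hW _ (hnc x hx)
    · push Not at hx
      obtain ⟨c, hc⟩ := hx
      rw [ht_eq_zero_of_const (P := mk x y h) (c := c) (by rw [xc_mk, hc]), mul_zero]
      exact ht_eq_zero_of_const (c := c) (by rw [xc_mk, hc]; exact j.commutes c)

end tower

end Seshadri
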