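import Mathlib
import Pool.Agent.Helper36.Ses.Inter
import Pool.Agent.Helper21.SesCurve

/-!
# The numbers `L · C_n`
-/

open MvPolynomial

namespace Seshadri

open Pt

variable {k : Type} [Field k] [IsAlgClosed k] [CharP k 7] (g : GenPt k)

/-- The coordinates of a curve in `E × B` which is the image of a curve over which the point
`(X, Y)` of `E` and the point `(z, w)` of `B` are given. -/
lemma curve_reds (C : (surf g).Curve) {W : Type} [Field W] [Algebra k W] [CharP W 7]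
    (j : C.toVar.K →ₐ[k] W) {X Y z w : W} (hE : Y ^ 2 = X ^ 3 + 1) (hB : w ^ 2 = z ^ 6 + 1)
    (hz : z ≠ 0)
    (hj : ∀ p, j (C.toVar.gen p) = segre ![1, X, Y] ![1, z, z ^ 2, z ^ 3, w] p) :
    ∃ x' P1' P2' : Pt C.toVar.K,
      (surf g).Red C.toVar.gen (xE g) x' ∧ (surf g).Red C.toVar.gen (P1 g) P1' ∧
      (surf g).Red C.toVar.gen (P2 g) P2' ∧
      Pt.map (j : C.toVar.K →+* W) x' = mk X Y hE ∧
      Pt.map (j : C.toVar.K →+* W) P1' = pt1 z w hB ∧
      Pt.map (j : C.toVar.K →+* W) P2' = pt2 z w hz hB := by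
  set c := C.toVar.gen
  have hinj : Function.Injective j := (j : C.toVar.K →+* W).injective
  have e00 : c (0, 0) = 1 := by
    apply hinj; rw [hj, map_one]; simp [segre]
  have e10 : j (c (1, 0)) = X := by rw [hj]; simp [segre]
  have e20 : j (c (2, 0)) = Y := by rw [hj]; simp [segre]
  have e01 : j (c (0, 1)) = z := by rw [hj]; simp [segre]
  have e04 : j (c (0, 4)) = w := by rw [hj]; simp [segre]
  have e02 : c (0, 2) = c (0, 1) ^ 2 := by
    apply hinj; rw [hj, map_pow, e01]; simp [segre]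
  have e03 : c (0, 3) = c (0, 1) ^ 3 := by
    apply hinj; rw [hj, map_pow, e01]; simp [segre]
  have hEc : c (2, 0) ^ 2 = c (1, 0) ^ 3 + 1 := by
    apply hinj; rw [map_pow, map_add, map_pow, map_one, e10, e20, hE]
  have hBc : c (0, 4) ^ 2 = c (0, 1) ^ 6 + 1 := by
    apply hinj; rw [map_pow, map_add, map_pow, map_one, e01, e04, hB]
  have hzc : c (0, 1) ≠ 0 := by
    intro h
    apply hz
    rw [← e01, h, map_zero]
  have hs0 : sev g 0 ≠ 0 := by simp [sev]
  have hb0 : sbv g 0 ≠ 0 := by simp [sbv]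
  refine ⟨mk (c (1, 0)) (c (2, 0)) hEc, pt1 (c (0, 1)) (c (0, 4)) hBc,
    pt2 (c (0, 1)) (c (0, 4)) hzc hBc, ?_, ?_, ?_, ?_, ?_, ?_⟩
  · refine ProjVar.Red.of_coord _ _ (rep_xE g 0 hb0) ((rep_mk_iff _).2 ⟨?_, ?_, ?_⟩) C.sub
    · simp [e00]
    · simp [e00]
    · simp [e00]
  · refine ProjVar.Red.of_coord _ _ (rep_P1 g 0 hs0) ((rep_pt1_iff _).2 ⟨?_, ?_, ?_⟩) C.sub
    · simp [e00]
    · simp [e00, e02]
    · simp [e00]
  · refine ProjVar.Red.of_coord _ _ (rep_P2 g 0 hs0) ((rep_pt2_iff _ _).2 ⟨?_, ?_, ?_⟩) C.sub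
    · simp [e03, hzc]
    · simp [e03]; field_simp
    · simp [e03]; field_simp
  · rw [map_mk']
    exact mk_congr e10 e20
  · unfold pt1
    rw [map_mk']
    refine mk_congr ?_ e04
    rw [map_pow]
    exact congrArg (· ^ 2) e01
  · unfold pt2
    rw [map_mk']
    refine mk_congr ?_ ?_
    · rw [map_pow, map_inv₀]
      exact congrArg (fun t => t⁻¹ ^ 2) e01
    · rw [map_mul, map_pow, map_inv₀]
      have h1 : ((j : C.toVar.K →+* W)) (c (0, 1)) = z := e01
      have h2 : ((j : C.toVar.K →+* W)) (c (0, 4)) = w := e04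
      rw [h1, h2]

/-- The intersection number of `L` with a curve. -/
lemma inter_Lb (C : (surf g).Curve) (hκ : IsCurveField k C.toVar.K) (w u : ℤ)
    (R : (surf g).regSub) {x' R' P1' : Pt C.toVar.K}
    (hx : (surf g).Red C.toVar.gen (xE g) x') (hR : (surf g).Red C.toVar.gen (R : Pt (surf g).K) R')
    (hP : (surf g).Red C.toVar.gen (P1 g) P1') :
    (Lb g w u R).inter C = (htData hκ).Lcls w u x' R' P1' := by
  have e : (Lb g w u R).inter C =
      (w + 1) * ((surf g).pullDeg (Pt.xRep (xE g)) C : ℤ) +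
      (-1) * ((surf g).pullDeg (Pt.xRep (xE g + (R : Pt (surf g).K))) C : ℤ) +
      1 * ((surf g).pullDeg (Pt.xRep (R : Pt (surf g).K)) C : ℤ) +
      u * ((surf g).pullDeg (Pt.xRep (P1 g)) C : ℤ) := by
    unfold ProjVar.LineBundle.inter
    exact Fin.sum_univ_four _
  rw [e, (surf g).pullDeg_xRep hκ hx, (surf g).pullDeg_xRep hκ hR, (surf g).pullDeg_xRep hκ hP,
    (surf g).pullDeg_xRep hκ (ProjVar.Red.add _ C.sub hx hR)]
  change _ = (w + 1) • (ht k x' : ℤ) - (ht k (x' + R') : ℤ) + (ht k R' : ℤ) + u • (ht k P1' : ℤ)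
  simp only [smul_eq_mul]
  ring

end Seshadri
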