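import Mathlib
import Pool.Agent.Helper36.Ses.CurveInter
import Pool.Agent.Helper85.SesArith
import Pool.Agent.Helper51.SesGeneric

/-!
# The Seshadri constants of `E × B`
-/

open MvPolynomial

namespace Seshadri

open Pt

variable {k : Type} [Field k] [IsAlgClosed k] [CharP k 7] (g : GenPt k)

lemma pow_seven_eq {W : Type} [Field W] [CharP W 7] {z w : W} (h : w ^ 2 = z ^ 6 + 1) (n : ℕ) :
    (w ^ 7 ^ n) ^ 2 = (z ^ 7 ^ n) ^ 6 + 1 := by
  have : Fact (Nat.Prime 7) := ⟨by norm_num⟩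
  rw [← pow_mul, mul_comm, pow_mul, h, add_pow_char_pow, one_pow, ← pow_mul, ← pow_mul,
    mul_comm 6]

lemma pow_seven_eq' {W : Type} [Field W] [CharP W 7] {x y : W} (h : y ^ 2 = x ^ 3 + 1) (n : ℕ) :
    (y ^ 7 ^ n) ^ 2 = (x ^ 7 ^ n) ^ 3 + 1 := by
  have : Fact (Nat.Prime 7) := ⟨by norm_num⟩
  rw [← pow_mul, mul_comm, pow_mul, h, add_pow_char_pow, one_pow, ← pow_mul, ← pow_mul,
    mul_comm 3]

lemma fr_pt1 {W : Type} [Field W] [Algebra k W] [CharP W 7] {z w : W} (h : w ^ 2 = z ^ 6 + 1)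
    (hz : ∀ c : k, z ≠ algebraMap k W c) (n : ℕ) :
    pt1 (z ^ 7 ^ n) (w ^ 7 ^ n) (pow_seven_eq h n) = Fr ^ n • pt1 z w h := by
  have hz2 : ∀ c : k, z ^ 2 ≠ algebraMap k W c := by
    intro c hc
    obtain ⟨s, hs⟩ := IsAlgClosed.exists_pow_nat_eq c (n := 2) two_pos
    rw [← hs, map_pow, sq_eq_sq_iff_eq_or_eq_neg, ← map_neg] at hc
    rcases hc with hc | hc
    · exact hz _ hc
    · exact hz _ hc
  have := frob_pow_mk (k := k) (x := z ^ 2) (y := w) (by rw [h]; ring) hz2 n (by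
    rw [pow_seven_eq h n]; ring)
  unfold pt1
  rw [← this]
  exact mk_congr (by ring) rfl

lemma fr_pt2 {W : Type} [Field W] [Algebra k W] [CharP W 7] {z w : W} (h : w ^ 2 = z ^ 6 + 1)
    (hz0 : z ≠ 0) (hz : ∀ c : k, z ≠ algebraMap k W c) (n : ℕ) :
    pt2 (z ^ 7 ^ n) (w ^ 7 ^ n) (pow_ne_zero _ hz0) (pow_seven_eq h n) =
      Fr ^ n • pt2 z w hz0 h := by
  have hz2 : ∀ c : k, z⁻¹ ^ 2 ≠ algebraMap k W c := by
    intro c hc
    obtain ⟨s, hs⟩ := IsAlgClosed.exists_pow_nat_eq c (n := 2) two_pos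
    rw [← hs, map_pow, sq_eq_sq_iff_eq_or_eq_neg, ← map_neg] at hc
    rcases hc with hc | hc
    · apply hz s⁻¹
      rw [map_inv₀, ← hc, inv_inv]
    · apply hz (-s)⁻¹
      rw [map_inv₀, ← hc, inv_inv]
  have e : (w * z⁻¹ ^ 3) ^ 2 = (z⁻¹ ^ 2) ^ 3 + 1 := by
    rw [mul_pow, h]; field_simp; ring
  have := frob_pow_mk (k := k) (x := z⁻¹ ^ 2) (y := w * z⁻¹ ^ 3) e hz2 n (pow_seven_eq' e n)
  unfold pt2
  rw [← this]
  exact mk_congr (by rw [← inv_pow]; ring) (by rw [← inv_pow, mul_pow]; ring)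

omit [CharP k 7] in
lemma Lcls_map {κ W : Type} [Field κ] [Field W] [Algebra k κ] [Algebra k W] [CharP κ 7]
    [CharP W 7] (hκ : IsCurveField k κ) (hW : IsCurveField k W) (j : κ →ₐ[k] W) (d : ℕ)
    (hmap : ∀ P : Pt κ, ht k (Pt.map (j : κ →+* W) P) = d * ht k P) (w u : ℤ) (x R P : Pt κ) :
    (htData hW).Lcls w u (Pt.map (j : κ →+* W) x) (Pt.map (j : κ →+* W) R)
      (Pt.map (j : κ →+* W) P) = d * (htData hκ).Lcls w u x R P := by
  change (w + 1) • (ht k (Pt.map (j : κ →+* W) x) : ℤ) -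
    (ht k (Pt.map (j : κ →+* W) x + Pt.map (j : κ →+* W) R) : ℤ) +
    (ht k (Pt.map (j : κ →+* W) R) : ℤ) + u • (ht k (Pt.map (j : κ →+* W) P) : ℤ) =
    d * ((w + 1) • (ht k x : ℤ) - (ht k (x + R) : ℤ) + (ht k R : ℤ) + u • (ht k P : ℤ))
  rw [← map_add, hmap, hmap, hmap, hmap]
  simp only [smul_eq_mul]
  push_cast
  ring

/-- The main construction. -/
theorem exists_small (a : (surf g).Point) (ha : a.coord = originCoord k) (δ : ℝ) (hδ : 0 < δ) :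
    ∃ (L : (surf g).LineBundle) (_ : L.IsAmple) (C : (surf g).Curve) (_ : C.PassesThrough a)
      (m : ℕ), 0 < m ∧ (m : ℕ∞) ≤ C.mult a ∧ (L.inter C : ℝ) < δ * m := by
  obtain ⟨n, u, w, ρ, hn, hu, hw, hdet, hlt⟩ := arith δ hδ
  obtain ⟨D⟩ := nonempty_wData k n hn
  obtain ⟨b⟩ := nonempty_wPoint hn D
  obtain ⟨hO1, hO2, hO3, hs, ht', ht, hz⟩ := wHeights hn D b
  obtain ⟨C, j, X, Y, h, hκ, hpass, hmult, hXY, hj⟩ := exists_curve g hn D b hz a ha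
  -- the line bundle
  set ν : Zw := -((u : ℤ) : Zw) * Ve ^ n with hν
  have hνn : QuadraticAlgebra.norm ν = (u : ℤ) ^ 2 * (7 ^ n : ℕ) := by
    rw [hν, map_mul, map_pow, QData.norm_Ve, QuadraticAlgebra.norm_neg,
      QuadraticAlgebra.norm_intCast]
    push_cast; ring
  have hdet' : (u : ℤ) * w - QuadraticAlgebra.norm ρ = 1 := hdet
  have hample := isAmple_Lb g u w (7 ^ n) hu hw (by positivity) ρ ν hνn hdet'
  set R := ρ • P1' g + ν • P2' g with hR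
  -- the points on the curve
  have hzq0 : b.z ^ 7 ^ n ≠ 0 := pow_ne_zero _ b.hz0
  obtain ⟨x', Q1, Q2, r0, r1, r2, m0, m1, m2⟩ := curve_reds g C j h (pow_seven_eq b.hw n) hzq0 hj
  have hRred : (surf g).Red C.toVar.gen (R : Pt (surf g).K) (ρ • Q1 + ν • Q2) :=
    ProjVar.Red.add _ C.sub (ProjVar.Red.zw_smul _ C.sub r1 ρ) (ProjVar.Red.zw_smul _ C.sub r2 ν)
  have hinter := inter_Lb g C hκ (u * (7 ^ n : ℕ) + w) u R r0 hRred r1
  obtain ⟨d, hd, hmap⟩ := ht_map hκ D.curve j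
  -- comparison with the heights over `W`
  have hm1 : Pt.map (j : C.toVar.K →+* D.W) Q1 =
      Fr ^ n • pt1 D.T D.u D.hu + Fr ^ (2 * n) • pt2 D.T D.u b.hT0 D.hu := by
    rw [m1, fr_pt1 b.hw hz n, b.sum, smul_add, smul_smul, ← pow_add, two_mul]
  have hm2 : Pt.map (j : C.toVar.K →+* D.W) Q2 = Fr ^ n • pt2 b.z b.w b.hz0 b.hw := by
    rw [m2, fr_pt2 b.hw b.hz0 hz n]
  have hm0 : Pt.map (j : C.toVar.K →+* D.W) x' =
      pt2 D.T D.u b.hT0 D.hu - pt2 b.z b.w b.hz0 b.hw := by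
    rw [m0, hXY]
  have hmR : Pt.map (j : C.toVar.K →+* D.W) (ρ • Q1 + ν • Q2) =
      ρ • (Fr ^ n • pt1 D.T D.u D.hu + Fr ^ (2 * n) • pt2 D.T D.u b.hT0 D.hu) +
        ν • (Fr ^ n • pt2 b.z b.w b.hz0 b.hw) := by
    rw [map_add, map_zw_smul, map_zw_smul, hm1, hm2]
  have hs' : (htData (k := k) D.curve).H (pt1 D.T D.u D.hu) = 8 := by
    change (Seshadri.ht k (pt1 D.T D.u D.hu) : ℤ) = 8
    exact_mod_cast hs
  have ht'' : (htData (k := k) D.curve).H (pt2 D.T D.u b.hT0 D.hu) = 8 := by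
    change (Seshadri.ht k (pt2 D.T D.u b.hT0 D.hu) : ℤ) = 8
    exact_mod_cast ht'
  have ht2 : (htData (k := k) D.curve).H (pt2 b.z b.w b.hz0 b.hw) = 8 * 7 ^ n + 8 := by
    change (Seshadri.ht k (pt2 b.z b.w b.hz0 b.hw) : ℤ) = 8 * 7 ^ n + 8
    exact_mod_cast ht
  have key := QData.curve_identity (htData (k := k) D.curve) hO1 hO2 hO3 n hs' ht'' ht2 ρ u w
  have hL := Lcls_map hκ D.curve j d hmap (u * (7 ^ n : ℕ) + w) u x' (ρ • Q1 + ν • Q2) Q1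
  rw [hm0, hmR, hm1, ← hinter] at hL
  push_cast at hL hinter hample
  rw [hν, key] at hL
  have hpos7 : 1 ≤ 7 ^ n := Nat.one_le_pow _ _ (by norm_num)
  have h77 : 7 ≤ 7 ^ n := by
    calc 7 = 7 ^ 1 := by norm_num
      _ ≤ 7 ^ n := Nat.pow_le_pow_right (by norm_num) hn
  refine ⟨_, hample, C, hpass, 7 ^ n - 1, by omega, hmult, ?_⟩
  have hcast : ((7 ^ n - 1 : ℕ) : ℝ) = (7 : ℝ) ^ n - 1 := by
    push_cast [Nat.cast_sub hpos7]; ring
  rw [hcast]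
  set I : ℤ := (Lb g ((u : ℤ) * 7 ^ n + w) u R).inter C with hI
  have hV : (d : ℝ) * (I : ℝ) = 8 * ((7 : ℝ) ^ n * (u + w)
      - ((QuadraticAlgebra.trace (ρ * Pt.Fr ^ (2 * n)) : ℤ) : ℝ) + 2 * w) := by
    have := congrArg (fun t : ℤ => (t : ℝ)) hL
    push_cast at this
    exact this.symm
  have hlt2 : (d : ℝ) * (I : ℝ) < δ * ((7 : ℝ) ^ n - 1) := by rw [hV]; exact hlt
  have hRpos : 0 < δ * ((7 : ℝ) ^ n - 1) := by
    have : (7 : ℝ) ≤ 7 ^ n := by exact_mod_cast h77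
    have : (0 : ℝ) < 7 ^ n - 1 := by linarith
    positivity
  have hd1 : (1 : ℝ) ≤ d := by exact_mod_cast hd
  rcases le_or_gt (I : ℝ) 0 with h0 | h0
  · linarith
  · nlinarith

end Seshadri
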