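import Mathlib
import Pool.Agent.Helper36.Ses.Defs

/-!
# Smooth surfaces, multiplicities and Seshadri constants

The relation between the definitions in `Pool.Agent.Helper36.Ses.Public` and those in terms of
ideals.
-/

namespace Seshadri

namespace ProjVar

section

variable {k : Type} [Field k] {ι : Type} {X : ProjVar k ι}

lemma Vanishes.regular {a : X.Point} {A : Type} [Field A] [Algebra k A] {w : ι → A} {u : X.K}
    (h : X.Vanishes a w u) : X.Regular a u := by
  obtain ⟨d, F, G, hF, hG, h0, h1, -⟩ := h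
  refine ⟨MvPolynomial.aeval a.coord F / MvPolynomial.aeval a.coord G, d, F, G, hF, hG, h0, h1, ?_⟩
  exact div_mul_cancel₀ _ h0

lemma MaxPow.add {a : X.Point} {m : ℕ} {u u' : X.K} (h : X.MaxPow a m u) (h' : X.MaxPow a m u') :
    X.MaxPow a m (u + u') := by
  obtain ⟨r, c, v, hc, hv, hu⟩ := h
  obtain ⟨r', c', v', hc', hv', hu'⟩ := h'
  refine ⟨r + r', Fin.append c c', Fin.append v v', ?_, ?_, ?_⟩
  · intro i
    refine Fin.addCases (fun i => ?_) (fun i => ?_) i
    · rw [Fin.append_left]; exact hc i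
    · rw [Fin.append_right]; exact hc' i
  · intro i
    refine Fin.addCases (fun i => ?_) (fun i => ?_) i
    · rw [Fin.append_left]; exact hv i
    · rw [Fin.append_right]; exact hv' i
  · rw [Fin.sum_univ_add, hu, hu']
    simp only [Fin.append_left, Fin.append_right]

lemma maxPow_of_mem {a : X.Point} (m : ℕ) : ∀ u : X.localRing a, u ∈ X.maxIdeal a ^ m →
    X.MaxPow a m (u : X.K) := by
  induction m with
  | zero =>
    intro u _
    exact ⟨1, fun _ => u, fun _ => Fin.elim0, fun _ => u.2, fun _ j => j.elim0, by simp⟩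
  | succ m ih =>
    intro u hu
    rw [pow_succ] at hu
    refine Submodule.mul_induction_on hu ?_ ?_
    · intro x hx y hy
      obtain ⟨r, c, v, hc, hv, hxx⟩ := ih x hx
      refine ⟨r, c, fun i => Fin.snoc (v i) (y : X.K), hc, ?_, ?_⟩
      · intro i j
        refine Fin.lastCases ?_ (fun j => ?_) j
        · beta_reduce; rw [Fin.snoc_last]; exact hy
        · beta_reduce; rw [Fin.snoc_castSucc]; exact hv i j
      · rw [MulMemClass.coe_mul, hxx, Finset.sum_mul]
        refine Finset.sum_congr rfl fun i _ => ?_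
        rw [Fin.prod_univ_castSucc]
        simp only [Fin.snoc_castSucc, Fin.snoc_last]
        rw [mul_assoc]
    · intro x y hx hy
      rw [AddMemClass.coe_add]
      exact hx.add hy

lemma mem_of_maxPow {a : X.Point} {m : ℕ} (u : X.localRing a) (h : X.MaxPow a m (u : X.K)) :
    u ∈ X.maxIdeal a ^ m := by
  obtain ⟨r, c, v, hc, hv, hu⟩ := h
  have e : u = ∑ i, (⟨c i, hc i⟩ : X.localRing a) *
      ∏ j, (⟨v i j, (hv i j).regular⟩ : X.localRing a) := by
    apply Subtype.ext
    rw [hu, AddSubmonoidClass.coe_finsetSum]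
    refine Finset.sum_congr rfl fun i _ => ?_
    rw [MulMemClass.coe_mul, SubmonoidClass.coe_finsetProd]
  rw [e]
  refine Ideal.sum_mem _ fun i _ => Ideal.mul_mem_left _ _ ?_
  have h2 := Ideal.prod_mem_prod (ι := Fin m) (s := Finset.univ) (I := fun _ => X.maxIdeal a)
    (x := fun j => (⟨v i j, (hv i j).regular⟩ : X.localRing a)) (fun j _ => hv i j)
  rwa [Finset.prod_const, Finset.card_univ, Fintype.card_fin] at h2

lemma Curve.multiplicity_eq (C : X.Curve) (a : X.Point) : C.multiplicity a = C.mult a := by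
  unfold Curve.multiplicity Curve.mult
  refine iSup_congr fun m => iSup_congr_Prop ?_ fun _ => rfl
  constructor
  · intro h u hu
    exact mem_of_maxPow u (h u hu)
  · intro h u hu
    exact maxPow_of_mem m ⟨u, hu.regular⟩ (h hu)

lemma IsSmoothSurface.smoothSurface (h : X.IsSmoothSurface) : X.SmoothSurface := by
  refine ⟨h.dim, fun a => ?_⟩
  obtain ⟨s, t, hst⟩ := h.smooth a
  have hs : s ∈ X.maxIdeal a := by
    rw [hst]
    exact Ideal.subset_span (Set.mem_insert _ _)
  have ht : t ∈ X.maxIdeal a := by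
    rw [hst]
    exact Ideal.subset_span (Set.mem_insert_of_mem _ rfl)
  refine ⟨s, t, hs, ht, fun u hu => ?_⟩
  have hu' : (⟨u, hu.regular⟩ : X.localRing a) ∈ X.maxIdeal a := hu
  rw [hst, Ideal.mem_span_pair] at hu'
  obtain ⟨c, d, hcd⟩ := hu'
  refine ⟨c, d, c.2, d.2, ?_⟩
  have := congrArg (Subtype.val) hcd
  exact this.symm

end

variable {k : Type} [Field k] {ι : Type} {X : ProjVar k ι}

variable (X)

lemma globalSeshadri_le (a : X.Point) : X.globalSeshadri ≤ X.seshadriAt a := by
  unfold globalSeshadri seshadriAt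
  exact iInf_mono fun L => iInf_mono fun _ => iInf_le _ a

/-- The infimum is `≤ 0` as soon as there are ample line bundles and curves with arbitrarily small
quotient `(L · C) / mult_a C`. -/
lemma seshadriAt_le_zero {a : X.Point}
    (h : ∀ δ : ℝ, 0 < δ → ∃ (L : X.LineBundle) (_ : L.IsAmple) (C : X.Curve)
      (_ : C.PassesThrough a) (m : ℕ), 0 < m ∧ (m : ℕ∞) ≤ C.multiplicity a ∧ (L.inter C : ℝ) < δ * m) :
    X.seshadriAt a ≤ 0 := by
  refine EReal.le_of_forall_lt_iff_le.1 ?_
  intro δ hδ
  rw [← EReal.coe_zero, EReal.coe_lt_coe_iff] at hδ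
  obtain ⟨L, hL, C, hC, m, hm, hle, hlt⟩ := h δ hδ
  have h1 : X.seshadriAt a ≤ ((L.inter C : ℝ) : EReal) / (((C.multiplicity a : ℕ∞) : ENNReal) : EReal) := by
    unfold seshadriAt
    exact (iInf₂_le L hL).trans (iInf₂_le C hC)
  refine h1.trans ?_
  rcases eq_or_ne (C.multiplicity a) ⊤ with ht | ht
  · rw [ht]
    simp
    exact hδ.le
  · obtain ⟨N, hN⟩ := ENat.ne_top_iff_exists.1 ht
    rw [← hN] at hle ⊢
    have hmN : m ≤ N := by exact_mod_cast hle
    have hN0 : (0 : ℝ) < N := by
      have : 0 < N := by omega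
      exact_mod_cast this
    have e : (((L.inter C : ℝ) : EReal) / ((((N : ℕ) : ℕ∞) : ENNReal) : EReal)) =
        (((L.inter C : ℝ) / (N : ℝ) : ℝ) : EReal) := by
      rw [EReal.coe_div]
      congr 1
    rw [e, EReal.coe_le_coe_iff, div_le_iff₀ hN0]
    have : (m : ℝ) ≤ N := by exact_mod_cast hmN
    nlinarith

/-- The infimum is `≥ 0` if ample line bundles have non-negative degree on curves. -/
lemma globalSeshadri_nonneg
    (h : ∀ (L : X.LineBundle), L.IsAmple → ∀ C : X.Curve, 0 ≤ L.inter C) :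
    0 ≤ X.globalSeshadri := by
  unfold globalSeshadri LineBundle.seshadri
  refine le_iInf₂ fun L hL => le_iInf fun a => le_iInf₂ fun C _ => ?_
  apply EReal.div_nonneg
  · exact_mod_cast h L hL C
  · exact EReal.coe_ennreal_nonneg _

end ProjVar

end Seshadri
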